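import Pool.Agent.H35.K2S.WS
import Pool.Agent.H64.K3.Box
import Pool.Agent.H32.K2.ENP

/-!
# The tail of a plank zoom

`G` is the zoom of `F` into windows of length `2 ^ (-w)`, in plank coordinates of precision `lam`,
truncated to the resolution `J'` and rounded. The frame `z` is a function of the window; the frame
and the cell of the velocity are visible from the exact points. Then the entropy of the positions
of `G` between the rows `P` and `J'` is at most the entropy of the positions of `F` between the rows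
`w + lam + P` and `w + J' + lam`: the rows of the chart coordinate behind `w + J'` are full.
-/

set_option autoImplicit false

namespace Pool.ZCL

open Finset Real
open Pool.Agent.H49.Ent Pool.Agent.H32.Dense Pool.STK Pool.KA Pool.K2S Plk

variable {m J : ℕ}

/-! ### Rounding -/

/-- The position of the truncated and rounded family. -/
theorem rnd_x_near {n J' : ℕ} (G : Fam m n) (h : J' ≤ n) (ω : G.Ω) (i : Fin m) :
    |((G.trc J' h).rnd).x ω i - G.x ω i| ≤ 3 / 2 ^ J' := by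
  have e1 : ((G.trc J' h).rnd).x ω i = (⌊(2 : ℝ) ^ J' * G.u ω i⌋ : ℝ) / 2 ^ J' +
      ((G.T1 J' ω : ℕ) : ℝ) / 2 ^ J' * ((⌊(2 : ℝ) ^ J' * G.d ω i⌋ : ℝ) / 2 ^ J') := rfl
  have e2 : G.x ω i = G.u ω i + G.t ω * G.d ω i := rfl
  have hT := Pool.KSAT.T1_real G (g := J') h ω
  have hd := abs_le.1 (G.dir ω i)
  have ht0 : 0 ≤ G.t ω := by unfold Fam.t; positivity
  have ht1 : G.t ω ≤ 1 := by
    unfold Fam.t
    rw [div_le_one (by positivity)]
    exact_mod_cast (G.tim ω).le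
  obtain ⟨Q, hQ⟩ : ∃ Q : ℝ, Q = 2 ^ J' := ⟨_, rfl⟩
  have hQ0 : 0 < Q := by rw [hQ]; positivity
  rw [e1, e2, ← hQ]
  rw [← hQ] at hT
  obtain ⟨s, hs⟩ : ∃ s : ℝ, s = ((G.T1 J' ω : ℕ) : ℝ) := ⟨_, rfl⟩
  rw [← hs] at hT ⊢
  have hs0 : 0 ≤ s := by rw [hs]; positivity
  have hs1 : s ≤ Q := by nlinarith only [hT, ht1, hQ0, hT.1]
  obtain ⟨a, ha⟩ : ∃ a : ℝ, a = (⌊Q * G.u ω i⌋ : ℝ) := ⟨_, rfl⟩
  obtain ⟨b, hb⟩ : ∃ b : ℝ, b = (⌊Q * G.d ω i⌋ : ℝ) := ⟨_, rfl⟩
  have a1 : a ≤ Q * G.u ω i := by rw [ha]; exact Int.floor_le _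
  have a2 : Q * G.u ω i < a + 1 := by rw [ha]; exact Int.lt_floor_add_one _
  have b1 : b ≤ Q * G.d ω i := by rw [hb]; exact Int.floor_le _
  have b2 : Q * G.d ω i < b + 1 := by rw [hb]; exact Int.lt_floor_add_one _
  rw [← ha, ← hb]
  have key : a / Q + s / Q * (b / Q) - (G.u ω i + G.t ω * G.d ω i) =
      ((a - Q * G.u ω i) + s / Q * (b - Q * G.d ω i) - (Q * G.t ω - s) * G.d ω i) / Q := by
    field_simp
    ring
  rw [key, abs_div, abs_of_pos hQ0]
  refine div_le_div_of_nonneg_right ?_ hQ0.le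
  have c1 : |a - Q * G.u ω i| ≤ 1 := by rw [abs_le]; constructor <;> linarith
  have c2 : |s / Q * (b - Q * G.d ω i)| ≤ 1 := by
    have hsQ : 0 ≤ s / Q := by positivity
    have hsQ1 : s / Q ≤ 1 := by rw [div_le_one hQ0]; exact hs1
    rw [abs_mul, abs_of_nonneg hsQ]
    have c3 : |b - Q * G.d ω i| ≤ 1 := by rw [abs_le]; constructor <;> linarith
    have := abs_nonneg (b - Q * G.d ω i)
    nlinarith only [hsQ1, hsQ, c3]
  have c4 : |(Q * G.t ω - s) * G.d ω i| ≤ 1 := by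
    rw [abs_mul, abs_of_nonneg hT.1]
    have c5 : |G.d ω i| ≤ 1 := G.dir ω i
    have := abs_nonneg (G.d ω i)
    nlinarith only [hT, c5, hT.1, hT.2]
  have h1 := abs_sub ((a - Q * G.u ω i) + s / Q * (b - Q * G.d ω i)) ((Q * G.t ω - s) * G.d ω i)
  have h2 := abs_add_le (a - Q * G.u ω i) (s / Q * (b - Q * G.d ω i))
  linarith only [c1, c2, c4, h1, h2]

/-- The position of the truncated and rounded family. -/
noncomputable def rx {n J' : ℕ} (G : Fam m n) (h : J' ≤ n) (ω : G.Ω) : Fin m → ℝ :=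
  ((G.trc J' h).rnd).x ω

/-- The cell of the position of the truncated and rounded family. -/
noncomputable def rX {n J' : ℕ} (G : Fam m n) (h : J' ≤ n) (k : ℕ) (ω : G.Ω) : Fin m → ℤ :=
  fl k (rx G h ω)

/-- The rows of the truncated and rounded family. -/
theorem rnd_row {n J' P : ℕ} (G : Fam m n) (h : J' ≤ n) (hP : P ≤ J') {S : Type} (W : G.Ω → S) :
    CH G.p (rX G h J') (fun ω => (rX G h P ω, W ω)) ≤
      CH G.p (G.X J') (fun ω => (G.X P ω, W ω)) + 2 * (m * Real.log 17) := by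
  have h0 := G.isLaw.nonneg
  have near : ∀ ω i, |rx G h ω i - G.x ω i| ≤ 3 / 2 ^ J' := fun ω i => rnd_x_near G h ω i
  have p1 : ∀ k : ℕ, (0 : ℝ) < 2 ^ k := fun k => by positivity
  have hPJ : (2 : ℝ) ^ P ≤ 2 ^ J' := pow_le_pow_right₀ one_le_two hP
  have hinv : (1 : ℝ) / 2 ^ J' ≤ 1 / 2 ^ P := one_div_le_one_div_of_le (p1 P) hPJ
  -- close positions
  have close : ∀ k, ∀ ω ω' : G.Ω, G.X k ω = G.X k ω' → ∀ i, |G.x ω i - G.x ω' i| ≤ 1 / 2 ^ k := by
    intro k ω ω' hh i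
    have g := abs_sub_lt_of_floor (congrFun hh i : ⌊(2 : ℝ) ^ k * G.x ω i⌋ =
      ⌊(2 : ℝ) ^ k * G.x ω' i⌋)
    rw [← mul_sub, abs_mul, abs_of_pos (p1 k)] at g
    rw [le_div_iff₀ (p1 k)]
    linarith only [g]
  have close' : ∀ k, ∀ ω ω' : G.Ω, rX G h k ω = rX G h k ω' →
      ∀ i, |rx G h ω i - rx G h ω' i| ≤ 1 / 2 ^ k := by
    intro k ω ω' hh i
    have g := abs_sub_lt_of_floor (congrFun hh i : ⌊(2 : ℝ) ^ k * rx G h ω i⌋ =
      ⌊(2 : ℝ) ^ k * rx G h ω' i⌋)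
    rw [← mul_sub, abs_mul, abs_of_pos (p1 k)] at g
    rw [le_div_iff₀ (p1 k)]
    linarith only [h, g]
  have b1 : CH G.p (rX G h J') (fun ω => (G.X J' ω, (rX G h P ω, W ω))) ≤ m * Real.log 17 := by
    have key := ENP.CH_fl G.isLaw J' (rx G h) (fun ω => (G.X J' ω, (rX G h P ω, W ω))) 7
      (fun ω ω' _ _ hh i => by
        have c1 := close J' ω ω' (Prod.ext_iff.mp hh).1 i
        have c2 := near ω i
        have c3 := near ω' i
        have e : (7 : ℝ) / 2 ^ J' = 3 / 2 ^ J' + 1 / 2 ^ J' + 3 / 2 ^ J' := by ring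
        rw [e]
        rw [abs_le] at c1 c2 c3 ⊢
        constructor <;> linarith only [h, c1, c2, c3, c1.1, c1.2, c2.1, c2.2, c3.1, c3.2])
    have e : (2 : ℝ) * 7 + 3 = 17 := by norm_num
    rw [e] at key
    exact key
  have b2 : CH G.p (G.X P) (fun ω => (rX G h P ω, W ω)) ≤ m * Real.log 17 := by
    have key := ENP.CH_fl G.isLaw P G.x (fun ω => (rX G h P ω, W ω)) 7
      (fun ω ω' _ _ hh i => by
        have c1 := close' P ω ω' (Prod.ext_iff.mp hh).1 i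
        have c2 := near ω i
        have c3 := near ω' i
        have e : (7 : ℝ) / 2 ^ P = 3 * (1 / 2 ^ P) + 1 / 2 ^ P + 3 * (1 / 2 ^ P) := by ring
        have e3 : (3 : ℝ) / 2 ^ J' = 3 * (1 / 2 ^ J') := by ring
        rw [e3] at c2 c3
        rw [e]
        rw [abs_le] at c1 c2 c3 ⊢
        constructor <;> linarith only [h, hinv, c1, c2, c3, c1.1, c1.2, c2.1, c2.2, c3.1, c3.2])
    have e : (2 : ℝ) * 7 + 3 = 17 := by norm_num
    rw [e] at key
    exact key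
  have a1 := CH_le_add h0 (rX G h J') (G.X J') (fun ω => (rX G h P ω, W ω))
  have a2 := CH_le_add h0 (G.X J') (G.X P) (fun ω => (rX G h P ω, W ω))
  have a3 := CH_mono_cond h0 (X := G.X J') (W' := fun ω => (G.X P ω, (rX G h P ω, W ω)))
    (W := fun ω => (G.X P ω, W ω)) (fun ω ω' _ _ hh => by
      have c1 := Prod.ext_iff.mp hh
      exact Prod.ext c1.1 (Prod.ext_iff.mp c1.2).2)
  linarith only [h, b1, b2, a1, a2, a3]

/-! ### Times -/

/-- The truncated time does not change the entropy of the rows, up to the time deficit. -/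
theorem rnd_time {κ : Type} (F : Fam m J) {w J' P : ℕ} (hJ : w + J' ≤ J) (C : Crd m κ)
    (g : F.Ω → κ) (hg : Det F.p (wnd F w) g) {e : ℝ} (hTm : F.Tm e) (h : J' ≤ J - w) :
    CH F.p (rX (F.box w C g) h J')
        (fun ω => (rX (F.box w C g) h P ω, ((F.box w C g).T1 J' ω, F.blab w C g ω))) ≤
      CH F.p (rX (F.box w C g) h J')
        (fun ω => (rX (F.box w C g) h P ω, (F.T ω, F.blab w C g ω))) + e := by
  have h0 := F.isLaw.nonneg
  obtain ⟨X', hX'⟩ : ∃ X' : F.Ω → Fin m → ℤ, X' = rX (F.box w C g) h J' := ⟨_, rfl⟩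
  obtain ⟨XP, hXP⟩ : ∃ XP : F.Ω → Fin m → ℤ, XP = rX (F.box w C g) h P := ⟨_, rfl⟩
  obtain ⟨V, hV⟩ : ∃ V, V = fun ω => (XP ω, ((F.box w C g).T1 J' ω, F.blab w C g ω)) :=
    ⟨_, rfl⟩
  rw [← hX', ← hXP, ← hV]
  obtain ⟨k, hk⟩ : ∃ k, k = J - (w + J') := ⟨_, rfl⟩
  have hT1 : ∀ ω, F.T1 (w + J') ω = F.T ω / 2 ^ k := fun ω => by
    rw [hk]
    rfl
  have hTs : ∀ ω, F.T ω = 2 ^ k * F.T1 (w + J') ω + F.T ω % 2 ^ k := fun ω => by
    rw [hT1]
    exact (Nat.div_add_mod _ _).symm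
  -- the window of length `2 ^ (-(w + J'))` is a function of `V`
  have hV1 : ∀ ω ω', V ω = V ω' → XP ω = XP ω' ∧ F.T1 (w + J') ω = F.T1 (w + J') ω' ∧
      F.blab w C g ω = F.blab w C g ω' := by
    intro ω ω' hh
    rw [hV] at hh
    have a1 := Prod.ext_iff.mp hh
    have a2 := Prod.ext_iff.mp a1.2
    have a3 := Box.split_lab F (show F.blab w C g ω = F.blab w C g ω' from a2.2)
    have a4 : (F.box w C g).T1 J' ω = (F.box w C g).T1 J' ω' := a2.1
    refine ⟨a1.1, ?_, a2.2⟩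
    rw [Box.T1_box F hJ C g ω, Box.T1_box F hJ C g ω', a3.1, a4]
  -- everything is a function of the line and the window
  have hdet : Det F.p (fun ω => (F.T1 (w + J') ω, (F.l ω, F.Z ω))) (fun ω => (X' ω, V ω)) := by
    intro ω ω' hω hω' hh
    have a1 := Prod.ext_iff.mp hh
    have a2 := Prod.ext_iff.mp a1.2
    simp only at a1 a2
    have a3 : F.T1 w ω = F.T1 w ω' := by
      rw [Pool.KSAT.T1_div F hJ ω, Pool.KSAT.T1_div F hJ ω', a1.1]
    have a4 : g ω = g ω' := hg ω ω' hω hω' (Prod.ext a2.1 (Prod.ext a3 a2.2))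
    have a5 := Box.blab_det F (C := C) a2.1 a3 a4 a2.2
    have a6 : (F.box w C g).T1 J' ω = (F.box w C g).T1 J' ω' := by
      have c1 := Box.T1_box F hJ C g ω
      have c2 := Box.T1_box F hJ C g ω'
      rw [a1.1, a3] at c1
      omega
    have a7 : (F.box w C g).u ω = (F.box w C g).u ω' := (Prod.ext_iff.mp a5.2).1
    have a8 : (F.box w C g).d ω = (F.box w C g).d ω' := (Prod.ext_iff.mp a5.2).2
    have a9 : rx (F.box w C g) h ω = rx (F.box w C g) h ω' := by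
      funext i
      change (⌊(2 : ℝ) ^ J' * (F.box w C g).u ω i⌋ : ℝ) / 2 ^ J' +
        (((F.box w C g).T1 J' ω : ℕ) : ℝ) / 2 ^ J' *
          ((⌊(2 : ℝ) ^ J' * (F.box w C g).d ω i⌋ : ℝ) / 2 ^ J') =
        (⌊(2 : ℝ) ^ J' * (F.box w C g).u ω' i⌋ : ℝ) / 2 ^ J' +
        (((F.box w C g).T1 J' ω' : ℕ) : ℝ) / 2 ^ J' *
          ((⌊(2 : ℝ) ^ J' * (F.box w C g).d ω' i⌋ : ℝ) / 2 ^ J')
      rw [a6, a7, a8]
    rw [hX', hV, hXP]
    unfold rX
    simp only [a9, a6, a5.1]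
  -- upper bound for the time
  have d1 : CH F.p F.T V ≤ k * Real.log 2 := by
    have c1 := CH_le_add h0 F.T (fun ω => F.T ω % 2 ^ k) V
    have c2 := TRC.CH_lt F.isLaw (fun ω => F.T ω % 2 ^ k) V k
      (fun ω => Nat.mod_lt _ (by positivity))
    have c3 : CH F.p F.T (fun ω => (F.T ω % 2 ^ k, V ω)) = 0 := by
      refine CH_eq_zero h0 fun ω ω' _ _ hh => ?_
      have a1 := Prod.ext_iff.mp hh
      simp only at a1
      rw [hTs ω, hTs ω', a1.1, (hV1 ω ω' a1.2).2.1]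
    linarith only [c1, c2, c3]
  -- lower bound for the time
  have d2 : k * Real.log 2 - e ≤ CH F.p F.T (fun ω => (X' ω, V ω)) := by
    have c1 := CH_mono_cond h0 (X := F.T) hdet
    have c2 := CH_le_add h0 F.T (F.T1 (w + J')) (fun ω => (F.l ω, F.Z ω))
    have c3 := TRC.CH_lt F.isLaw (F.T1 (w + J')) (fun ω => (F.l ω, F.Z ω)) (w + J') (fun ω => by
      rw [hT1, Nat.div_lt_iff_lt_mul (by positivity), ← pow_add]
      have h1 := F.tim ω
      have e1 : w + J' + k = J := by omega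
      rwa [e1])
    have c4 : (J : ℝ) * Real.log 2 - e ≤ CH F.p F.T (fun ω => (F.l ω, F.Z ω)) := hTm
    have c5 : (J : ℝ) = (w + J' : ℕ) + k := by
      have : J = w + J' + k := by omega
      exact_mod_cast this
    rw [c5] at c4
    linarith only [c1, c2, c3, c4]
  -- the chain rule
  have c1 := CH_chain h0 X' F.T V
  have c2 := CH_chain h0 F.T X' V
  have c3 : CH F.p (fun ω => (X' ω, F.T ω)) V = CH F.p (fun ω => (F.T ω, X' ω)) V := by
    refine CH_congr h0 ?_ ?_ (fun _ _ _ _ hh => hh) (fun _ _ _ _ hh => hh)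
    · intro ω ω' _ _ hh
      have a1 := Prod.ext_iff.mp (Prod.ext_iff.mp hh).1
      exact Prod.ext a1.2 a1.1
    · intro ω ω' _ _ hh
      have a1 := Prod.ext_iff.mp (Prod.ext_iff.mp hh).1
      exact Prod.ext a1.2 a1.1
  have c4 := CH_mono_cond h0 (X := X') (W' := fun ω => (F.T ω, V ω))
    (W := fun ω => (XP ω, (F.T ω, F.blab w C g ω))) (fun ω ω' _ _ hh => by
      have a1 := Prod.ext_iff.mp hh
      simp only at a1
      have a2 := hV1 ω ω' a1.2
      exact Prod.ext a2.1 (Prod.ext a1.1 a2.2.2))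
  linarith only [d1, d2, c1, c2, c3, c4]

/-! ### The chain of the rows -/

/-- The rows of the planks, if the rows of the chart coordinate behind them are full. -/
theorem plk_rows (F : Fam m J) {w lam J' P : ℕ} (hJ : w + J' + lam ≤ J) (hP : P ≤ J')
    {i0 : Fin m} {z : F.Ω → Fin m → ℝ} {b η : ℝ} (hb : 0 ≤ b)
    (hz : ∀ ω, 0 < F.p ω → ∀ i, |z ω i| ≤ b)
    (hrow : lam * Real.log 2 - η ≤ CH F.p (fun ω => ⌊(2 : ℝ) ^ (w + J' + lam) * F.x ω i0⌋)
      (fun ω => (F.T ω, (F.plab (w + J') lam i0 z ω, F.plab w lam i0 z ω)))) :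
    CH F.p ((F.plk w lam i0 z).X J')
        (fun ω => ((F.plk w lam i0 z).X P ω, (F.T ω, F.plab w lam i0 z ω))) ≤
      CH F.p (F.X (w + J' + lam)) (fun ω => (F.X (w + P + lam) ω, F.W ω)) + η +
        (2 * (m * Real.log (2 * b + 5)) + 3 * (m * Real.log 3)) := by
  have h0 := F.isLaw.nonneg
  have hw : w ≤ J := by omega
  obtain ⟨B, hB⟩ : ∃ B, B = fun ω => (F.T ω, F.plab w lam i0 z ω) := ⟨_, rfl⟩
  obtain ⟨YJ, hYJ⟩ : ∃ YJ : F.Ω → Fin m → ℤ, YJ = (F.plk w lam i0 z).X J' := ⟨_, rfl⟩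
  obtain ⟨YP, hYP⟩ : ∃ YP : F.Ω → Fin m → ℤ, YP = (F.plk w lam i0 z).X P := ⟨_, rfl⟩
  obtain ⟨V, hV⟩ : ∃ V, V = F.X (w + P + lam) := ⟨_, rfl⟩
  obtain ⟨Q, hQ⟩ : ∃ Q, Q = F.X (w + J' + lam) := ⟨_, rfl⟩
  obtain ⟨q, hq⟩ : ∃ q, q = fun ω => ⌊(2 : ℝ) ^ (w + J' + lam) * F.x ω i0⌋ := ⟨_, rfl⟩
  obtain ⟨B', hB'⟩ : ∃ B', B' = fun ω => (F.T ω, (F.plab (w + J') lam i0 z ω,
    F.plab w lam i0 z ω)) := ⟨_, rfl⟩
  have hBz : ∀ ω ω', B ω = B ω' → F.T ω = F.T ω' ∧ F.plab w lam i0 z ω = F.plab w lam i0 z ω' ∧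
      F.Z ω = F.Z ω' := by
    intro ω ω' hh
    rw [hB] at hh
    have a1 := Prod.ext_iff.mp hh
    simp only at a1
    exact ⟨a1.1, a1.2, (Prod.ext_iff.mp a1.2).2⟩
  suffices main : CH F.p YJ (fun ω => (YP ω, B ω)) ≤
      CH F.p Q (fun ω => (V ω, F.W ω)) + η +
        (2 * (m * Real.log (2 * b + 5)) + 3 * (m * Real.log 3)) by
    rw [hYJ, hYP, hB, hQ, hV] at main
    exact main
  rw [← hq, ← hB'] at hrow
  -- the three steps of the chain
  have swap : ∀ {S T U : Type} (X : F.Ω → S) (Y : F.Ω → T) (W : F.Ω → U),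
      CH F.p (fun ω => (X ω, Y ω)) W = CH F.p (fun ω => (Y ω, X ω)) W := by
    intro S T U X Y W
    refine CH_congr h0 ?_ ?_ (fun _ _ _ _ hh => hh) (fun _ _ _ _ hh => hh)
    · intro ω ω' _ _ hh
      have a1 := Prod.ext_iff.mp (Prod.ext_iff.mp hh).1
      exact Prod.ext a1.2 a1.1
    · intro ω ω' _ _ hh
      have a1 := Prod.ext_iff.mp (Prod.ext_iff.mp hh).1
      exact Prod.ext a1.2 a1.1
  have s1 := CH_chain h0 V YJ (fun ω => (YP ω, B ω))
  have s2 := CH_chain h0 YJ V (fun ω => (YP ω, B ω))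
  have s3 := swap V YJ (fun ω => (YP ω, B ω))
  have t1 := CH_chain h0 Q YJ (fun ω => (V ω, (YP ω, B ω)))
  have t2 := CH_chain h0 YJ Q (fun ω => (V ω, (YP ω, B ω)))
  have t3 := swap Q YJ (fun ω => (V ω, (YP ω, B ω)))
  have r1 := CH_le_add h0 Q V (fun ω => (YJ ω, (YP ω, B ω)))
  have r2 : CH F.p Q (fun ω => (V ω, (YJ ω, (YP ω, B ω)))) ≤
      CH F.p Q (fun ω => (YJ ω, (V ω, (YP ω, B ω)))) :=
    CH_mono_cond h0 fun ω ω' _ _ hh => by
      have a1 := Prod.ext_iff.mp hh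
      have a2 := Prod.ext_iff.mp a1.2
      exact Prod.ext a2.1 (Prod.ext a1.1 a2.2)
  -- the bounds
  have u1 : CH F.p V (fun ω => (YP ω, B ω)) ≤
      lam * Real.log 2 + m * Real.log (2 * b + 5) + m * Real.log 3 := by
    have := CH_X_given F (w := w) (K := P) (lam := lam) hw (i0 := i0) hb hz
    rw [hV, hYP, hB]
    exact this
  have u2 : CH F.p Q (fun ω => (V ω, (YP ω, B ω))) ≤ CH F.p Q (fun ω => (V ω, F.W ω)) :=
    CH_mono_cond h0 fun ω ω' _ _ hh => by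
      have a1 := Prod.ext_iff.mp hh
      have a2 := Prod.ext_iff.mp a1.2
      have a3 := hBz ω ω' a2.2
      exact Prod.ext a1.1 (Prod.ext a3.1 a3.2.2)
  have u3 : CH F.p YJ (fun ω => (Q ω, (V ω, (YP ω, B ω)))) ≤
      m * Real.log (2 * b + 5) + m * Real.log 3 := by
    have h1 := CH_X_pt F (w := w) (K := J') (lam := lam) (r := w + J' + lam) hw le_rfl
      (i0 := i0) hb hz
    have h2 : CH F.p YJ (fun ω => (Q ω, B ω)) ≤
        m * Real.log (2 * b + 5) + m * Real.log 3 := by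
      rw [hYJ, hQ, hB]
      exact h1
    refine (CH_mono_cond h0 (W := fun ω => (Q ω, B ω)) fun ω ω' _ _ hh => ?_).trans h2
    have a1 := Prod.ext_iff.mp hh
    have a2 := Prod.ext_iff.mp a1.2
    exact Prod.ext a1.1 (Prod.ext_iff.mp a2.2).2
  have u4 : lam * Real.log 2 - η - m * Real.log 3 ≤ CH F.p Q (fun ω => (YJ ω, (YP ω, B ω))) := by
    have h1 : CH F.p q (fun ω => (YJ ω, (YP ω, B ω))) ≤
        CH F.p Q (fun ω => (YJ ω, (YP ω, B ω))) := by
      refine CH_mono_left h0 fun ω ω' _ _ hh => ?_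
      have a1 : Q ω = Q ω' := (Prod.ext_iff.mp hh).1
      rw [hQ] at a1
      rw [hq]
      exact congrFun a1 i0
    have h2 : CH F.p q (fun ω => (YJ ω, B' ω)) ≤ CH F.p q (fun ω => (YJ ω, (YP ω, B ω))) := by
      refine CH_mono_cond h0 fun ω ω' _ _ hh => ?_
      have a1 := Prod.ext_iff.mp hh
      have a2 : YJ ω = YJ ω' := a1.1
      have a3 : B' ω = B' ω' := a1.2
      rw [hB'] at a3
      have a4 := Prod.ext_iff.mp a3
      refine Prod.ext a2 (Prod.ext ?_ ?_)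
      · rw [hYJ] at a2
        rw [hYP]
        exact Pool.STK.B58.fl_fine hP a2
      · rw [hB]
        exact Prod.ext a4.1 (Prod.ext_iff.mp a4.2).2
    have h3 := CH_bayes h0 q YJ B'
    have h4 := CH_nonneg h0 YJ (fun ω => (q ω, B' ω))
    have h5 : CH F.p YJ B' ≤ m * Real.log 3 := by
      have h6 := CH_X_le F (w := w) (K := J') (by omega) lam i0 z
      have h7 : CH F.p YJ (fun ω => (F.plab (w + J') lam i0 z ω, F.plab w lam i0 z ω)) ≤
          m * Real.log 3 := by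
        rw [hYJ]
        exact h6
      refine (CH_mono_cond h0 (W := fun ω => (F.plab (w + J') lam i0 z ω,
        F.plab w lam i0 z ω)) fun ω ω' _ _ hh => ?_).trans h7
      rw [hB'] at hh
      exact (Prod.ext_iff.mp hh).2
    linarith only [hrow, h1, h2, h3, h4, h5]
  linarith only [s1, s2, s3, t1, t2, t3, r1, r2, u1, u2, u3, u4]

/-! ### Visibility -/

/-- The cell of the position is visible from the exact point, the frame and the cell of the
velocity. -/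
theorem pcl_vis (F : Fam m J) {w lam : ℕ} (hJ : w + lam ≤ J) {i0 : Fin m}
    {z : F.Ω → Fin m → ℝ} {b : ℝ} (hb : 0 ≤ b) (hz : ∀ ω, 0 < F.p ω → ∀ i, |z ω i| ≤ b) :
    CH F.p (F.pcl w lam i0 z) (fun ω => ((z ω, F.pvl lam i0 z ω), K2S.Fam.pt F ω)) ≤
      m * Real.log (2 * b + 7) := by
  have hwJ : w ≤ J := by omega
  have key := ENP.CH_fl F.isLaw w (fun ω => pco lam i0 (z ω) (F.x1 w ω))
    (fun ω => ((z ω, F.pvl lam i0 z ω), K2S.Fam.pt F ω)) (2 + b) ?_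
  · have e : 2 * (2 + b) + 3 = 2 * b + 7 := by ring
    rw [e] at key
    exact key
  · intro ω ω' hω hω' hh j
    have h1 := Prod.ext_iff.mp hh
    have h2 := Prod.ext_iff.mp h1.1
    simp only at h1 h2
    have h3 := Prod.ext_iff.mp h1.2
    have hX : F.X J ω = F.X J ω' := h3.1
    have hT : F.T ω = F.T ω' := (Prod.ext_iff.mp h3.2).1
    have e2 : (F.plk w lam i0 z).t ω = (F.plk w lam i0 z).t ω' := by
      change ((F.T ω % 2 ^ (J - w) : ℕ) : ℝ) / 2 ^ (J - w) =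
        ((F.T ω' % 2 ^ (J - w) : ℕ) : ℝ) / 2 ^ (J - w)
      rw [hT]
    have key : ∀ ω'', 2 ^ w * pco lam i0 (z ω'') (F.x1 w ω'') j =
        2 ^ w * pco lam i0 (z ω'') (F.x ω'') j -
          (F.plk w lam i0 z).t ω'' * pco lam i0 (z ω'') (F.d ω'') j := by
      intro ω''
      have f1 := plk_x F hwJ lam i0 z ω'' j
      have f2 := pcl_eq F w lam i0 z ω'' j
      have f3 := pvl_eq F w lam i0 z ω'' j
      have f4 : (F.plk w lam i0 z).x ω'' j = (F.plk w lam i0 z).u ω'' j +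
        (F.plk w lam i0 z).t ω'' * (F.plk w lam i0 z).d ω'' j := rfl
      rw [f1, f2, f3, f4]
      ring
    have ht := t_mem F w lam i0 z ω'
    have hd : |pco lam i0 (z ω) (F.d ω) j - pco lam i0 (z ω) (F.d ω') j| ≤ 1 := by
      have g : |(2 : ℝ) ^ 0 * pco lam i0 (z ω) (F.d ω) j -
          2 ^ 0 * pco lam i0 (z ω') (F.d ω') j| ≤ 1 := abs_sub_lt_of_floor (congrFun h2.2 j)
      rw [pow_zero, one_mul, one_mul, ← h2.1] at g
      exact g
    have p1 : (0 : ℝ) < 2 ^ J := by positivity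
    have p2 : (0 : ℝ) < 2 ^ w := by positivity
    have p3 : (0 : ℝ) < 2 ^ lam := by positivity
    have hx0 : ∀ i, |F.x ω i - F.x ω' i| ≤ 1 / 2 ^ J := fun i => by
      have g := abs_sub_lt_of_floor (congrFun hX i : ⌊(2 : ℝ) ^ J * F.x ω i⌋ =
        ⌊(2 : ℝ) ^ J * F.x ω' i⌋)
      rw [← mul_sub, abs_mul, abs_of_pos p1] at g
      rw [le_div_iff₀ p1]
      linarith only [g]
    have hwl : (2 : ℝ) ^ w * 2 ^ lam ≤ 2 ^ J := by
      rw [← pow_add]
      exact pow_le_pow_right₀ one_le_two hJ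
    have hx : |2 ^ w * pco lam i0 (z ω) (F.x ω) j - 2 ^ w * pco lam i0 (z ω) (F.x ω') j| ≤
        1 + b := by
      have hlam1 : (1 : ℝ) ≤ 2 ^ lam := one_le_pow₀ one_le_two
      have k1 : (2 : ℝ) ^ w * 2 ^ lam * (1 / 2 ^ J) ≤ 1 := by
        rw [mul_one_div, div_le_one p1]
        exact hwl
      have k0 : (2 : ℝ) ^ w * (1 / 2 ^ J) ≤ 1 := by
        refine le_trans ?_ k1
        refine mul_le_mul_of_nonneg_right ?_ (by positivity)
        nlinarith only [p2, hlam1]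
      unfold pco
      split_ifs with hj
      · rw [← mul_sub, abs_mul, abs_of_pos p2]
        have := mul_le_mul_of_nonneg_left (hx0 i0) p2.le
        linarith only [hb, k0, this]
      · have e : (2 : ℝ) ^ w * (2 ^ lam * (F.x ω j - z ω j * F.x ω i0)) -
            2 ^ w * (2 ^ lam * (F.x ω' j - z ω j * F.x ω' i0)) =
            2 ^ w * 2 ^ lam * ((F.x ω j - F.x ω' j) - z ω j * (F.x ω i0 - F.x ω' i0)) := by
          ring
        rw [e, abs_mul, abs_of_pos (by positivity)]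
        have k2 : |(F.x ω j - F.x ω' j) - z ω j * (F.x ω i0 - F.x ω' i0)| ≤
            (1 + b) * (1 / 2 ^ J) := by
          have k3 := abs_sub (F.x ω j - F.x ω' j) (z ω j * (F.x ω i0 - F.x ω' i0))
          have k4 : |z ω j * (F.x ω i0 - F.x ω' i0)| ≤ b * (1 / 2 ^ J) := by
            rw [abs_mul]
            exact mul_le_mul (hz ω hω j) (hx0 i0) (abs_nonneg _) hb
          have k5 := hx0 j
          linarith only [k3, k4, k5]
        calc (2 : ℝ) ^ w * 2 ^ lam * |(F.x ω j - F.x ω' j) - z ω j * (F.x ω i0 - F.x ω' i0)| ≤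
            2 ^ w * 2 ^ lam * ((1 + b) * (1 / 2 ^ J)) :=
              mul_le_mul_of_nonneg_left k2 (by positivity)
          _ = (1 + b) * (2 ^ w * 2 ^ lam * (1 / 2 ^ J)) := by ring
          _ ≤ (1 + b) * 1 := mul_le_mul_of_nonneg_left k1 (by positivity)
          _ = 1 + b := mul_one _
    rw [le_div_iff₀ p2]
    have e3 : |pco lam i0 (z ω) (F.x1 w ω) j - pco lam i0 (z ω') (F.x1 w ω') j| * 2 ^ w =
        |2 ^ w * pco lam i0 (z ω) (F.x1 w ω) j - 2 ^ w * pco lam i0 (z ω') (F.x1 w ω') j| := by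
      rw [← mul_sub, abs_mul, abs_of_pos p2]
      ring
    rw [e3, key ω, key ω', ← h2.1, e2]
    have e4 : 2 ^ w * pco lam i0 (z ω) (F.x ω) j -
        (F.plk w lam i0 z).t ω' * pco lam i0 (z ω) (F.d ω) j -
        (2 ^ w * pco lam i0 (z ω) (F.x ω') j -
        (F.plk w lam i0 z).t ω' * pco lam i0 (z ω) (F.d ω') j) =
        (2 ^ w * pco lam i0 (z ω) (F.x ω) j - 2 ^ w * pco lam i0 (z ω) (F.x ω') j) -
        (F.plk w lam i0 z).t ω' * (pco lam i0 (z ω) (F.d ω) j - pco lam i0 (z ω) (F.d ω') j) := by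
      ring
    rw [e4]
    have k1 := abs_sub (2 ^ w * pco lam i0 (z ω) (F.x ω) j - 2 ^ w * pco lam i0 (z ω) (F.x ω') j)
      ((F.plk w lam i0 z).t ω' *
        (pco lam i0 (z ω) (F.d ω) j - pco lam i0 (z ω) (F.d ω') j))
    rw [abs_mul, abs_of_nonneg ht.1] at k1
    have h4 := abs_nonneg (pco lam i0 (z ω) (F.d ω) j - pco lam i0 (z ω) (F.d ω') j)
    nlinarith only [ht, hx, k1, hd, ht.1, ht.2]

/-- The labels of the two windows are visible. -/
theorem plab_vis (F : Fam m J) {w w' lam : ℕ} (hJ : w + lam ≤ J) (hJ' : w' + lam ≤ J)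
    {i0 : Fin m} {z : F.Ω → Fin m → ℝ} {b δ : ℝ} (hb : 0 ≤ b)
    (hz : ∀ ω, 0 < F.p ω → ∀ i, |z ω i| ≤ b)
    (hv : CH F.p (fun ω => (z ω, F.pvl lam i0 z ω)) (K2S.Fam.pt F) ≤ δ) :
    CH F.p (fun ω => (F.plab w' lam i0 z ω, F.plab w lam i0 z ω)) (K2S.Fam.pt F) ≤
      δ + 2 * (m * Real.log (2 * b + 7)) := by
  have h0 := F.isLaw.nonneg
  have h1 := CH_le_add h0 (fun ω => (F.plab w' lam i0 z ω, F.plab w lam i0 z ω))
    (fun ω => (z ω, F.pvl lam i0 z ω)) (K2S.Fam.pt F)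
  have h2 : CH F.p (fun ω => (F.plab w' lam i0 z ω, F.plab w lam i0 z ω))
      (fun ω => ((z ω, F.pvl lam i0 z ω), K2S.Fam.pt F ω)) ≤
      CH F.p (fun ω => (F.pcl w' lam i0 z ω, F.pcl w lam i0 z ω))
        (fun ω => ((z ω, F.pvl lam i0 z ω), K2S.Fam.pt F ω)) := by
    refine CH_mono_left h0 fun ω ω' _ _ hh => ?_
    have a1 := Prod.ext_iff.mp hh
    have a2 := Prod.ext_iff.mp a1.1
    have a3 := Prod.ext_iff.mp a1.2
    have a4 := Prod.ext_iff.mp a3.1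
    simp only at a2 a4
    have a5 : F.X J ω = F.X J ω' ∧ F.W ω = F.W ω' := Prod.ext_iff.mp a3.2
    have a6 := Prod.ext_iff.mp a5.2
    have a7 : ∀ v, F.T1 v ω = F.T1 v ω' := fun v => by
      unfold Fam.T1
      rw [show F.T ω = F.T ω' from a6.1]
    have a8 : F.Z ω = F.Z ω' := a6.2
    unfold Fam.plab
    rw [a7, a7, a4.1, a4.2, a2.1, a2.2, a8]
  have h3 := CH_subadd h0 (F.pcl w' lam i0 z) (F.pcl w lam i0 z)
    (fun ω => ((z ω, F.pvl lam i0 z ω), K2S.Fam.pt F ω))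
  have h4 := pcl_vis F hJ (i0 := i0) hb hz
  have h5 := pcl_vis F hJ' (i0 := i0) hb hz
  linarith only [hv, h1, h2, h3, h4, h5]

/-! ### Conditioning on an event -/

theorem cond_ev {Ω : Type} [Fintype Ω] (p : Ω → ℝ) (A : Ω → Prop) [DecidablePred A] (ω : Ω) :
    cond p A True ω = if A ω then p ω / Pe p A else 0 := by
  classical
  unfold Pool.Agent.H49.Ent.cond
  by_cases h : A ω
  · rw [if_pos (eq_true h), if_pos h]
  · rw [if_neg (fun h' => h (of_eq_true h')), if_neg h]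

theorem cond_and {Ω : Type} [Fintype Ω] (p : Ω → ℝ) {A B : Ω → Prop} (hA : Pe p A ≠ 0) :
    cond (cond p A True) B True = cond p (fun ω => A ω ∧ B ω) True := by
  classical
  funext ω
  rw [cond_ev, cond_ev, cond_ev, Pe_cond B]
  by_cases h1 : A ω
  · by_cases h2 : B ω
    · rw [if_pos h2, if_pos h1, if_pos (⟨h1, h2⟩ : A ω ∧ B ω), div_div_div_cancel_right₀ hA]
    · rw [if_neg h2, if_neg (fun h : A ω ∧ B ω => h2 h.2)]
  · rw [if_neg h1, if_neg (fun h : A ω ∧ B ω => h1 h.1), zero_div]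
    split_ifs <;> rfl

theorem cond_univ {Ω : Type} [Fintype Ω] {p : Ω → ℝ} (hp : IsLaw p) :
    cond p (fun _ => True) True = p := by
  classical
  funext ω
  rw [cond_ev, if_pos trivial, Pe_univ hp, div_one]

/-- Stability in the restricted family. -/
theorem Stb.res {Ω : Type} [Fintype Ω] {p : Ω → ℝ} (hp : IsLaw p) {κ : ℝ} {A : Ω → Prop}
    (hA : 0 < Pe p A) {Q : (Ω → Prop) → Prop} (hQ : Hered Q) (hs : Stb p κ A Q) (hn : ¬ Q A) :
    Stb (cond p A True) κ (fun _ => True) Q ∧ ¬ Q (fun _ => True) := by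
  refine ⟨Or.inr fun B _ hP hB => ?_, fun h => hn (hQ _ _ (fun _ _ => trivial) h)⟩
  have h1 : Real.exp (-κ) * Pe p A ≤ Pe p (fun ω => A ω ∧ B ω) := by
    rw [Pe_univ (isLaw_cond hp hA), mul_one, Pe_cond, le_div_iff₀ hA] at hP
    exact hP
  rcases hs with hs | hs
  · exact hn hs
  · exact hs (fun ω => A ω ∧ B ω) (fun ω h => h.1) h1 (hQ _ _ (fun ω h => h.2) hB)

/-! ### The tail of the zoom -/

/-- **The tail of a plank zoom.** -/
theorem zm_tail {m : ℕ} {a η b : ℝ} (ha : 1 ≤ a) (hη : 0 < η) (hb : 0 ≤ b) : ∃ γ : ℝ, 0 < γ ∧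
    ∀ R δ κ : ℝ, 0 < κ → ∃ τ > 0, ∃ J₁ : ℕ, ∀ J ≥ J₁, ∀ (F : Fam m J) (A : F.Ω → Prop),
    Fam.Stt F a R τ A → ∀ (i₀ : Fin m) (w lam J' x1 : ℕ) (z : F.Ω → Fin m → ℝ)
      (h : J' ≤ J - w), w + J' + lam ≤ J → (x1 : ℝ) ≤ γ * J →
    Stb F.p (κ * J) A (FrzG F i₀ 0 (0 + x1)) → ¬ FrzG F i₀ 0 (0 + x1) A →
    (∀ ω ω', A ω → A ω' → 0 < F.p ω → 0 < F.p ω' → wnd F w ω = wnd F w ω' → z ω = z ω') →
    (∀ ω, A ω → 0 < F.p ω → ∀ i, |z ω i| ≤ b) →
    (∀ B : F.Ω → Prop, Sub B A → 0 < Pe F.p B →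
      CH (cond F.p B True) (fun ω => (z ω, F.pvl lam i₀ z ω)) (K2S.Fam.pt F) ≤ δ) →
    ∀ P ≤ J', CH (cond F.p A True) ((((F.box w (Box.plkC lam i₀) z).trc J' h).rnd).X J')
        (fun ω => ((((F.box w (Box.plkC lam i₀) z).trc J' h).rnd).X P ω,
          (((F.box w (Box.plkC lam i₀) z).trc J' h).rnd).W ω)) ≤
      CH (cond F.p A True) (F.X (w + J' + lam)) (fun ω => (F.X (w + P + lam) ω, F.W ω)) +
        η * J := by
  have hl2 : 0 < Real.log 2 := Real.log_pos one_lt_two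
  obtain ⟨γ, hγ, hws⟩ := ws_full (m := m) ha (by positivity : 0 < η / 4)
  refine ⟨γ, hγ, fun R δ κ hκ => ?_⟩
  obtain ⟨τ₀, hτ₀, J₀, hmain⟩ := hws R (δ + 2 * (m * Real.log (2 * b + 7))) κ hκ
  obtain ⟨τ, hτ⟩ : ∃ τ, τ = min τ₀ (η / 4) / (6 * (1 + a)) := ⟨_, rfl⟩
  have hmin : 0 < min τ₀ (η / 4) := lt_min hτ₀ (by positivity)
  have hτ0 : 0 < τ := by rw [hτ]; positivity
  have hτ1 : (1 + a) * (5 * τ + τ) = min τ₀ (η / 4) := by
    rw [hτ]
    field_simp
    ring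
  obtain ⟨Cs, hCs⟩ : ∃ Cs : ℝ, Cs = 2 * (m * Real.log 17) +
    (2 * (m * Real.log (2 * b + 5)) + 3 * (m * Real.log 3)) := ⟨_, rfl⟩
  obtain ⟨J₂, hJ₂⟩ := exists_nat_gt (4 * |Cs| / η)
  refine ⟨τ, hτ0, max J₀ J₂, fun J hJ F A hS i₀ w lam J' x1 z h hwJ hx1 hFs hFn hzw hzb hvis
    P hP => ?_⟩
  have hJ0 : J₀ ≤ J := (le_max_left _ _).trans hJ
  have hJ2 : 4 * |Cs| / η < J := hJ₂.trans_le (by exact_mod_cast (le_max_right _ _).trans hJ)
  have hJr : (0 : ℝ) ≤ J := Nat.cast_nonneg J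
  have hp := F.isLaw
  have hA0 : 0 < Pe F.p A := lt_of_lt_of_le (Real.exp_pos _) hS.2.2.2
  obtain ⟨hl, r1, r2, r3⟩ := max_res F ha hτ0.le hτ0.le hS.1 hS.2.1 hS.2.2.1 A hS.2.2.2
  rw [hτ1] at r2
  obtain ⟨F', hF'⟩ : ∃ F' : Fam m J, F' = F.res A True hl := ⟨_, rfl⟩
  have hpos : ∀ ω, 0 < cond F.p A True ω → A ω ∧ 0 < F.p ω := fun ω hω => by
    have h1 := (cond_pos_iff hp.nonneg A True ω).1 hω
    exact ⟨of_eq_true h1.2, h1.1⟩
  -- the restricted family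
  have hStt : Fam.Stt (F.res A True hl) a R τ₀ (fun _ => True) := by
    refine ⟨r1, ?_, ?_, ?_⟩
    · have h1 : min τ₀ (η / 4) * (J : ℝ) ≤ τ₀ * J :=
        mul_le_mul_of_nonneg_right (min_le_left _ _) hJr
      obtain ⟨g1, g2⟩ := r2
      refine ⟨?_, ?_⟩
      · unfold Fam.Tm at g1 ⊢
        linarith only [hl, h1, g1]
      · have h2 : (R - τ₀) * (J : ℝ) ≤ (R - min τ₀ (η / 4)) * J := by nlinarith only [h1]
        exact h2.trans g2
    · have h1 : (τ + τ) * (J : ℝ) ≤ τ₀ * J := by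
        refine mul_le_mul_of_nonneg_right ?_ hJr
        have h2 : min τ₀ (η / 4) ≤ τ₀ := min_le_left _ _
        rw [← hτ1] at h2
        nlinarith only [hτ0, h2, ha]
      obtain ⟨⟨a1, b1⟩, ⟨a2, b2⟩, ⟨a3, b3⟩, ⟨a4, b4⟩, ⟨a5, b5⟩⟩ := r3
      exact ⟨⟨a1, rg_mono h1 b1⟩, ⟨a2, rg_mono h1 b2⟩, ⟨a3, rg_mono h1 b3⟩, ⟨a4, rg_mono h1 b4⟩,
        ⟨a5, rg_mono h1 b5⟩⟩
    · have h1 : Pe (F.res A True hl).p (fun _ => True) = 1 := Pe_univ hl
      rw [h1]
      exact Real.exp_le_one_iff.2 (by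
        have : 0 ≤ τ₀ * (J : ℝ) := by positivity
        linarith only [this])
  have hzw' : Det (F.res A True hl).p (wnd (F.res A True hl) w) z := by
    intro ω ω' hω hω' hh
    have h1 := hpos ω hω
    have h2 := hpos ω' hω'
    exact hzw ω ω' h1.1 h2.1 h1.2 h2.2 hh
  have hzb' : ∀ ω, 0 < (F.res A True hl).p ω → ∀ i, |z ω i| ≤ b := fun ω hω =>
    hzb ω (hpos ω hω).1 (hpos ω hω).2
  have hTm : (F.res A True hl).Tm (η / 4 * J) := by
    have h1 := r2.1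
    unfold Fam.Tm at h1 ⊢
    have h2 : min τ₀ (η / 4) * (J : ℝ) ≤ η / 4 * J :=
      mul_le_mul_of_nonneg_right (min_le_right _ _) hJr
    linarith only [hl, h1, h2]
  obtain ⟨s1, s2⟩ := Stb.res hp hA0 (FrzG.hered F i₀ 0 (0 + x1)) hFs hFn
  -- the rows of the chart coordinate
  have hrow := hmain J hJ0 (F.res A True hl) (fun _ => True) hStt i₀ (w + J') 0 lam x1 _
    (fun ω => ((F.res A True hl).plab (w + J') lam i₀ z ω, (F.res A True hl).plab w lam i₀ z ω))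
    (by omega) hx1 s1 s2 (by
      intro ω ω' hω hω' hh
      have a1 := Prod.ext_iff.mp hh
      have a2 := Prod.ext_iff.mp a1.2
      have a0 : (F.res A True hl).l ω = (F.res A True hl).l ω' := a1.1
      have a3 : (F.res A True hl).T1 (w + J') ω = (F.res A True hl).T1 (w + J') ω' := a2.1
      have aZ : (F.res A True hl).Z ω = (F.res A True hl).Z ω' := a2.2
      have a4 : (F.res A True hl).T1 w ω = (F.res A True hl).T1 w ω' := by
        rw [Pool.KSAT.T1_div _ (by omega : w + J' ≤ J) ω,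
          Pool.KSAT.T1_div _ (by omega : w + J' ≤ J) ω', a3]
      have a5 := hzw' ω ω' hω hω' (Prod.ext a0 (Prod.ext a4 aZ))
      exact Prod.ext (plab_det _ a0 a3 a5 aZ).1 (plab_det _ a0 a4 a5 aZ).1)
    (by
      intro B hB hB0
      have hB1 : cond (F.res A True hl).p B True = cond F.p (fun ω => A ω ∧ B ω) True :=
        cond_and F.p hA0.ne'
      have hlB : IsLaw (cond (F.res A True hl).p B True) := isLaw_cond hl hB0
      have hPB : 0 < Pe F.p (fun ω => A ω ∧ B ω) := by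
        have h1 : Pe (F.res A True hl).p B = Pe F.p (fun ω => A ω ∧ B ω) / Pe F.p A := Pe_cond B
        rw [h1] at hB0
        by_contra hcon
        push Not at hcon
        have := div_nonpos_of_nonpos_of_nonneg hcon hA0.le
        linarith only [hB0, this]
      have h2 := hvis (fun ω => A ω ∧ B ω) (fun ω hω => hω.1) hPB
      rw [← hB1] at h2
      have key := plab_vis ((F.res A True hl).res B True hlB) (w := w) (w' := w + J')
        (lam := lam) (by omega) (by omega) (i0 := i₀) (z := z) hb (fun ω hω => by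
          have h3 := (cond_pos_iff hl.nonneg B True ω).1 hω
          exact hzb' ω h3.1) h2
      refine le_trans (CH_mono_cond hlB.nonneg fun ω ω' _ _ hh => ?_) key
      exact (Prod.ext_iff.mp hh).1)
  have e1 : cond (F.res A True hl).p (fun _ => True) True = (F.res A True hl).p := cond_univ hl
  rw [e1] at hrow
  have e2 : 0 + (w + J') + lam = w + J' + lam := by omega
  rw [e2] at hrow
  have hrow' : lam * Real.log 2 - η / 4 * J ≤ CH (F.res A True hl).p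
      (fun ω => ⌊(2 : ℝ) ^ (w + J' + lam) * (F.res A True hl).x ω i₀⌋)
      (fun ω => ((F.res A True hl).T ω, ((F.res A True hl).plab (w + J') lam i₀ z ω,
        (F.res A True hl).plab w lam i₀ z ω))) := by
    refine hrow.trans (CH_mono_cond hl.nonneg fun ω ω' _ _ hh => ?_)
    have a1 := Prod.ext_iff.mp hh
    have a2 := Prod.ext_iff.mp a1.2
    exact Prod.ext a1.1 (Prod.ext_iff.mp a2.2).1
  -- the three steps
  have t1 := rnd_time (F.res A True hl) (w := w) (J' := J') (P := P) (by omega)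
    (Box.plkC lam i₀) z hzw' hTm h
  have t2 := rnd_row ((F.res A True hl).box w (Box.plkC lam i₀) z) h hP
    (fun ω => ((F.res A True hl).T ω, (F.res A True hl).blab w (Box.plkC lam i₀) z ω))
  have t3 := plk_rows (F.res A True hl) hwJ hP hb hzb' hrow'
  have hCJ : Cs ≤ η / 4 * J := by
    rw [div_lt_iff₀ hη] at hJ2
    have := le_abs_self Cs
    linarith only [hJ2, this]
  obtain ⟨q, hq⟩ : ∃ q, q = CH (cond F.p A True) (F.X (w + J' + lam))
    (fun ω => (F.X (w + P + lam) ω, F.W ω)) := ⟨_, rfl⟩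
  rw [← hq]
  have t4 : CH (cond F.p A True) ((((F.box w (Box.plkC lam i₀) z).trc J' h).rnd).X J')
        (fun ω => ((((F.box w (Box.plkC lam i₀) z).trc J' h).rnd).X P ω,
          (((F.box w (Box.plkC lam i₀) z).trc J' h).rnd).W ω)) ≤
      q + η / 4 * J + (2 * (m * Real.log (2 * b + 5)) + 3 * (m * Real.log 3)) +
        2 * (m * Real.log 17) + η / 4 * J := by
    rw [hq]
    exact t1.trans (add_le_add (t2.trans (add_le_add t3 le_rfl)) le_rfl)
  have t5 : 0 ≤ η * (J : ℝ) := by positivity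
  refine t4.trans ?_
  rw [hCs] at hCJ
  linarith only [hCJ, t5]

/-- The frame and the cell of the velocity are visible, if the frame is a function of the point and
the velocity in plank coordinates is known up to `c` at the point. -/
theorem zp_vis (F : Fam m J) {lam : ℕ} {i0 : Fin m} {z : F.Ω → Fin m → ℝ} {c : ℝ}
    (hg : ∀ ω ω', 0 < F.p ω → 0 < F.p ω' → K2S.Fam.pt F ω = K2S.Fam.pt F ω' → z ω = z ω')
    (hd : ∀ ω ω', 0 < F.p ω → 0 < F.p ω' → K2S.Fam.pt F ω = K2S.Fam.pt F ω' →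
      ∀ i, |pco lam i0 (z ω) (F.d ω) i - pco lam i0 (z ω) (F.d ω') i| ≤ c) :
    CH F.p (fun ω => (z ω, F.pvl lam i0 z ω)) (K2S.Fam.pt F) ≤ m * Real.log (2 * c + 3) := by
  have h0 := F.isLaw.nonneg
  have key := ENP.CH_fl F.isLaw 0 (fun ω => pco lam i0 (z ω) (F.d ω)) (K2S.Fam.pt F) c
    (fun ω ω' hω hω' hh i => by
      rw [pow_zero, div_one, ← hg ω ω' hω hω' hh]
      exact hd ω ω' hω hω' hh i)
  refine le_trans (CH_mono_left h0 fun ω ω' hω hω' hh => ?_) key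
  have a1 := Prod.ext_iff.mp hh
  exact Prod.ext (hg ω ω' hω hω' a1.2) a1.1

/-- **The tail of a plank zoom**, for the events of the zoomed family. -/
theorem zm_tail_res {m : ℕ} {a η b : ℝ} (ha : 1 ≤ a) (hη : 0 < η) (hb : 0 ≤ b) :
    ∃ γ : ℝ, 0 < γ ∧ ∀ R δ κ : ℝ, 0 < κ → ∃ τ > 0, ∃ J₁ : ℕ, ∀ J ≥ J₁, ∀ (F : Fam m J)
    (A : F.Ω → Prop), Fam.Stt F a R τ A → ∀ (i₀ : Fin m) (w lam J' x1 : ℕ)
      (z : F.Ω → Fin m → ℝ) (h : J' ≤ J - w), w + J' + lam ≤ J → (x1 : ℝ) ≤ γ * J →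
    Stb F.p (κ * J) A (FrzG F i₀ 0 (0 + x1)) → ¬ FrzG F i₀ 0 (0 + x1) A →
    (∀ ω ω', A ω → A ω' → 0 < F.p ω → 0 < F.p ω' → wnd F w ω = wnd F w ω' → z ω = z ω') →
    (∀ ω, A ω → 0 < F.p ω → ∀ i, |z ω i| ≤ b) →
    (∀ B : F.Ω → Prop, Sub B A → 0 < Pe F.p B →
      CH (cond F.p B True) (fun ω => (z ω, F.pvl lam i₀ z ω)) (K2S.Fam.pt F) ≤ δ) →
    ∀ (hA : IsLaw (cond F.p A True)) (B : F.Ω → Prop),
      Real.exp (-(τ * J)) ≤ Pe (cond F.p A True) B →
    ∀ P ≤ J', CH (cond (cond F.p A True) B True)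
        (((((F.res A True hA).box w (Box.plkC lam i₀) z).trc J' h).rnd).X J')
        (fun ω => (((((F.res A True hA).box w (Box.plkC lam i₀) z).trc J' h).rnd).X P ω,
          ((((F.res A True hA).box w (Box.plkC lam i₀) z).trc J' h).rnd).W ω)) ≤
      CH (cond (cond F.p A True) B True) (F.X (w + J' + lam))
        (fun ω => (F.X (w + P + lam) ω, F.W ω)) + η * J := by
  obtain ⟨γ, hγ, hz⟩ := zm_tail (m := m) ha hη hb
  refine ⟨γ, hγ, fun R δ κ hκ => ?_⟩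
  obtain ⟨τ₁, hτ₁, J₁, hmain⟩ := hz R δ (κ / 2) (by positivity)
  obtain ⟨τ, hτ⟩ : ∃ τ, τ = min (τ₁ / 2) (κ / 2) := ⟨_, rfl⟩
  have hτ0 : 0 < τ := by rw [hτ]; exact lt_min (by positivity) (by positivity)
  have hτ1 : τ ≤ τ₁ / 2 := by rw [hτ]; exact min_le_left _ _
  have hτ2 : τ ≤ κ / 2 := by rw [hτ]; exact min_le_right _ _
  refine ⟨τ, hτ0, J₁, fun J hJ F A hS i₀ w lam J' x1 z h hwJ hx1 hFs hFn hzw hzb hvis hA B hB
    P hP => ?_⟩
  have hJr : (0 : ℝ) ≤ J := Nat.cast_nonneg J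
  have hA0 : 0 < Pe F.p A := lt_of_lt_of_le (Real.exp_pos _) hS.2.2.2
  rw [cond_and F.p hA0.ne']
  have hAB : Real.exp (-(τ * J)) * Pe F.p A ≤ Pe F.p (fun ω => A ω ∧ B ω) := by
    rw [Pe_cond, le_div_iff₀ hA0] at hB
    exact hB
  have hS' : Fam.Stt F a R τ₁ (fun ω => A ω ∧ B ω) := by
    have h1 := Fam.Stt.mono (by linarith only [hτ0, hτ1] : τ ≤ τ₁) hS
    refine ⟨h1.1, h1.2.1, h1.2.2.1, le_trans ?_ hAB⟩
    refine le_trans ?_ (mul_le_mul_of_nonneg_left hS.2.2.2 (Real.exp_pos _).le)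
    rw [← Real.exp_add]
    refine Real.exp_le_exp.2 ?_
    have := mul_le_mul_of_nonneg_right hτ1 hJr
    linarith only [this]
  have hsub : Sub (fun ω => A ω ∧ B ω) A := fun ω hω => hω.1
  have hFn' : ¬ FrzG F i₀ 0 (0 + x1) (fun ω => A ω ∧ B ω) := by
    rcases hFs with h1 | h1
    · exact absurd h1 hFn
    · refine h1 _ hsub (le_trans (mul_le_mul_of_nonneg_right (Real.exp_le_exp.2 ?_) hA0.le) hAB)
      have := mul_le_mul_of_nonneg_right hτ2 hJr
      have : 0 ≤ κ * (J : ℝ) := by positivity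
      linarith
  have hFs' : Stb F.p (κ / 2 * J) (fun ω => A ω ∧ B ω) (FrzG F i₀ 0 (0 + x1)) := by
    refine Stb.mono F.isLaw ?_ (hFs.sub (FrzG.hered F i₀ 0 (0 + x1)) hsub hAB)
    have := mul_le_mul_of_nonneg_right hτ2 hJr
    linarith only [this]
  exact hmain J hJ F (fun ω => A ω ∧ B ω) hS' i₀ w lam J' x1 z h hwJ hx1 hFs' hFn'
    (fun ω ω' h1 h2 => hzw ω ω' h1.1 h2.1) (fun ω h1 => hzb ω h1.1)
    (fun B' hB' hP' => hvis B' (hB'.trans hsub) hP') P hP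

end Pool.ZCL
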