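import Pool.Agent.H35.ZCL.Az
import Pool.Agent.H89.ZCL.Tail

/-!
# The tail of the A-zoom

`az_R`: the tail bound of the A-zoom for all large events, for stable maximal families. The
velocity of the chart coordinate is not frozen at the exact points, since the fans are not thin.
-/

set_option autoImplicit false

namespace Pool.ZCL

open Finset Real
open Pool.Agent.H49.Ent Pool.Agent.H32.Dense Pool.STK Pool.KA Pool.KSAT Pool.K2S Pool.PB
open Pool.S6K (exact_label ball_claim)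

variable {m J : ℕ}

/-- If the chart coordinate of the velocity is frozen, the fans are thin. -/
theorem frz_ball {F : Fam m J} {i₀ : Fin m} {x1 h q : ℕ} {B : F.Ω → Prop}
    (hF : FrzG F i₀ 0 x1 B) (hL : LineAt i₀ (1 / 2 ^ h) (Fam.pt F) F.d B) (hq : q + 1 ≤ x1)
    (hq' : q + 1 ≤ h) : ∃ B' : F.Ω → Prop, Sub B' B ∧ Pe F.p B ≤ 5 * Pe F.p B' ∧
      Ball (1 / 2 ^ q) (Fam.pt F) F.d B' := by
  classical
  have hp := F.isLaw
  obtain ⟨ζ, hζ⟩ := hF
  obtain ⟨e, n, hen⟩ := hL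
  obtain ⟨B', hB', hP, φ, hφ⟩ := exact_label hp 2 (Fam.pt F)
    (fun ω (_ : Fin 1) => ⌊(2 : ℝ) ^ 0 * F.d ω i₀⌋) B (by
      intro ω ω' _ _ _ i
      have key : ∀ ω, -1 ≤ ⌊(2 : ℝ) ^ 0 * F.d ω i₀⌋ ∧ ⌊(2 : ℝ) ^ 0 * F.d ω i₀⌋ ≤ 1 := by
        intro ω
        rw [pow_zero, one_mul]
        have h1 := abs_le.1 (F.dir ω i₀)
        refine ⟨Int.le_floor.2 (by push_cast; exact h1.1), ?_⟩
        have : ((⌊F.d ω i₀⌋ : ℤ) : ℝ) ≤ 1 := (Int.floor_le _).trans h1.2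
        exact_mod_cast this
      have h1 := key ω
      have h2 := key ω'
      rw [abs_le]
      push_cast
      constructor <;> omega)
  refine ⟨B', hB', ?_, ?_⟩
  · have e1 : (2 * ((2 : ℕ) : ℝ) + 1) ^ 1 = 5 := by norm_num
    rw [e1] at hP
    exact hP
  · refine ⟨fun y j => e y j * ζ (y, φ y 0) + n y j, fun ω hω j => ?_⟩
    have h1 := hζ ω (hB' ω hω)
    have h2 := hen.line ω (hB' ω hω) j
    have h3 := hen.bound ω (hB' ω hω) j
    have h4 : K2S.ptq F i₀ 0 ω = (Fam.pt F ω, φ (Fam.pt F ω) 0) :=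
      Prod.ext rfl (congrFun (hφ ω hω) 0)
    rw [h4] at h1
    simp only at h1 ⊢
    obtain ⟨v, hv⟩ : ∃ v, v = ζ (Fam.pt F ω, φ (Fam.pt F ω) 0) := ⟨_, rfl⟩
    rw [← hv] at h1 ⊢
    have e1 : F.d ω j - (e (Fam.pt F ω) j * v + n (Fam.pt F ω) j) =
        (F.d ω j - e (Fam.pt F ω) j * F.d ω i₀ - n (Fam.pt F ω) j) +
        e (Fam.pt F ω) j * (F.d ω i₀ - v) := by ring
    rw [e1]
    have h5 : |e (Fam.pt F ω) j * (F.d ω i₀ - v)| ≤ 1 / 2 ^ x1 := by
      rw [abs_mul]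
      calc _ ≤ 1 * (1 / 2 ^ x1) := mul_le_mul h3 h1 (abs_nonneg _) zero_le_one
        _ = 1 / 2 ^ x1 := one_mul _
    have h6 : (1 : ℝ) / 2 ^ x1 ≤ 1 / 2 ^ (q + 1) :=
      one_div_le_one_div_of_le (by positivity) (pow_le_pow_right₀ one_le_two hq)
    have h7 : (1 : ℝ) / 2 ^ h ≤ 1 / 2 ^ (q + 1) :=
      one_div_le_one_div_of_le (by positivity) (pow_le_pow_right₀ one_le_two hq')
    have h8 : (1 : ℝ) / 2 ^ q = 1 / 2 ^ (q + 1) + 1 / 2 ^ (q + 1) := by
      rw [pow_succ]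
      field_simp
      norm_num
    rw [h8]
    exact (abs_add_le _ _).trans (add_le_add (h2.trans h7) (h5.trans h6))

/-- **The tail of the A-zoom.** -/
theorem az_R {m : ℕ} {a R h₁ : ℝ} (ha : 1 ≤ a) (hR : 0 < R) (hU : UBa m a R) (hh₁ : 0 < h₁)
    (i₀ : Fin m) {e : ℝ} (he : 0 < e) : ∃ τ > 0, ∃ J₁ : ℕ, ∀ J ≥ J₁, ∀ (F : Fam m J)
    (A : F.Ω → Prop), Fam.Stt F a R τ A → Lb F i₀ ⌊h₁ * J⌋₊ A → ∀ (r w lam J' : ℕ)
    (z : F.Ω → Fin m → ℝ) (h : w + J' ≤ J), w + J' + lam ≤ r → r ≤ J → AzF F i₀ r lam w A z →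
    ∀ (hA : IsLaw (cond F.p A True)) (B : F.Ω → Prop),
      Real.exp (-(τ * J)) ≤ Pe (cond F.p A True) B → ∀ P ≤ J',
    CH (cond (cond F.p A True) B True) (((F.res A True hA).zm w J' h (Box.plkC lam i₀) z).X J')
        (fun ω => (((F.res A True hA).zm w J' h (Box.plkC lam i₀) z).X P ω,
          ((F.res A True hA).zm w J' h (Box.plkC lam i₀) z).W ω)) ≤
      CH (cond (cond F.p A True) B True) (F.X (w + J' + lam))
        (fun ω => (F.X (w + P + lam) ω, F.W ω)) + e * J := by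
  obtain ⟨γ, hγ, hz⟩ := zm_tail_res (m := m) (b := 4) ha he (by norm_num)
  obtain ⟨g, hg⟩ : ∃ g, g = min (min γ 1) h₁ := ⟨_, rfl⟩
  have hg0 : 0 < g := by rw [hg]; exact lt_min (lt_min hγ one_pos) hh₁
  have hgγ : g ≤ γ := by rw [hg]; exact (min_le_left _ _).trans (min_le_left _ _)
  have hg1 : g ≤ 1 := by rw [hg]; exact (min_le_left _ _).trans (min_le_right _ _)
  have hgh : g ≤ h₁ := by rw [hg]; exact min_le_right _ _
  obtain ⟨τb, hτb, Jb, hball⟩ := ball_claim ha hR hU (by positivity : 0 < g / 2)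
  obtain ⟨τ₁, hτ₁, J₁, hmain⟩ := hz R (m * Real.log (2 * 6 + 3)) (τb / 2) (by positivity)
  obtain ⟨τ, hτ⟩ : ∃ τ, τ = min τ₁ (τb / 4) := ⟨_, rfl⟩
  have hτ0 : 0 < τ := by rw [hτ]; exact lt_min hτ₁ (by positivity)
  have hττ₁ : τ ≤ τ₁ := by rw [hτ]; exact min_le_left _ _
  have hττb : τ ≤ τb / 4 := by rw [hτ]; exact min_le_right _ _
  obtain ⟨J₂, hJ₂⟩ := exists_nat_gt (4 / g + 4 * Real.log 5 / τb + 1)
  refine ⟨τ, hτ0, max J₁ (max Jb J₂), fun J hJ F A hS hLb r w lam J' z h hr hrJ haz hA B hB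
    P hP => ?_⟩
  have hJ1 : J₁ ≤ J := (le_max_left _ _).trans hJ
  have hJb : Jb ≤ J := (le_max_left _ _).trans ((le_max_right _ _).trans hJ)
  have hJ2 : 4 / g + 4 * Real.log 5 / τb + 1 < J :=
    hJ₂.trans_le (by exact_mod_cast (le_max_right _ _).trans ((le_max_right _ _).trans hJ))
  have hJr : (0 : ℝ) ≤ J := Nat.cast_nonneg J
  have hl5 : 0 < Real.log 5 := Real.log_pos (by norm_num)
  have q1 : 0 < 4 / g := by positivity
  have q2 : 0 < 4 * Real.log 5 / τb := by positivity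
  have r1 : 4 ≤ g * J := by
    have h1 : 4 / g < J := by linarith
    rw [div_lt_iff₀ hg0] at h1
    linarith
  have r2 : Real.log 5 ≤ τb / 4 * J := by
    have h1 : 4 * Real.log 5 / τb < J := by linarith
    rw [div_lt_iff₀ hτb] at h1
    linarith
  -- the scales
  obtain ⟨x1, hx1⟩ : ∃ x1, x1 = ⌊g * J⌋₊ := ⟨_, rfl⟩
  have hx1a : (x1 : ℝ) ≤ g * J := by rw [hx1]; exact Nat.floor_le (by positivity)
  have hx1b : g * J < x1 + 1 := by rw [hx1]; exact Nat.lt_floor_add_one _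
  have hx1c : 1 ≤ x1 := by
    have : (0 : ℝ) < x1 := by linarith
    exact_mod_cast this
  have hx1h : x1 ≤ ⌊h₁ * J⌋₊ := by
    rw [hx1]
    exact Nat.floor_le_floor (mul_le_mul_of_nonneg_right hgh hJr)
  have hx1J : x1 ≤ J := by
    have : (x1 : ℝ) ≤ J := hx1a.trans (by nlinarith)
    exact_mod_cast this
  obtain ⟨q, hq⟩ : ∃ q, q + 1 = x1 := ⟨x1 - 1, by omega⟩
  have hqr : (q : ℝ) + 1 = x1 := by exact_mod_cast hq
  have hqx : g / 2 * J ≤ q := by linarith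
  have hA0 : 0 < Pe F.p A := lt_of_lt_of_le (Real.exp_pos _) hS.2.2.2
  have hS1 := Fam.Stt.mono (by linarith : τ ≤ τb) hS
  -- the velocity is not frozen
  have hnf : ∀ B : F.Ω → Prop, Sub B A → Real.exp (-(τb / 2 * J)) * Pe F.p A ≤ Pe F.p B →
      ¬ FrzG F i₀ 0 (0 + x1) B := by
    intro B hBA hPB hF
    rw [Nat.zero_add] at hF
    obtain ⟨B', hB', hPB', hball'⟩ := frz_ball (q := q) (h := ⌊h₁ * J⌋₊) hF
      (LineAt.hered _ _ _ _ A B hBA hLb) (by omega) (by omega)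
    refine hball J hJb F B' ⟨hS1.1, hS1.2.1, hS1.2.2.1, ?_⟩ q (by omega) hqx hball'
    have h1 : Real.exp (-(τb * J)) * 5 ≤ Pe F.p B := by
      refine le_trans ?_ hPB
      refine le_trans ?_ (mul_le_mul_of_nonneg_left hS.2.2.2 (Real.exp_pos _).le)
      have h2 : (5 : ℝ) = Real.exp (Real.log 5) := by rw [Real.exp_log (by norm_num)]
      rw [← Real.exp_add]
      calc Real.exp (-(τb * J)) * 5 = Real.exp (-(τb * J)) * Real.exp (Real.log 5) := by
            rw [← h2]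
        _ = Real.exp (-(τb * J) + Real.log 5) := by rw [← Real.exp_add]
        _ ≤ _ := Real.exp_le_exp.2 (by
            have h3 := mul_le_mul_of_nonneg_right hττb hJr
            linarith)
    linarith
  refine hmain J hJ1 F A (Fam.Stt.mono hττ₁ hS) i₀ w lam J' x1 z (by omega) (by omega)
    (hx1a.trans (mul_le_mul_of_nonneg_right hgγ hJr)) (Or.inr hnf) (hnf A (fun ω hω => hω) ?_)
    ?_ ?_ ?_ hA B ?_ P hP
  · have h1 : Real.exp (-(τb / 2 * J)) ≤ 1 := Real.exp_le_one_iff.2 (by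
      have : 0 ≤ τb / 2 * (J : ℝ) := by positivity
      linarith)
    nlinarith
  · intro ω ω' _ _ _ _ hw
    refine haz.win ω ω' ?_
    have a1 := Prod.ext_iff.1 hw
    have a2 := Prod.ext_iff.1 a1.2
    exact Prod.ext a1.1 (Prod.ext a2.2 a2.1)
  · exact fun ω hω _ i => haz.bd ω hω i
  · intro B' hB' hPB'
    obtain ⟨c, hc⟩ := haz.vis
    obtain ⟨φ, hφ'⟩ := ptr_coarse F hrJ
    have hφ : ∀ ω, ptr F r ω = φ (Fam.pt F ω) := hφ'
    have hl := isLaw_cond F.isLaw hPB'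
    have hin : ∀ ω, 0 < cond F.p B' True ω → A ω := fun ω hω =>
      hB' ω (of_eq_true ((cond_pos_iff F.isLaw.nonneg B' True ω).1 hω).2)
    have hzz : ∀ ω ω', 0 < cond F.p B' True ω → 0 < cond F.p B' True ω' →
        Fam.pt F ω = Fam.pt F ω' → z ω = z ω' := by
      intro ω ω' hω hω' hpt
      rw [hc ω (hin ω hω), hc ω' (hin ω' hω'), hφ ω, hφ ω', hpt]
    refine zp_vis (F.res B' True hl) (lam := lam) (i0 := i₀) (z := z) (c := 6) hzz ?_
    intro ω ω' hω hω' hpt i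
    have h1 := haz.vel (hin ω hω) (hin ω' hω') (by rw [hφ ω, hφ ω']; exact congrArg φ hpt) i
    rw [← hzz ω ω' hω hω' hpt] at h1
    exact h1
  · refine le_trans (Real.exp_le_exp.2 ?_) hB
    have := mul_le_mul_of_nonneg_right hττ₁ hJr
    linarith

end Pool.ZCL
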