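import Pool.Agent.H89.ZCL.ChsTls

set_option autoImplicit false

namespace Pool.PB

open Finset Real
open Pool.Agent.H49.Ent Pool.Agent.H32.Dense Pool.STK Pool.KA Pool.KSAT Pool.K2S

/-- The fans at exact points are flat, for a class with a tail which is not full. -/
theorem lin_cls (k : ℕ) {S : FCl (k + 1)} (hT : TLS S) :
    ∃ c₁ > 0, Clg S (fun J F A => ∀ h : ℕ, (h : ℝ) ≤ c₁ * J →
      Hyp (1 / 2 ^ h) (Fam.pt F) F.d A) := by
  obtain ⟨r, hr, hT⟩ := hT
  obtain ⟨c₁, hc₁, η, hη, hlin⟩ := lin_fam k hr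
  refine ⟨c₁, hc₁, Clg.mp ?_ (hT η hη)⟩
  refine Clg.one ⟨1, fun J F _ => Hyp (1 / 2 ^ ⌊c₁ * J⌋₊) (Fam.pt F) F.d,
    fun _ _ _ => Hyp.hered _ _ _⟩ fun κ hκ => ?_
  obtain ⟨τ, hτ, J₁, h1⟩ := hlin κ hκ
  refine ⟨τ, hτ, J₁, fun J hJ F A hS hL htail i hi => ?_⟩
  have h2 := h1 J hJ F (S.tr hS.1) (S.tm hS.1) (S.rb hS.1) A hS.2 (by
    intro P hP hP2
    have := htail P hP hP2
    push_cast at this
    exact this) ⌊c₁ * J⌋₊ (Nat.floor_le (by positivity)) (hL 0)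
  obtain ⟨ζ, hζ⟩ := h2
  refine ⟨ζ, fun ω hω => ?_⟩
  obtain ⟨c, hcc⟩ := hζ ω hω
  refine ⟨c, fun j => (hcc j).trans ?_⟩
  refine one_div_le_one_div_of_le (by positivity) ?_
  exact pow_le_pow_right₀ (by norm_num) (Nat.le_floor hi)

/-- **The fans are flat in a fixed chart if the tail is not full**, for every class of families. -/
theorem chs_of_tls {m : ℕ} {S : FCl m} (hT : TLS S) : CHS S := by
  classical
  rcases m with _ | k
  · obtain ⟨r, hr, hT⟩ := hT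
    refine ⟨1, one_pos, Clg.mono (J₂ := 8) (hT (r / 8) (by positivity)) ?_⟩
    intro J hJ F A h
    exfalso
    have hJr : (8 : ℝ) ≤ J := by exact_mod_cast hJ
    have h1 := h (J - J / 2) (by omega) (by omega)
    have h2 : (J : ℝ) - ((J - J / 2 : ℕ) : ℝ) = ((J / 2 : ℕ) : ℝ) := by
      rw [Nat.cast_sub (Nat.div_le_self _ _)]
      ring
    have h3 : (J : ℝ) / 4 ≤ ((J / 2 : ℕ) : ℝ) := by
      have : J ≤ 4 * (J / 2) := by omega
      have : (J : ℝ) ≤ ((4 * (J / 2) : ℕ) : ℝ) := by exact_mod_cast this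
      push_cast at this
      push_cast
      linarith
    rw [h2] at h1
    have h4 : 0 ≤ CH (Pool.Agent.H49.Ent.cond F.p A True) (F.X J)
        (fun ω => (F.X (J - J / 2) ω, F.W ω)) := by
      by_cases hA : 0 < Pe F.p A
      · exact CH_nonneg (isLaw_cond F.isLaw hA).nonneg _ _
      · refine CH_nonneg (fun ω => ?_) _ _
        unfold Pool.Agent.H49.Ent.cond
        split_ifs
        · exact div_nonneg (F.isLaw.nonneg ω) (law_nonneg F.isLaw.nonneg _ _)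
        · exact le_rfl
    push_cast at h1
    nlinarith
  obtain ⟨c, hc, hlin⟩ := lin_cls k hT
  obtain ⟨c₁, hc₁⟩ : ∃ c₁, c₁ = c / 2 := ⟨_, rfl⟩
  have hc₁0 : 0 < c₁ := by rw [hc₁]; linarith
  refine ⟨c₁, hc₁0, Clg.mp ?_ hlin⟩
  refine Clg.one ⟨k + 1, fun J F i => Ch F i ⌊c₁ * J⌋₊,
    fun _ _ _ => Pool.Agent.H60.PB.ch_hered _ _ _⟩ fun κ hκ => ?_
  -- `2 ^ s ≥ k + 1` digits are lost
  obtain ⟨s, hs⟩ : ∃ s, s = Nat.clog 2 (k + 1) := ⟨_, rfl⟩
  have hs1 : ((k + 1 : ℕ) : ℝ) ≤ 2 ^ s := by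
    have : k + 1 ≤ 2 ^ s := by rw [hs]; exact Nat.le_pow_clog (by norm_num) _
    exact_mod_cast this
  obtain ⟨J₁, hJ₁⟩ := exists_nat_gt (Real.log (k + 1 : ℕ) / κ + 2 * s / c)
  refine ⟨1, one_pos, J₁, fun J hJ F A _ hSb hH => ?_⟩
  have hJr : Real.log (k + 1 : ℕ) / κ + 2 * s / c < J := hJ₁.trans_le (by exact_mod_cast hJ)
  have hk1 : (1 : ℝ) ≤ ((k + 1 : ℕ) : ℝ) := by exact_mod_cast Nat.succ_le_succ (Nat.zero_le k)
  have q1 : 0 ≤ Real.log (k + 1 : ℕ) / κ := div_nonneg (Real.log_nonneg hk1) hκ.le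
  have q2 : 0 ≤ 2 * s / c := by positivity
  have k1 : Real.log (k + 1 : ℕ) ≤ κ * J := by
    have : Real.log (k + 1 : ℕ) / κ < J := by linarith
    rw [div_lt_iff₀ hκ] at this
    linarith
  have k2 : ((⌊c₁ * J⌋₊ + s : ℕ) : ℝ) ≤ c * J := by
    push_cast
    have h1 : (⌊c₁ * J⌋₊ : ℝ) ≤ c₁ * J := Nat.floor_le (by positivity)
    have h3 : 2 * s < J * c := by
      have : 2 * s / c < J := by linarith
      rwa [div_lt_iff₀ hc] at this
    rw [hc₁] at h1
    rw [hc₁]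
    linarith
  obtain ⟨ζ, hζ⟩ := hH (⌊c₁ * J⌋₊ + s) k2
  have hp := F.isLaw
  have hnor : ∀ y : (Fin (k + 1) → ℤ) × (ℕ × F.ζ), ∃ (ν : Fin (k + 1) → ℝ) (i : Fin (k + 1)),
      ν i = 1 ∧ (∀ j, |ν j| ≤ 1) ∧ ∀ l, ∑ j, ν j * (ζ y).2 l j = 0 := fun y => Pool.Agent.H60.PB.exists_normal _
  choose ν ci hν1 hν2 hν3 using hnor
  obtain ⟨i, hi⟩ := Pool.Agent.H60.PB.exists_large (p := F.p) (n := k + 1) (by omega) (A := A)
    (fun ω => ci (Fam.pt F ω))
  refine ⟨i, (hSb i).of_sub (B := fun ω => A ω ∧ ci (Fam.pt F ω) = i) (fun ω hω => hω.1) ?_ ?_⟩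
  · refine le_trans ?_ hi
    rw [div_eq_mul_inv, mul_comm]
    refine mul_le_mul_of_nonneg_left ?_ (Pe_nonneg hp A)
    rw [← Real.exp_log (lt_of_lt_of_le one_pos hk1), ← Real.exp_neg]
    exact Real.exp_le_exp.2 (by linarith)
  · refine ⟨fun y => ∑ j, ν y j * (ζ y).1 j, fun y j => if j = i then 0 else - ν y j,
      fun ω hω => ⟨by simp, fun j => ?_, ?_⟩⟩
    · show |if j = i then (0 : ℝ) else - ν (Fam.pt F ω) j| ≤ 1
      split_ifs
      · simp
      · rw [abs_neg]; exact hν2 _ _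
    · obtain ⟨y, hy⟩ : ∃ y, y = Fam.pt F ω := ⟨_, rfl⟩
      obtain ⟨c', hc'⟩ := hζ ω hω.1
      have hci := hω.2
      rw [← hy] at hc' hci ⊢
      have e1 : F.d ω i - ∑ j, ν y j * (ζ y).1 j -
          ∑ j, (if j = i then (0 : ℝ) else - ν y j) * F.d ω j =
          ∑ j, ν y j * (F.d ω j - (ζ y).1 j - ∑ l, c' l * (ζ y).2 l j) := by
        have e2 : ∑ j, ν y j * ∑ l, c' l * (ζ y).2 l j = 0 := by
          simp only [Finset.mul_sum]
          rw [Finset.sum_comm]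
          refine Finset.sum_eq_zero fun l _ => ?_
          have := hν3 y l
          calc ∑ j, ν y j * (c' l * (ζ y).2 l j) = c' l * ∑ j, ν y j * (ζ y).2 l j := by
                rw [Finset.mul_sum]
                exact Finset.sum_congr rfl fun j _ => by ring
            _ = 0 := by rw [this, mul_zero]
        have e3 : ∑ j, ν y j * F.d ω j = F.d ω i - ∑ j, (if j = i then (0 : ℝ) else - ν y j) *
            F.d ω j := by
          have h4 : F.d ω i = ∑ j, (if j = i then F.d ω j else 0) := by simp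
          rw [h4, ← Finset.sum_sub_distrib]
          refine Finset.sum_congr rfl fun j _ => ?_
          by_cases h : j = i
          · have : ν y j = 1 := by rw [h, ← hci]; exact hν1 y
            rw [if_pos h, if_pos h, this]
            ring
          · rw [if_neg h, if_neg h]
            ring
        simp only [mul_sub, Finset.sum_sub_distrib]
        rw [e2, e3]
        ring
      rw [e1]
      calc |∑ j, ν y j * (F.d ω j - (ζ y).1 j - ∑ l, c' l * (ζ y).2 l j)|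
          ≤ ∑ j, |ν y j * (F.d ω j - (ζ y).1 j - ∑ l, c' l * (ζ y).2 l j)| :=
            Finset.abs_sum_le_sum_abs _ _
        _ ≤ ∑ _j : Fin (k + 1), 1 / 2 ^ (⌊c₁ * J⌋₊ + s) := by
            refine Finset.sum_le_sum fun j _ => ?_
            rw [abs_mul]
            calc _ ≤ 1 * |F.d ω j - (ζ y).1 j - ∑ l, c' l * (ζ y).2 l j| :=
                  mul_le_mul_of_nonneg_right (hν2 y j) (abs_nonneg _)
              _ ≤ _ := by rw [one_mul]; exact hc' j
        _ = ((k + 1 : ℕ) : ℝ) * (1 / 2 ^ (⌊c₁ * J⌋₊ + s)) := by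
            rw [Finset.sum_const, Finset.card_univ, Fintype.card_fin, nsmul_eq_mul]
        _ ≤ 2 ^ s * (1 / 2 ^ (⌊c₁ * J⌋₊ + s)) :=
            mul_le_mul_of_nonneg_right hs1 (by positivity)
        _ = 1 / 2 ^ ⌊c₁ * J⌋₊ := by
            rw [pow_add]
            field_simp

end Pool.PB
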