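import Pool.Agent.H89.ZCL.AzR

/-!
# Labels are visible from the points of the zoom

The points of the zoom `G` of `F` do not know the last `lam` digits of the chart coordinate. A
label which is a function of the window and which is visible from the points of `F` has small
entropy given the points of `G`, since these digits are full given the label.
-/

set_option autoImplicit false

namespace Pool.ZCL

open Finset Real
open Pool.Agent.H49.Ent Pool.Agent.H32.Dense Pool.STK Pool.KA Pool.KSAT Pool.K2S Pool.PB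
open Plk
open Pool.S6K (exact_label ball_claim)

variable {m J : ℕ}

/-- The last digits of the time are free. -/
theorem time_free (F : Fam m J) {v : ℕ} (hv : v ≤ J) {σ τ : Type} {S : F.Ω → σ} {V : F.Ω → τ}
    {e : ℝ} (hTm : F.Tm e) (hS : Det F.p (wnd F v) S) (hV : Det F.p (wnd F v) V)
    (hVT : Det F.p V (F.T1 v)) : CH F.p S V ≤ CH F.p S (fun ω => (F.T ω, V ω)) + e := by
  have h0 := F.isLaw.nonneg
  obtain ⟨k, hk⟩ : ∃ k, k = J - v := ⟨_, rfl⟩
  have hT1 : ∀ ω, F.T1 v ω = F.T ω / 2 ^ k := fun ω => by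
    rw [hk]
    rfl
  have hTs : ∀ ω, F.T ω = 2 ^ k * F.T1 v ω + F.T ω % 2 ^ k := fun ω => by
    rw [hT1]
    exact (Nat.div_add_mod _ _).symm
  have d1 : CH F.p F.T V ≤ k * Real.log 2 := by
    have c1 := CH_le_add h0 F.T (fun ω => F.T ω % 2 ^ k) V
    have c2 := TRC.CH_lt F.isLaw (fun ω => F.T ω % 2 ^ k) V k
      (fun ω => Nat.mod_lt _ (by positivity))
    have c3 : CH F.p F.T (fun ω => (F.T ω % 2 ^ k, V ω)) = 0 := by
      refine CH_eq_zero h0 fun ω ω' hω hω' hh => ?_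
      have a1 := Prod.ext_iff.mp hh
      simp only at a1
      rw [hTs ω, hTs ω', a1.1, hVT ω ω' hω hω' a1.2]
    linarith
  have d2 : k * Real.log 2 - e ≤ CH F.p F.T (fun ω => (S ω, V ω)) := by
    have c1 := CH_mono_cond h0 (X := F.T) (W' := fun ω => (F.T1 v ω, (F.l ω, F.Z ω)))
      (W := fun ω => (S ω, V ω)) (fun ω ω' hω hω' hh => by
        have a1 := Prod.ext_iff.mp hh
        have a2 := Prod.ext_iff.mp a1.2
        have a3 : wnd F v ω = wnd F v ω' := Prod.ext a2.1 (Prod.ext a1.1 a2.2)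
        exact Prod.ext (hS ω ω' hω hω' a3) (hV ω ω' hω hω' a3))
    have c2 := CH_le_add h0 F.T (F.T1 v) (fun ω => (F.l ω, F.Z ω))
    have c3 := TRC.CH_lt F.isLaw (F.T1 v) (fun ω => (F.l ω, F.Z ω)) v (fun ω => by
      rw [hT1, Nat.div_lt_iff_lt_mul (by positivity), ← pow_add]
      have h1 := F.tim ω
      have e1 : v + k = J := by omega
      rwa [e1])
    have c4 : (J : ℝ) * Real.log 2 - e ≤ CH F.p F.T (fun ω => (F.l ω, F.Z ω)) := hTm
    have c5 : (J : ℝ) = v + k := by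
      have : J = v + k := by omega
      exact_mod_cast this
    rw [c5] at c4
    linarith
  have c1 := CH_chain h0 S F.T V
  have c2 := CH_chain h0 F.T S V
  have c3 : CH F.p (fun ω => (S ω, F.T ω)) V = CH F.p (fun ω => (F.T ω, S ω)) V := by
    refine CH_congr h0 ?_ ?_ (fun _ _ _ _ hh => hh) (fun _ _ _ _ hh => hh)
    · intro ω ω' _ _ hh
      have a1 := Prod.ext_iff.mp (Prod.ext_iff.mp hh).1
      exact Prod.ext a1.2 a1.1
    · intro ω ω' _ _ hh
      have a1 := Prod.ext_iff.mp (Prod.ext_iff.mp hh).1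
      exact Prod.ext a1.2 a1.1
  linarith

/-- The data of the box are functions of the window. -/
theorem rX_det {κ : Type} (F : Fam m J) {w J' : ℕ} (hJ : w + J' ≤ J) (C : Crd m κ)
    (g : F.Ω → κ) (hg : Det F.p (wnd F w) g) (h : J' ≤ J - w) (P : ℕ) :
    Det F.p (wnd F (w + J'))
      (fun ω => (rX (F.box w C g) h P ω, ((F.box w C g).T1 J' ω, F.blab w C g ω))) := by
  intro ω ω' hω hω' hh
  have a1 := Prod.ext_iff.mp hh
  have a2 := Prod.ext_iff.mp a1.2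
  have a0 : F.l ω = F.l ω' := a1.1
  have aT : F.T1 (w + J') ω = F.T1 (w + J') ω' := a2.1
  have aZ : F.Z ω = F.Z ω' := a2.2
  have a3 : F.T1 w ω = F.T1 w ω' := by
    rw [Pool.KSAT.T1_div F hJ ω, Pool.KSAT.T1_div F hJ ω', aT]
  have a4 : g ω = g ω' := hg ω ω' hω hω' (Prod.ext a0 (Prod.ext a3 aZ))
  have a5 := Box.blab_det F (C := C) a0 a3 a4 aZ
  have a6 : (F.box w C g).T1 J' ω = (F.box w C g).T1 J' ω' := by
    have c1 := Box.T1_box F hJ C g ω
    have c2 := Box.T1_box F hJ C g ω'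
    rw [aT, a3] at c1
    omega
  have a7 : (F.box w C g).u ω = (F.box w C g).u ω' := (Prod.ext_iff.mp a5.2).1
  have a8 : (F.box w C g).d ω = (F.box w C g).d ω' := (Prod.ext_iff.mp a5.2).2
  have a9 : rx (F.box w C g) h ω = rx (F.box w C g) h ω' := by
    funext i
    change (⌊(2 : ℝ) ^ J' * (F.box w C g).u ω i⌋ : ℝ) / 2 ^ J' +
      (((F.box w C g).T1 J' ω : ℕ) : ℝ) / 2 ^ J' *
        ((⌊(2 : ℝ) ^ J' * (F.box w C g).d ω i⌋ : ℝ) / 2 ^ J') =
      (⌊(2 : ℝ) ^ J' * (F.box w C g).u ω' i⌋ : ℝ) / 2 ^ J' +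
      (((F.box w C g).T1 J' ω' : ℕ) : ℝ) / 2 ^ J' *
        ((⌊(2 : ℝ) ^ J' * (F.box w C g).d ω' i⌋ : ℝ) / 2 ^ J')
    rw [a6, a7, a8]
  unfold rX
  simp only [a9, a6, a5.1]

/-- The position in the box given the position of the rounded family. -/
theorem rnd_near {n J' P : ℕ} (G : Fam m n) (h : J' ≤ n) (hP : P ≤ J') {S : Type}
    (W : G.Ω → S) : CH G.p (G.X P) (fun ω => (rX G h P ω, W ω)) ≤ m * Real.log 17 := by
  have p1 : ∀ k : ℕ, (0 : ℝ) < 2 ^ k := fun k => by positivity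
  have hPJ : (2 : ℝ) ^ P ≤ 2 ^ J' := pow_le_pow_right₀ one_le_two hP
  have hinv : (1 : ℝ) / 2 ^ J' ≤ 1 / 2 ^ P := one_div_le_one_div_of_le (p1 P) hPJ
  have key := ENP.CH_fl G.isLaw P G.x (fun ω => (rX G h P ω, W ω)) 7
    (fun ω ω' _ _ hh i => by
      have hX : rX G h P ω = rX G h P ω' := (Prod.ext_iff.mp hh).1
      have g : |(2 : ℝ) ^ P * rx G h ω i - 2 ^ P * rx G h ω' i| ≤ 1 :=
        abs_sub_lt_of_floor (congrFun hX i)
      have c1 : |rx G h ω i - rx G h ω' i| ≤ 1 / 2 ^ P := by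
        rw [← mul_sub, abs_mul, abs_of_pos (p1 P)] at g
        rw [le_div_iff₀ (p1 P)]
        linarith
      have c2 : |rx G h ω i - G.x ω i| ≤ 3 / 2 ^ J' := rnd_x_near G h ω i
      have c3 : |rx G h ω' i - G.x ω' i| ≤ 3 / 2 ^ J' := rnd_x_near G h ω' i
      have e : (7 : ℝ) / 2 ^ P = 3 * (1 / 2 ^ P) + 1 / 2 ^ P + 3 * (1 / 2 ^ P) := by ring
      have e3 : (3 : ℝ) / 2 ^ J' = 3 * (1 / 2 ^ J') := by ring
      rw [e3] at c2 c3
      rw [e]
      rw [abs_le] at c1 c2 c3 ⊢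
      constructor <;> linarith [c1.1, c1.2, c2.1, c2.2, c3.1, c3.2])
  have e : (2 : ℝ) * 7 + 3 = 17 := by norm_num
  rw [e] at key
  exact key

/-- **Visibility from the points in the planks.** -/
theorem see_plk (F : Fam m J) {w lam P : ℕ} (hJ : w + P + lam ≤ J) {i0 : Fin m}
    {z : F.Ω → Fin m → ℝ} {b η δ : ℝ} (hb : 0 ≤ b)
    (hz : ∀ ω, 0 < F.p ω → ∀ i, |z ω i| ≤ b) {σ : Type} (S : F.Ω → σ)
    (hvis : CH F.p S (ptr F (w + P + lam)) ≤ δ)
    (hrow : lam * Real.log 2 - η ≤ CH F.p (fun ω => ⌊(2 : ℝ) ^ (w + P + lam) * F.x ω i0⌋)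
      (fun ω => (F.T ω, ((F.plab (w + P) lam i0 z ω, F.plab w lam i0 z ω), S ω)))) :
    CH F.p S (fun ω => ((F.plk w lam i0 z).X P ω, (F.T ω, F.plab w lam i0 z ω))) ≤
      δ + η + (2 * (m * Real.log (2 * b + 5)) + 3 * (m * Real.log 3)) := by
  have h0 := F.isLaw.nonneg
  have hw : w ≤ J := by omega
  obtain ⟨B, hB⟩ : ∃ B, B = fun ω => (F.T ω, F.plab w lam i0 z ω) := ⟨_, rfl⟩
  obtain ⟨Y, hY⟩ : ∃ Y : F.Ω → Fin m → ℤ, Y = (F.plk w lam i0 z).X P := ⟨_, rfl⟩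
  obtain ⟨Q, hQ⟩ : ∃ Q, Q = F.X (w + P + lam) := ⟨_, rfl⟩
  obtain ⟨q, hq⟩ : ∃ q, q = fun ω => ⌊(2 : ℝ) ^ (w + P + lam) * F.x ω i0⌋ := ⟨_, rfl⟩
  obtain ⟨p', hp'⟩ : ∃ p', p' = F.pX lam i0 z (w + P) := ⟨_, rfl⟩
  suffices main : CH F.p S (fun ω => (Y ω, B ω)) ≤
      δ + η + (2 * (m * Real.log (2 * b + 5)) + 3 * (m * Real.log 3)) by
    rw [hY, hB] at main
    exact main
  rw [← hq] at hrow
  have hBz : ∀ ω ω', B ω = B ω' → F.T ω = F.T ω' ∧ F.plab w lam i0 z ω = F.plab w lam i0 z ω' ∧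
      z ω = z ω' ∧ F.Z ω = F.Z ω' := by
    intro ω ω' hh
    rw [hB] at hh
    have a1 := Prod.ext_iff.mp hh
    simp only at a1
    have a2 := Prod.ext_iff.mp a1.2
    exact ⟨a1.1, a1.2, (Prod.ext_iff.mp (Prod.ext_iff.mp a2.1).1).2, a2.2⟩
  have hqQ : ∀ ω ω', Q ω = Q ω' → q ω = q ω' := by
    intro ω ω' hh
    rw [hQ] at hh
    rw [hq]
    exact congrFun hh i0
  -- the cell of the position
  have v1 : CH F.p p' (fun ω => (Y ω, B ω)) ≤ m * Real.log 3 := by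
    have := CH_pX_X F (w := w) (K := P) hw lam i0 z
    rw [hp', hY, hB]
    exact this
  have v2 : CH F.p Q (fun ω => (q ω, (Y ω, B ω))) ≤
      m * Real.log (2 * b + 5) + m * Real.log 3 := by
    have c1 := CH_le_add h0 Q p' (fun ω => (q ω, (Y ω, B ω)))
    have c2 : CH F.p p' (fun ω => (q ω, (Y ω, B ω))) ≤ CH F.p p' (fun ω => (Y ω, B ω)) :=
      CH_mono_cond h0 fun ω ω' _ _ hh => (Prod.ext_iff.mp hh).2
    have c3 : CH F.p Q (fun ω => (p' ω, (q ω, (Y ω, B ω)))) ≤ m * Real.log (2 * b + 5) := by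
      have c4 := CH_X_of_pX F (g := w + P) (lam := lam) (i0 := i0) hb hz
      have c5 : CH F.p Q (fun ω => (q ω, (p' ω, z ω))) ≤ m * Real.log (2 * b + 5) := by
        rw [hQ, hq, hp']
        exact c4
      refine (CH_mono_cond h0 (W := fun ω => (q ω, (p' ω, z ω))) fun ω ω' _ _ hh => ?_).trans c5
      have a1 := Prod.ext_iff.mp hh
      have a2 := Prod.ext_iff.mp a1.2
      have a3 := Prod.ext_iff.mp a2.2
      exact Prod.ext a2.1 (Prod.ext a1.1 (hBz ω ω' a3.2).2.2.1)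
    linarith
  -- the rows of the chart coordinate
  have v3 : CH F.p q (fun ω => (Y ω, B ω)) ≤
      lam * Real.log 2 + m * Real.log (2 * b + 5) + m * Real.log 3 := by
    have c1 : CH F.p Q (fun ω => (Y ω, B ω)) ≤
        lam * Real.log 2 + m * Real.log (2 * b + 5) + m * Real.log 3 := by
      have := CH_X_given F (w := w) (K := P) (lam := lam) hw (i0 := i0) hb hz
      rw [hQ, hY, hB]
      exact this
    refine (CH_mono_left h0 fun ω ω' _ _ hh => ?_).trans c1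
    exact hqQ ω ω' (Prod.ext_iff.mp hh).1
  have v4 : CH F.p S (fun ω => (q ω, (Y ω, B ω))) ≤
      m * Real.log (2 * b + 5) + m * Real.log 3 + δ := by
    have c1 := CH_le_add h0 S Q (fun ω => (q ω, (Y ω, B ω)))
    have c2 : CH F.p S (fun ω => (Q ω, (q ω, (Y ω, B ω)))) ≤ δ := by
      refine (CH_mono_cond h0 (W := ptr F (w + P + lam)) fun ω ω' _ _ hh => ?_).trans hvis
      have a1 := Prod.ext_iff.mp hh
      have a2 := Prod.ext_iff.mp a1.2
      have a3 := Prod.ext_iff.mp a2.2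
      have a4 := hBz ω ω' a3.2
      rw [hQ] at a1
      exact Prod.ext a1.1 (Prod.ext a4.1 a4.2.2.2)
    linarith
  have v5 : lam * Real.log 2 - η - m * Real.log 3 ≤ CH F.p q (fun ω => (S ω, (Y ω, B ω))) := by
    obtain ⟨B', hB'⟩ : ∃ B', B' = fun ω => (F.T ω, ((F.plab (w + P) lam i0 z ω,
      F.plab w lam i0 z ω), S ω)) := ⟨_, rfl⟩
    rw [← hB'] at hrow
    have h2 : CH F.p q (fun ω => (Y ω, B' ω)) ≤ CH F.p q (fun ω => (S ω, (Y ω, B ω))) := by
      refine CH_mono_cond h0 fun ω ω' _ _ hh => ?_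
      have a1 := Prod.ext_iff.mp hh
      have a2 : Y ω = Y ω' := a1.1
      have a3 : B' ω = B' ω' := a1.2
      rw [hB'] at a3
      have a4 := Prod.ext_iff.mp a3
      have a5 := Prod.ext_iff.mp a4.2
      refine Prod.ext a5.2 (Prod.ext a2 ?_)
      rw [hB]
      exact Prod.ext a4.1 (Prod.ext_iff.mp a5.1).2
    have h3 := CH_bayes h0 q Y B'
    have h4 := CH_nonneg h0 Y (fun ω => (q ω, B' ω))
    have h5 : CH F.p Y B' ≤ m * Real.log 3 := by
      have h6 := CH_X_le F (w := w) (K := P) (by omega) lam i0 z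
      have h7 : CH F.p Y (fun ω => (F.plab (w + P) lam i0 z ω, F.plab w lam i0 z ω)) ≤
          m * Real.log 3 := by
        rw [hY]
        exact h6
      refine (CH_mono_cond h0 (W := fun ω => (F.plab (w + P) lam i0 z ω,
        F.plab w lam i0 z ω)) fun ω ω' _ _ hh => ?_).trans h7
      rw [hB'] at hh
      exact (Prod.ext_iff.mp (Prod.ext_iff.mp hh).2).1
    linarith
  -- the chain rule
  have c1 := CH_chain h0 S q (fun ω => (Y ω, B ω))
  have c2 := CH_chain h0 q S (fun ω => (Y ω, B ω))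
  have c3 : CH F.p (fun ω => (S ω, q ω)) (fun ω => (Y ω, B ω)) =
      CH F.p (fun ω => (q ω, S ω)) (fun ω => (Y ω, B ω)) := by
    refine CH_congr h0 ?_ ?_ (fun _ _ _ _ hh => hh) (fun _ _ _ _ hh => hh)
    · intro ω ω' _ _ hh
      have a1 := Prod.ext_iff.mp (Prod.ext_iff.mp hh).1
      exact Prod.ext a1.2 a1.1
    · intro ω ω' _ _ hh
      have a1 := Prod.ext_iff.mp (Prod.ext_iff.mp hh).1
      exact Prod.ext a1.2 a1.1
  linarith

/-- The restriction of a stable family. -/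
theorem stt_res {a R τ τ' : ℝ} (ha : 1 ≤ a) (hτ : 0 ≤ τ) (hτ' : (1 + a) * (6 * τ) ≤ τ')
    {F : Fam m J} {A : F.Ω → Prop} (hS : Fam.Stt F a R τ A) :
    ∃ hl : IsLaw (cond F.p A True), Fam.Stt (F.res A True hl) a R τ' (fun _ => True) ∧
      (F.res A True hl).Tm (τ' * J) := by
  have hJr : (0 : ℝ) ≤ J := Nat.cast_nonneg J
  obtain ⟨hl, r1, r2, r3⟩ := max_res F ha hτ hτ hS.1 hS.2.1 hS.2.2.1 A hS.2.2.2
  have e1 : (1 + a) * (5 * τ + τ) = (1 + a) * (6 * τ) := by ring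
  rw [e1] at r2
  have h1 : (1 + a) * (6 * τ) * (J : ℝ) ≤ τ' * J := mul_le_mul_of_nonneg_right hτ' hJr
  have g1 : (F.res A True hl).Tm (τ' * J) := by
    have h2 := r2.1
    unfold Fam.Tm at h2 ⊢
    linarith
  refine ⟨hl, ⟨r1, ⟨g1, ?_⟩, ?_, ?_⟩, g1⟩
  · have h2 : (R - τ') * (J : ℝ) ≤ (R - (1 + a) * (6 * τ)) * J := by nlinarith
    exact h2.trans r2.2
  · have h2 : (τ + τ) * (J : ℝ) ≤ τ' * J := by
      refine mul_le_mul_of_nonneg_right ?_ hJr
      nlinarith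
    obtain ⟨⟨a1, b1⟩, ⟨a2, b2⟩, ⟨a3, b3⟩, ⟨a4, b4⟩, ⟨a5, b5⟩⟩ := r3
    exact ⟨⟨a1, rg_mono h2 b1⟩, ⟨a2, rg_mono h2 b2⟩, ⟨a3, rg_mono h2 b3⟩, ⟨a4, rg_mono h2 b4⟩,
      ⟨a5, rg_mono h2 b5⟩⟩
  · have h2 : Pe (F.res A True hl).p (fun _ => True) = 1 := Pe_univ hl
    rw [h2]
    refine Real.exp_le_one_iff.2 ?_
    have h3 : 0 ≤ (1 + a) * (6 * τ) * (J : ℝ) := by positivity
    linarith

/-- **The rows of the chart coordinate behind the planks, given a label.** -/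
theorem zm_rows {m : ℕ} {a η b : ℝ} (ha : 1 ≤ a) (hη : 0 < η) (hb : 0 ≤ b) : ∃ γ : ℝ, 0 < γ ∧
    ∀ R δ κ : ℝ, 0 < κ → ∃ τ > 0, ∃ J₁ : ℕ, ∀ J ≥ J₁, ∀ (F : Fam m J) (A : F.Ω → Prop),
    Fam.Stt F a R τ A → ∀ (i₀ : Fin m) (w lam P x1 : ℕ) (z : F.Ω → Fin m → ℝ),
      w + P + lam ≤ J → (x1 : ℝ) ≤ γ * J →
    Stb F.p (κ * J) A (FrzG F i₀ 0 (0 + x1)) → ¬ FrzG F i₀ 0 (0 + x1) A →
    (∀ ω ω', A ω → A ω' → 0 < F.p ω → 0 < F.p ω' → wnd F w ω = wnd F w ω' → z ω = z ω') →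
    (∀ ω, A ω → 0 < F.p ω → ∀ i, |z ω i| ≤ b) →
    (∀ B : F.Ω → Prop, Sub B A → 0 < Pe F.p B →
      CH (cond F.p B True) (fun ω => (z ω, F.pvl lam i₀ z ω)) (Fam.pt F) ≤ δ) →
    ∀ (σ : Type) (S : F.Ω → σ),
    (∀ ω ω', A ω → A ω' → 0 < F.p ω → 0 < F.p ω' → wnd F (w + P) ω = wnd F (w + P) ω' →
      S ω = S ω') →
    (∀ B : F.Ω → Prop, Sub B A → 0 < Pe F.p B → CH (cond F.p B True) S (Fam.pt F) ≤ δ) →
    lam * Real.log 2 - η * J ≤ CH (cond F.p A True)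
      (fun ω => ⌊(2 : ℝ) ^ (w + P + lam) * F.x ω i₀⌋)
      (fun ω => (F.T ω, ((F.plab (w + P) lam i₀ z ω, F.plab w lam i₀ z ω), S ω))) := by
  obtain ⟨γ, hγ, hws⟩ := ws_full (m := m) ha hη
  refine ⟨γ, hγ, fun R δ κ hκ => ?_⟩
  obtain ⟨τ₀, hτ₀, J₀, hmain⟩ := hws R (δ + 2 * (m * Real.log (2 * b + 7)) + δ) κ hκ
  refine ⟨τ₀ / (6 * (1 + a)), by positivity, J₀, fun J hJ F A hS i₀ w lam P x1 z hwJ hx1 hFs hFn
    hzw hzb hvis σ S hSw hSv => ?_⟩
  have hp := F.isLaw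
  have hA0 : 0 < Pe F.p A := lt_of_lt_of_le (Real.exp_pos _) hS.2.2.2
  obtain ⟨hl, hStt, -⟩ := stt_res (τ' := τ₀) ha (by positivity) (le_of_eq (by field_simp)) hS
  have hpos : ∀ ω, 0 < cond F.p A True ω → A ω ∧ 0 < F.p ω := fun ω hω => by
    have h1 := (cond_pos_iff hp.nonneg A True ω).1 hω
    exact ⟨of_eq_true h1.2, h1.1⟩
  have hzb' : ∀ ω, 0 < (F.res A True hl).p ω → ∀ i, |z ω i| ≤ b := fun ω hω =>
    hzb ω (hpos ω hω).1 (hpos ω hω).2
  obtain ⟨s1, s2⟩ := Stb.res hp hA0 (FrzG.hered F i₀ 0 (0 + x1)) hFs hFn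
  have hrow := hmain J hJ (F.res A True hl) (fun _ => True) hStt i₀ (w + P) 0 lam x1 _
    (fun ω => (((F.res A True hl).plab (w + P) lam i₀ z ω,
      (F.res A True hl).plab w lam i₀ z ω), S ω))
    (by omega) hx1 s1 s2 (by
      intro ω ω' hω hω' hh
      have g1 := hpos ω hω
      have g2 := hpos ω' hω'
      have a1 := Prod.ext_iff.mp hh
      have a2 := Prod.ext_iff.mp a1.2
      have a0 : (F.res A True hl).l ω = (F.res A True hl).l ω' := a1.1
      have a3 : (F.res A True hl).T1 (w + P) ω = (F.res A True hl).T1 (w + P) ω' := a2.1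
      have aZ : (F.res A True hl).Z ω = (F.res A True hl).Z ω' := a2.2
      have a4 : (F.res A True hl).T1 w ω = (F.res A True hl).T1 w ω' := by
        rw [Pool.KSAT.T1_div _ (by omega : w + P ≤ J) ω,
          Pool.KSAT.T1_div _ (by omega : w + P ≤ J) ω', a3]
      have a5 : z ω = z ω' := hzw ω ω' g1.1 g2.1 g1.2 g2.2 (Prod.ext a0 (Prod.ext a4 aZ))
      have a6 : S ω = S ω' := hSw ω ω' g1.1 g2.1 g1.2 g2.2 hh
      exact Prod.ext (Prod.ext (plab_det _ a0 a3 a5 aZ).1 (plab_det _ a0 a4 a5 aZ).1) a6)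
    (by
      intro B hB hB0
      have hB1 : cond (F.res A True hl).p B True = cond F.p (fun ω => A ω ∧ B ω) True :=
        cond_and F.p hA0.ne'
      have hlB : IsLaw (cond (F.res A True hl).p B True) := isLaw_cond hl hB0
      have hPB : 0 < Pe F.p (fun ω => A ω ∧ B ω) := by
        have h1 : Pe (F.res A True hl).p B = Pe F.p (fun ω => A ω ∧ B ω) / Pe F.p A := Pe_cond B
        rw [h1] at hB0
        by_contra hcon
        push Not at hcon
        have := div_nonpos_of_nonpos_of_nonneg hcon hA0.le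
        linarith
      have h2 := hvis (fun ω => A ω ∧ B ω) (fun ω hω => hω.1) hPB
      have h4 := hSv (fun ω => A ω ∧ B ω) (fun ω hω => hω.1) hPB
      rw [← hB1] at h2 h4
      have key := plab_vis ((F.res A True hl).res B True hlB) (w := w) (w' := w + P)
        (lam := lam) (by omega) (by omega) (i0 := i₀) (z := z) hb (fun ω hω => by
          have h3 := (cond_pos_iff hl.nonneg B True ω).1 hω
          exact hzb' ω h3.1) h2
      have h5 : CH (cond (F.res A True hl).p B True)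
          (fun ω => (((F.res A True hl).plab (w + P) lam i₀ z ω,
            (F.res A True hl).plab w lam i₀ z ω), S ω)) (Fam.pt F) ≤
          δ + 2 * (m * Real.log (2 * b + 7)) + δ :=
        (CH_subadd hlB.nonneg _ _ _).trans (add_le_add key h4)
      refine le_trans (CH_mono_cond hlB.nonneg fun ω ω' _ _ hh => ?_) h5
      exact (Prod.ext_iff.mp hh).1)
  have e1 : cond (F.res A True hl).p (fun _ => True) True = (F.res A True hl).p := cond_univ hl
  rw [e1] at hrow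
  have e2 : 0 + (w + P) + lam = w + P + lam := by omega
  rw [e2] at hrow
  refine hrow.trans ?_
  refine (CH_mono_cond hl.nonneg (X := fun ω => ⌊(2 : ℝ) ^ (w + P + lam) * F.x ω i₀⌋)
    (W := fun ω => (F.T ω, ((F.plab (w + P) lam i₀ z ω, F.plab w lam i₀ z ω), S ω)))
    fun ω ω' _ _ hh => ?_)
  have a1 := Prod.ext_iff.mp hh
  have a2 := Prod.ext_iff.mp a1.2
  exact Prod.ext a1.1 (Prod.ext_iff.mp a2.2).1

/-- **Visibility from the points of the zoom.** -/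
theorem zm_see {m : ℕ} {a η b : ℝ} (ha : 1 ≤ a) (hη : 0 < η) (hb : 0 ≤ b) : ∃ γ : ℝ, 0 < γ ∧
    ∀ R δ κ : ℝ, 0 < κ → ∃ τ > 0, ∃ J₁ : ℕ, ∀ J ≥ J₁, ∀ (F : Fam m J) (A : F.Ω → Prop),
    Fam.Stt F a R τ A → ∀ (i₀ : Fin m) (w lam J' x1 : ℕ) (z : F.Ω → Fin m → ℝ)
      (h : J' ≤ J - w), w + J' + lam ≤ J → (x1 : ℝ) ≤ γ * J →
    Stb F.p (κ * J) A (FrzG F i₀ 0 (0 + x1)) → ¬ FrzG F i₀ 0 (0 + x1) A →
    (∀ ω ω', A ω → A ω' → 0 < F.p ω → 0 < F.p ω' → wnd F w ω = wnd F w ω' → z ω = z ω') →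
    (∀ ω, A ω → 0 < F.p ω → ∀ i, |z ω i| ≤ b) →
    (∀ B : F.Ω → Prop, Sub B A → 0 < Pe F.p B →
      CH (cond F.p B True) (fun ω => (z ω, F.pvl lam i₀ z ω)) (Fam.pt F) ≤ δ) →
    ∀ P ≤ J', ∀ (σ : Type) (S : F.Ω → σ),
    (∀ ω ω', A ω → A ω' → 0 < F.p ω → 0 < F.p ω' → wnd F (w + P) ω = wnd F (w + P) ω' →
      S ω = S ω') →
    (∀ B : F.Ω → Prop, Sub B A → 0 < Pe F.p B →
      CH (cond F.p B True) S (ptr F (w + P + lam)) ≤ δ) →
    CH (cond F.p A True) S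
      (fun ω => ((((F.box w (Box.plkC lam i₀) z).trc J' h).rnd).X P ω,
        (((F.box w (Box.plkC lam i₀) z).trc J' h).rnd).W ω)) ≤ η * J := by
  obtain ⟨γ, hγ, hrows⟩ := zm_rows (m := m) ha (by positivity : 0 < η / 4) hb
  refine ⟨γ, hγ, fun R δ κ hκ => ?_⟩
  obtain ⟨τ₀, hτ₀, J₀, hmain⟩ := hrows R δ κ hκ
  obtain ⟨τ, hτ⟩ : ∃ τ, τ = min τ₀ (η / 4 / (6 * (1 + a))) := ⟨_, rfl⟩
  have hτ0 : 0 < τ := by rw [hτ]; exact lt_min hτ₀ (by positivity)
  have hττ₀ : τ ≤ τ₀ := by rw [hτ]; exact min_le_left _ _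
  have hτη : (1 + a) * (6 * τ) ≤ η / 4 := by
    have h1 : τ ≤ η / 4 / (6 * (1 + a)) := by rw [hτ]; exact min_le_right _ _
    rw [le_div_iff₀ (by positivity)] at h1
    linarith
  obtain ⟨Cs, hCs⟩ : ∃ Cs : ℝ, Cs = δ + (2 * (m * Real.log (2 * b + 5)) +
    3 * (m * Real.log 3)) + m * Real.log 17 := ⟨_, rfl⟩
  obtain ⟨J₂, hJ₂⟩ := exists_nat_gt (4 * |Cs| / η)
  refine ⟨τ, hτ0, max J₀ J₂, fun J hJ F A hS i₀ w lam J' x1 z h hwJ hx1 hFs hFn hzw hzb hvis
    P hP σ S hSw hSv => ?_⟩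
  have hJ0 : J₀ ≤ J := (le_max_left _ _).trans hJ
  have hJ2 : 4 * |Cs| / η < J := hJ₂.trans_le (by exact_mod_cast (le_max_right _ _).trans hJ)
  have hJr : (0 : ℝ) ≤ J := Nat.cast_nonneg J
  have hp := F.isLaw
  have hA0 : 0 < Pe F.p A := lt_of_lt_of_le (Real.exp_pos _) hS.2.2.2
  obtain ⟨hl, -, hTm⟩ := stt_res (τ' := η / 4) ha hτ0.le hτη hS
  have hpos : ∀ ω, 0 < cond F.p A True ω → A ω ∧ 0 < F.p ω := fun ω hω => by
    have h1 := (cond_pos_iff hp.nonneg A True ω).1 hω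
    exact ⟨of_eq_true h1.2, h1.1⟩
  have hzb' : ∀ ω, 0 < (F.res A True hl).p ω → ∀ i, |z ω i| ≤ b := fun ω hω =>
    hzb ω (hpos ω hω).1 (hpos ω hω).2
  have hrow := hmain J hJ0 F A (Fam.Stt.mono hττ₀ hS) i₀ w lam P x1 z (by omega) hx1 hFs hFn
    hzw hzb hvis σ S hSw (fun B hB hB0 => by
      have hlB := isLaw_cond hp hB0
      obtain ⟨φ, hφ'⟩ := ptr_coarse F (show w + P + lam ≤ J by omega)
      have hφ : ∀ ω, ptr F (w + P + lam) ω = φ (Fam.pt F ω) := hφ'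
      refine (CH_mono_cond hlB.nonneg fun ω ω' _ _ hh => ?_).trans (hSv B hB hB0)
      rw [hφ, hφ, hh])
  have hzw' : Det (F.res A True hl).p (wnd (F.res A True hl) w) z := by
    intro ω ω' hω hω' hh
    have h1 := hpos ω hω
    have h2 := hpos ω' hω'
    exact hzw ω ω' h1.1 h2.1 h1.2 h2.2 hh
  have hSw' : Det (F.res A True hl).p (wnd (F.res A True hl) (w + J')) S := by
    intro ω ω' hω hω' hh
    have h1 := hpos ω hω
    have h2 := hpos ω' hω'
    have a1 := Prod.ext_iff.mp hh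
    have a2 := Prod.ext_iff.mp a1.2
    have a3 : F.T1 (w + J') ω = F.T1 (w + J') ω' := a2.1
    refine hSw ω ω' h1.1 h2.1 h1.2 h2.2 (Prod.ext a1.1 (Prod.ext ?_ a2.2))
    obtain ⟨k, hk⟩ := Nat.exists_eq_add_of_le hP
    have e1 : w + J' = (w + P) + k := by omega
    change F.T1 (w + P) ω = F.T1 (w + P) ω'
    rw [e1] at a3
    rw [Pool.KSAT.T1_div F (by omega : w + P + k ≤ J) ω,
      Pool.KSAT.T1_div F (by omega : w + P + k ≤ J) ω', a3]
  -- the time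
  have t1 := time_free (F.res A True hl) (v := w + J') (by omega) hTm hSw'
    (rX_det (F.res A True hl) (w := w) (J' := J') (by omega) (Box.plkC lam i₀) z hzw' h P)
    (by
      intro ω ω' _ _ hh
      have a1 := Prod.ext_iff.mp hh
      have a2 := Prod.ext_iff.mp a1.2
      have a3 := Box.split_lab (F.res A True hl)
        (show (F.res A True hl).blab w (Box.plkC lam i₀) z ω =
          (F.res A True hl).blab w (Box.plkC lam i₀) z ω' from a2.2)
      have a4 : ((F.res A True hl).box w (Box.plkC lam i₀) z).T1 J' ω =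
        ((F.res A True hl).box w (Box.plkC lam i₀) z).T1 J' ω' := a2.1
      rw [Box.T1_box (F.res A True hl) (by omega : w + J' ≤ J) (Box.plkC lam i₀) z ω,
        Box.T1_box (F.res A True hl) (by omega : w + J' ≤ J) (Box.plkC lam i₀) z ω', a3.1, a4])
  -- the rounding
  obtain ⟨B, hB⟩ : ∃ B, B = fun ω => ((F.res A True hl).T ω,
    (F.res A True hl).plab w lam i₀ z ω) := ⟨_, rfl⟩
  obtain ⟨Y, hY⟩ : ∃ Y : F.Ω → Fin m → ℤ, Y = ((F.res A True hl).plk w lam i₀ z).X P := ⟨_, rfl⟩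
  obtain ⟨X', hX'⟩ : ∃ X' : F.Ω → Fin m → ℤ,
    X' = rX ((F.res A True hl).box w (Box.plkC lam i₀) z) h P := ⟨_, rfl⟩
  have t2 : CH (F.res A True hl).p S (fun ω => (Y ω, B ω)) ≤
      δ + η / 4 * J + (2 * (m * Real.log (2 * b + 5)) + 3 * (m * Real.log 3)) := by
    have := see_plk (F.res A True hl) (by omega : w + P + lam ≤ J) hb hzb' S
      (hSv A (fun ω hω => hω) hA0) hrow
    rw [hY, hB]
    exact this
  have t3 : CH (F.res A True hl).p Y (fun ω => (X' ω, B ω)) ≤ m * Real.log 17 := by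
    have := rnd_near ((F.res A True hl).box w (Box.plkC lam i₀) z) h hP
      (fun ω => ((F.res A True hl).T ω, (F.res A True hl).plab w lam i₀ z ω))
    rw [hY, hX', hB]
    exact this
  have t4 : CH (F.res A True hl).p S (fun ω => (X' ω, B ω)) ≤
      δ + η / 4 * J + (2 * (m * Real.log (2 * b + 5)) + 3 * (m * Real.log 3)) +
        m * Real.log 17 := by
    have c1 := CH_le_add hl.nonneg S Y (fun ω => (X' ω, B ω))
    have c2 : CH (cond F.p A True) S (fun ω => (Y ω, (X' ω, B ω))) ≤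
        CH (cond F.p A True) S (fun ω => (Y ω, B ω)) :=
      CH_mono_cond hl.nonneg fun ω ω' _ _ hh => by
        have a1 := Prod.ext_iff.mp hh
        exact Prod.ext a1.1 (Prod.ext_iff.mp a1.2).2
    have t2' : CH (cond F.p A True) S (fun ω => (Y ω, B ω)) ≤
      δ + η / 4 * J + (2 * (m * Real.log (2 * b + 5)) + 3 * (m * Real.log 3)) := t2
    have t3' : CH (cond F.p A True) Y (fun ω => (X' ω, B ω)) ≤ m * Real.log 17 := t3
    change CH (cond F.p A True) S (fun ω => (X' ω, B ω)) ≤ _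
    linarith
  have t5 : CH (F.res A True hl).p S (fun ω => ((F.res A True hl).T ω,
      (rX ((F.res A True hl).box w (Box.plkC lam i₀) z) h P ω,
        (((F.res A True hl).box w (Box.plkC lam i₀) z).T1 J' ω,
          (F.res A True hl).blab w (Box.plkC lam i₀) z ω)))) ≤
      CH (F.res A True hl).p S (fun ω => (X' ω, B ω)) := by
    refine CH_mono_cond hl.nonneg fun ω ω' _ _ hh => ?_
    have a1 := Prod.ext_iff.mp hh
    have a2 := Prod.ext_iff.mp a1.2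
    have a3 := Prod.ext_iff.mp a2.2
    rw [hX', hB]
    exact Prod.ext a2.1 (Prod.ext a1.1 a3.2)
  have hCJ : Cs ≤ η / 4 * J := by
    rw [div_lt_iff₀ hη] at hJ2
    have := le_abs_self Cs
    linarith
  have t6 : CH (cond F.p A True) S
      (fun ω => ((((F.box w (Box.plkC lam i₀) z).trc J' h).rnd).X P ω,
        (((F.box w (Box.plkC lam i₀) z).trc J' h).rnd).W ω)) ≤
      δ + η / 4 * J + (2 * (m * Real.log (2 * b + 5)) + 3 * (m * Real.log 3)) +
        m * Real.log 17 + η / 4 * J := t1.trans (add_le_add (t5.trans t4) le_rfl)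
  have t7 : 0 ≤ η * (J : ℝ) := by positivity
  refine t6.trans ?_
  rw [hCs] at hCJ
  linarith

end Pool.ZCL
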