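import Pool.Agent.H89.ZCL.Pull
import Pool.Agent.H89.ZCL.See
import Pool.Agent.H78.GLM.Rel

/-!
# Change of box: polynomial labels

Two zooms of a family, at the windows `w` and `w + x`, with frames of precision `lam` and
`lam + β`. In the coordinates of the first zoom, the coordinates of the second zoom are affine
functions; their coefficients are functions of the labels of the two boxes. A polynomial label of
the second zoom, with passive coordinate `i₁ ≠ i₀`, is a polynomial label of the first zoom.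
-/

set_option autoImplicit false

namespace Pool.CHB

open Finset Real MvPolynomial
open Pool.Agent.H49.Ent Pool.Agent.H32.Dense Pool.STK Pool.KA Pool.KSAT Pool.K2S Pool.PB

variable {m J : ℕ}

/-- The labels of the boxes. -/
abbrev LB (m : ℕ) (ζ : Type) := ((ℕ × (Fin m → ℝ)) × ((Fin m → ℤ) × (Fin m → ℤ))) × ζ

section coef

variable {ζ : Type}

/-- The difference of the frames. -/
noncomputable def cK (lam : ℕ) (p q : LB m ζ) (j : Fin m) : ℝ := 2 ^ lam * (q.1.1.2 j - p.1.1.2 j)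

/-- The index of the window in the window. -/
noncomputable def cT (x : ℕ) (p q : LB m ζ) : ℝ := (q.1.1.1 : ℝ) - 2 ^ x * p.1.1.1

/-- The difference of the velocities. -/
noncomputable def cV (lam β : ℕ) (i₀ : Fin m) (p q : LB m ζ) (j : Fin m) : ℝ :=
  p.1.2.2 j - cK lam p q j * p.1.2.2 i₀ - q.1.2.2 j / 2 ^ β

/-- The difference of the positions. -/
noncomputable def cC (lam x β : ℕ) (i₀ : Fin m) (p q : LB m ζ) (j : Fin m) : ℝ :=
  p.1.2.1 j - cK lam p q j * p.1.2.1 i₀ - (q.1.2.1 j - cT x p q * q.1.2.2 j) / 2 ^ (x + β)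

/-- The difference of the positions of the chart coordinate. -/
noncomputable def cO (x : ℕ) (i₀ : Fin m) (p q : LB m ζ) : ℝ :=
  2 ^ x * p.1.2.1 i₀ - q.1.2.1 i₀ + cT x p q * q.1.2.2 i₀

/-- The linear part of the change of coordinates. -/
noncomputable def mA (lam x β : ℕ) (i₀ i₁ : Fin m) (p q : LB m ζ) (l k : Fin m) : ℝ :=
  if l = i₁ then (if k = i₁ then 2 ^ x else 0)
  else if l = i₀ then (if k = i₀ then 2 ^ x else 0)
  else 2 ^ (x + β) * ((if k = l then 1 else 0) - cK lam p q l * (if k = i₀ then 1 else 0) +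
    cV lam β i₀ p q l * (if k = i₁ then 1 else 0))

/-- The constant part of the change of coordinates. -/
noncomputable def mC (lam x β : ℕ) (i₀ i₁ : Fin m) (p q : LB m ζ) (l : Fin m) : ℝ :=
  if l = i₁ then - cT x p q else if l = i₀ then cO x i₀ p q
  else 2 ^ (x + β) * cC lam x β i₀ p q l

/-- The linear part of the new graph. -/
noncomputable def mL (lam β : ℕ) (i₀ i₁ : Fin m) (p q : LB m ζ) (k : Fin m) : ℝ :=
  cK lam p q i₁ * (if k = i₀ then 1 else 0) - cV lam β i₀ p q i₁ * (if k = i₁ then 1 else 0)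

/-- The change of coordinates. -/
noncomputable def mv (lam x β : ℕ) (i₀ i₁ : Fin m) (p q : LB m ζ) : (Fin m → ℝ) → Fin m → ℝ :=
  aff (mA lam x β i₀ i₁ p q) (mC lam x β i₀ i₁ p q)

/-- The graph in the new coordinates. -/
noncomputable def npl (lam x β : ℕ) (i₀ i₁ : Fin m) (p q : LB m ζ)
    (P : MvPolynomial (Fin m) ℝ) : MvPolynomial (Fin m) ℝ :=
  pull (mA lam x β i₀ i₁ p q) (mC lam x β i₀ i₁ p q) (mL lam β i₀ i₁ p q)
    (- cC lam x β i₀ p q i₁) (1 / 2 ^ (x + β)) P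

theorem mv_eq (lam x β : ℕ) (i₀ i₁ : Fin m) (p q : LB m ζ) (b : Fin m → ℝ) (l : Fin m) :
    mv lam x β i₀ i₁ p q b l = if l = i₁ then 2 ^ x * b i₁ - cT x p q
      else if l = i₀ then 2 ^ x * b i₀ + cO x i₀ p q
      else 2 ^ (x + β) * (b l - cK lam p q l * b i₀ + cV lam β i₀ p q l * b i₁ +
        cC lam x β i₀ p q l) := by
  classical
  unfold mv aff mA mC
  split_ifs with h1 h2
  · simp
    ring
  · simp
  · have : ∀ k : Fin m, 2 ^ (x + β) * ((if k = l then (1 : ℝ) else 0) -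
        cK lam p q l * (if k = i₀ then 1 else 0) +
        cV lam β i₀ p q l * (if k = i₁ then 1 else 0)) * b k =
        2 ^ (x + β) * ((if k = l then b k else 0) - cK lam p q l * (if k = i₀ then b k else 0) +
          cV lam β i₀ p q l * (if k = i₁ then b k else 0)) := fun k => by
      split_ifs <;> ring
    rw [Finset.sum_congr rfl fun k _ => this k, ← Finset.mul_sum, Finset.sum_add_distrib,
      Finset.sum_sub_distrib, ← Finset.mul_sum, ← Finset.mul_sum]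
    simp only [Finset.sum_ite_eq', Finset.mem_univ, if_true]
    ring

theorem eval_npl (lam x β : ℕ) (i₀ i₁ : Fin m) (p q : LB m ζ) (P : MvPolynomial (Fin m) ℝ)
    (b : Fin m → ℝ) : eval b (npl lam x β i₀ i₁ p q P) =
      cK lam p q i₁ * b i₀ - cV lam β i₀ p q i₁ * b i₁ - cC lam x β i₀ p q i₁ +
        1 / 2 ^ (x + β) * eval (mv lam x β i₀ i₁ p q b) P := by
  classical
  unfold npl
  rw [eval_pull]
  have : ∑ k, mL lam β i₀ i₁ p q k * b k =
      cK lam p q i₁ * b i₀ - cV lam β i₀ p q i₁ * b i₁ := by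
    unfold mL
    have : ∀ k : Fin m, (cK lam p q i₁ * (if k = i₀ then 1 else 0) -
        cV lam β i₀ p q i₁ * (if k = i₁ then 1 else 0)) * b k =
        cK lam p q i₁ * (if k = i₀ then b k else 0) -
        cV lam β i₀ p q i₁ * (if k = i₁ then b k else 0) := fun k => by
      split_ifs <;> ring
    rw [Finset.sum_congr rfl fun k _ => this k, Finset.sum_sub_distrib, ← Finset.mul_sum,
      ← Finset.mul_sum]
    simp only [Finset.sum_ite_eq', Finset.mem_univ, if_true]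
  rw [this]
  unfold mv
  ring

theorem totalDegree_npl (lam x β : ℕ) (i₀ i₁ : Fin m) (p q : LB m ζ)
    {P : MvPolynomial (Fin m) ℝ} {K : ℕ} (hP : P.totalDegree ≤ K) :
    (npl lam x β i₀ i₁ p q P).totalDegree ≤ max K 1 := totalDegree_pull _ _ _ _ _ hP

/-- The change of coordinates is Lipschitz. -/
theorem mv_lip {lam x β : ℕ} {i₀ i₁ : Fin m} {p q : LB m ζ}
    (hK : ∀ j, |cK lam p q j| ≤ 1) (hV : ∀ j, j ≠ i₀ → |cV lam β i₀ p q j| ≤ 2)
    {b b' : Fin m → ℝ} {δ : ℝ}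
    (hb : ∀ j, |b j - b' j| ≤ δ) (l : Fin m) :
    |mv lam x β i₀ i₁ p q b l - mv lam x β i₀ i₁ p q b' l| ≤ 4 * 2 ^ (x + β) * δ := by
  have p1 : (1 : ℝ) ≤ 2 ^ β := one_le_pow₀ (by norm_num)
  have p2 : (0 : ℝ) < 2 ^ x := by positivity
  have hx : (2 : ℝ) ^ x ≤ 2 ^ (x + β) := by
    rw [pow_add]
    nlinarith only [p1, p2]
  have hδ : 0 ≤ δ := (abs_nonneg _).trans (hb l)
  have p3 : (0 : ℝ) < 2 ^ (x + β) := by positivity
  have h4 : (2 : ℝ) ^ x * δ ≤ 4 * 2 ^ (x + β) * δ := by nlinarith only [p2, hδ, hx]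
  rw [mv_eq, mv_eq]
  split_ifs with h1 h2
  · have e : 2 ^ x * b i₁ - cT x p q - (2 ^ x * b' i₁ - cT x p q) = 2 ^ x * (b i₁ - b' i₁) := by
      ring
    rw [e, abs_mul, abs_of_pos p2]
    exact (mul_le_mul_of_nonneg_left (hb i₁) p2.le).trans h4
  · have e : 2 ^ x * b i₀ + cO x i₀ p q - (2 ^ x * b' i₀ + cO x i₀ p q) =
        2 ^ x * (b i₀ - b' i₀) := by ring
    rw [e, abs_mul, abs_of_pos p2]
    exact (mul_le_mul_of_nonneg_left (hb i₀) p2.le).trans h4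
  · have e : 2 ^ (x + β) * (b l - cK lam p q l * b i₀ + cV lam β i₀ p q l * b i₁ +
        cC lam x β i₀ p q l) - 2 ^ (x + β) * (b' l - cK lam p q l * b' i₀ +
        cV lam β i₀ p q l * b' i₁ + cC lam x β i₀ p q l) =
        2 ^ (x + β) * ((b l - b' l) - cK lam p q l * (b i₀ - b' i₀) +
          cV lam β i₀ p q l * (b i₁ - b' i₁)) := by ring
    rw [e, abs_mul, abs_of_pos p3]
    have g1 : |cK lam p q l * (b i₀ - b' i₀)| ≤ 1 * δ := by
      rw [abs_mul]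
      exact mul_le_mul (hK l) (hb i₀) (abs_nonneg _) (by norm_num)
    have g2 : |cV lam β i₀ p q l * (b i₁ - b' i₁)| ≤ 2 * δ := by
      rw [abs_mul]
      exact mul_le_mul (hV l h2) (hb i₁) (abs_nonneg _) (by norm_num)
    have g3 : |(b l - b' l) - cK lam p q l * (b i₀ - b' i₀) +
        cV lam β i₀ p q l * (b i₁ - b' i₁)| ≤ 4 * δ := by
      have := hb l
      rw [abs_le] at this g1 g2 ⊢
      constructor <;> linarith only [g1, g2, this, this.1, this.2, g1.1, g1.2, g2.1, g2.2]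
    calc _ ≤ 2 ^ (x + β) * (4 * δ) := mul_le_mul_of_nonneg_left g3 p3.le
      _ = _ := by ring

/-- The gradient in the new coordinates. -/
theorem npl_grad {lam x β : ℕ} {i₀ i₁ : Fin m} (hi : i₁ ≠ i₀) {p q : LB m ζ}
    (hK : ∀ j, |cK lam p q j| ≤ 1) (hV : ∀ j, j ≠ i₀ → |cV lam β i₀ p q j| ≤ 2)
    {P : MvPolynomial (Fin m) ℝ} {b : Fin m → ℝ} {s : ℝ}
    (hs : ∀ l, |eval (mv lam x β i₀ i₁ p q b) (pderiv l P)| ≤ s) (k : Fin m) :
    |eval b (pderiv k (npl lam x β i₀ i₁ p q P))| ≤ 3 + 4 * m * s := by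
  have hs0 : 0 ≤ s := (abs_nonneg _).trans (hs k)
  have p1 : (1 : ℝ) ≤ 2 ^ β := one_le_pow₀ (by norm_num)
  have p2 : (0 : ℝ) < 2 ^ x := by positivity
  have hx : (2 : ℝ) ^ x ≤ 2 ^ (x + β) := by
    rw [pow_add]
    nlinarith only [p1, p2]
  have p3 : (0 : ℝ) < 2 ^ (x + β) := by positivity
  have hA : ∀ l, |mA lam x β i₀ i₁ p q l k| ≤ 4 * 2 ^ (x + β) := by
    intro l
    unfold mA
    by_cases h1 : l = i₁
    · rw [if_pos h1, abs_le]
      split_ifs <;> constructor <;> linarith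
    rw [if_neg h1]
    by_cases h2 : l = i₀
    · rw [if_pos h2, abs_le]
      split_ifs <;> constructor <;> linarith
    rw [if_neg h2]
    have g1 := abs_le.1 (hK l)
    have g2 := abs_le.1 (hV l h2)
    rw [abs_mul, abs_of_pos p3, mul_comm 4 ((2 : ℝ) ^ (x + β))]
    refine mul_le_mul_of_nonneg_left ?_ p3.le
    rw [abs_le]
    split_ifs <;> constructor <;> linarith [g1.1, g1.2, g2.1, g2.2]
  unfold npl
  rw [eval_pderiv_pull]
  have h1 : |mL lam β i₀ i₁ p q k| ≤ 3 := by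
    unfold mL
    have g1 := abs_le.1 (hK i₁)
    have g2 := abs_le.1 (hV i₁ hi)
    rw [abs_le]
    split_ifs <;> constructor <;> linarith [g1.1, g1.2, g2.1, g2.2]
  have h2 : |1 / 2 ^ (x + β) * ∑ l, mA lam x β i₀ i₁ p q l k *
      eval (aff (mA lam x β i₀ i₁ p q) (mC lam x β i₀ i₁ p q) b) (pderiv l P)| ≤
      4 * m * s := by
    rw [abs_mul, abs_of_pos (by positivity : (0 : ℝ) < 1 / 2 ^ (x + β))]
    have h3 : |∑ l, mA lam x β i₀ i₁ p q l k *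
        eval (aff (mA lam x β i₀ i₁ p q) (mC lam x β i₀ i₁ p q) b) (pderiv l P)| ≤
        ∑ _l : Fin m, 4 * 2 ^ (x + β) * s := by
      refine (Finset.abs_sum_le_sum_abs _ _).trans (Finset.sum_le_sum fun l _ => ?_)
      rw [abs_mul]
      exact mul_le_mul (hA l) (hs l) (abs_nonneg _) (by positivity)
    rw [Finset.sum_const, Finset.card_univ, Fintype.card_fin, nsmul_eq_mul] at h3
    calc _ ≤ 1 / 2 ^ (x + β) * (m * (4 * 2 ^ (x + β) * s)) :=
          mul_le_mul_of_nonneg_left h3 (by positivity)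
      _ = _ := by
          field_simp
  exact (abs_add_le _ _).trans (add_le_add h1 h2)

end coef

/-! ### Two boxes -/

section boxes

variable (F : Fam m J) {w lam x β : ℕ} {i₀ i₁ : Fin m} (z z' : F.Ω → Fin m → ℝ)

/-- The times in the boxes. -/
theorem box_tt (hw : w + x ≤ J) (ω : F.Ω) :
    (F.box (w + x) (Box.plkC (lam + β) i₀) z').t ω =
      2 ^ x * (F.box w (Box.plkC lam i₀) z).t ω -
      cT x (F.blab w (Box.plkC lam i₀) z ω) (F.blab (w + x) (Box.plkC (lam + β) i₀) z' ω) := by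
  have h1 := Box.box_t F (w := w) (by omega) (Box.plkC lam i₀) z ω
  have h2 := Box.box_t F (w := w + x) hw (Box.plkC (lam + β) i₀) z' ω
  rw [h1] at h2
  have e : cT x (F.blab w (Box.plkC lam i₀) z ω) (F.blab (w + x) (Box.plkC (lam + β) i₀) z' ω) =
      (F.T1 (w + x) ω : ℝ) - 2 ^ x * F.T1 w ω := rfl
  rw [e]
  have p1 : (2 : ℝ) ^ (w + x) = 2 ^ w * 2 ^ x := pow_add _ _ _
  have p2 : (0 : ℝ) < 2 ^ w := by positivity
  have p3 : (0 : ℝ) < 2 ^ x := by positivity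
  rw [p1] at h2
  field_simp at h2
  linarith only [h2]

/-- The velocities of the chart coordinate. -/
theorem vel_zero (ω : F.Ω) : F.bvl (Box.plkC (lam + β) i₀) z' ω i₀ =
    F.bvl (Box.plkC lam i₀) z ω i₀ := by
  have e : ∀ (l : ℕ) (y : F.Ω → Fin m → ℝ), F.bvl (Box.plkC l i₀) y ω i₀ =
      ⌊(2 : ℝ) ^ 0 * F.d ω i₀⌋ := by
    intro l y
    change ⌊(2 : ℝ) ^ 0 * pco l i₀ (y ω) (F.d ω) i₀⌋ = _
    unfold pco
    rw [if_pos rfl]
  rw [e, e]

/-- The coordinates of a vector. -/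
theorem pco_chg (lam β : ℕ) (i₀ : Fin m) (z z' y : Fin m → ℝ) {j : Fin m} (hj : j ≠ i₀) :
    pco (lam + β) i₀ z' y j = 2 ^ β * (pco lam i₀ z y j - 2 ^ lam * (z' j - z j) * pco lam i₀ z y i₀) := by
  unfold pco
  rw [if_neg hj, if_neg hj, if_pos rfl, pow_add]
  ring

/-- The velocities in the boxes. -/
theorem box_dd (hj : i₁ ≠ i₀) (ω : F.Ω) :
    (F.box (w + x) (Box.plkC (lam + β) i₀) z').d ω i₁ + F.bvl (Box.plkC (lam + β) i₀) z' ω i₁ =
      2 ^ β * ((F.box w (Box.plkC lam i₀) z).d ω i₁ + F.bvl (Box.plkC lam i₀) z ω i₁ -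
        cK lam (F.blab w (Box.plkC lam i₀) z ω) (F.blab (w + x) (Box.plkC (lam + β) i₀) z' ω) i₁ *
        ((F.box w (Box.plkC lam i₀) z).d ω i₀ + F.bvl (Box.plkC lam i₀) z ω i₀)) := by
  have h1 := Box.bvl_eq F (w + x) (Box.plkC (lam + β) i₀) z' ω i₁
  have h2 := Box.bvl_eq F w (Box.plkC lam i₀) z ω i₁
  have h3 := Box.bvl_eq F w (Box.plkC lam i₀) z ω i₀
  have h4 := pco_chg lam β i₀ (z ω) (z' ω) (F.d ω) hj
  have e1 : (Box.plkC (lam + β) i₀).L (z' ω) (F.d ω) i₁ = pco (lam + β) i₀ (z' ω) (F.d ω) i₁ := rfl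
  have e2 : (Box.plkC lam i₀).L (z ω) (F.d ω) i₁ = pco lam i₀ (z ω) (F.d ω) i₁ := rfl
  have e3 : (Box.plkC lam i₀).L (z ω) (F.d ω) i₀ = pco lam i₀ (z ω) (F.d ω) i₀ := rfl
  have e4 : cK lam (F.blab w (Box.plkC lam i₀) z ω)
      (F.blab (w + x) (Box.plkC (lam + β) i₀) z' ω) i₁ = 2 ^ lam * (z' ω i₁ - z ω i₁) := rfl
  rw [e1] at h1
  rw [e2] at h2
  rw [e3] at h3
  rw [e4, add_comm, ← h1, h4, h2, h3]
  ring

/-- The velocities of the chart coordinate in the boxes. -/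
theorem box_d0 (ω : F.Ω) : (F.box (w + x) (Box.plkC (lam + β) i₀) z').d ω i₀ =
    (F.box w (Box.plkC lam i₀) z).d ω i₀ := by
  have e : ∀ (v l : ℕ) (y : F.Ω → Fin m → ℝ), (F.box v (Box.plkC l i₀) y).d ω i₀ =
      Int.fract (F.d ω i₀) := by
    intro v l y
    change Int.fract (pco l i₀ (y ω) (F.d ω) i₀) = _
    unfold pco
    rw [if_pos rfl]
  rw [e, e]

/-- The difference of the velocities. -/
theorem cV_le (hj : i₁ ≠ i₀) {ω : F.Ω} (hz : |z' ω i₁ - z ω i₁| ≤ 1 / 2 ^ lam) :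
    |cK lam (F.blab w (Box.plkC lam i₀) z ω)
      (F.blab (w + x) (Box.plkC (lam + β) i₀) z' ω) i₁| ≤ 1 ∧
    |cV lam β i₀ (F.blab w (Box.plkC lam i₀) z ω)
      (F.blab (w + x) (Box.plkC (lam + β) i₀) z' ω) i₁| ≤ 2 := by
  have hK : |cK lam (F.blab w (Box.plkC lam i₀) z ω)
      (F.blab (w + x) (Box.plkC (lam + β) i₀) z' ω) i₁| ≤ 1 := by
    change |(2 : ℝ) ^ lam * (z' ω i₁ - z ω i₁)| ≤ 1
    have p0 : (0 : ℝ) < 2 ^ lam := by positivity
    rw [abs_mul, abs_of_pos p0]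
    rw [le_div_iff₀ p0] at hz
    linarith only [hz]
  refine ⟨hK, ?_⟩
  have h1 := box_dd F (w := w) (x := x) (lam := lam) (β := β) z z' hj ω
  obtain ⟨κ, hκ⟩ : ∃ κ, κ = cK lam (F.blab w (Box.plkC lam i₀) z ω)
      (F.blab (w + x) (Box.plkC (lam + β) i₀) z' ω) i₁ := ⟨_, rfl⟩
  have e1 : cV lam β i₀ (F.blab w (Box.plkC lam i₀) z ω)
      (F.blab (w + x) (Box.plkC (lam + β) i₀) z' ω) i₁ =
      F.bvl (Box.plkC lam i₀) z ω i₁ - κ * F.bvl (Box.plkC lam i₀) z ω i₀ -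
        F.bvl (Box.plkC (lam + β) i₀) z' ω i₁ / 2 ^ β := by
    rw [hκ]
    rfl
  have m1 := Box.d_mem F w (Box.plkC lam i₀) z ω i₁
  have m2 := Box.d_mem F w (Box.plkC lam i₀) z ω i₀
  have m3 := Box.d_mem F (w + x) (Box.plkC (lam + β) i₀) z' ω i₁
  rw [← hκ] at h1 hK
  obtain ⟨D, hD⟩ : ∃ D, D = (F.box (w + x) (Box.plkC (lam + β) i₀) z').d ω i₁ := ⟨_, rfl⟩
  obtain ⟨d, hd⟩ : ∃ d, d = (F.box w (Box.plkC lam i₀) z).d ω i₁ := ⟨_, rfl⟩
  obtain ⟨d₀, hd₀⟩ : ∃ d₀, d₀ = (F.box w (Box.plkC lam i₀) z).d ω i₀ := ⟨_, rfl⟩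
  rw [← hD, ← hd, ← hd₀] at h1
  rw [← hd] at m1
  rw [← hd₀] at m2
  rw [← hD] at m3
  have p1 : (1 : ℝ) ≤ 2 ^ β := one_le_pow₀ (by norm_num)
  have p2 : (0 : ℝ) < 2 ^ β := by linarith only [p1]
  have e2 : cV lam β i₀ (F.blab w (Box.plkC lam i₀) z ω)
      (F.blab (w + x) (Box.plkC (lam + β) i₀) z' ω) i₁ = D / 2 ^ β - d + κ * d₀ := by
    rw [e1]
    field_simp
    linarith only [h1]
  have h3 : 0 ≤ D / 2 ^ β := div_nonneg m3.1 p2.le
  have h4 : D / 2 ^ β ≤ 1 := by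
    rw [div_le_one p2]
    linarith only [m3, p1]
  have h5 := abs_le.1 hK
  rw [e2, abs_le]
  constructor <;> nlinarith [m1.1, m1.2, m2.1, m2.2, h5.1, h5.2]

/-- The positions in the boxes, coordinate `i₀`. -/
theorem box_x0 (hw : w + x ≤ J) (ω : F.Ω) :
    (F.box (w + x) (Box.plkC (lam + β) i₀) z').x ω i₀ =
      2 ^ x * (F.box w (Box.plkC lam i₀) z).x ω i₀ +
      cO x i₀ (F.blab w (Box.plkC lam i₀) z ω) (F.blab (w + x) (Box.plkC (lam + β) i₀) z' ω) := by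
  have h1 := Box.box_x F (w := w) (by omega) (Box.plkC lam i₀) z ω i₀
  have h2 := Box.box_x F (w := w + x) hw (Box.plkC (lam + β) i₀) z' ω i₀
  have h3 := box_tt F (lam := lam) (β := β) (i₀ := i₀) z z' hw ω
  have h4 := vel_zero F (lam := lam) (β := β) (i₀ := i₀) z z' ω
  have e1 : (Box.plkC (lam + β) i₀).L (z' ω) (F.x ω) i₀ = F.x ω i₀ := by
    change pco (lam + β) i₀ (z' ω) (F.x ω) i₀ = _
    unfold pco
    rw [if_pos rfl]
  have e2 : (Box.plkC lam i₀).L (z ω) (F.x ω) i₀ = F.x ω i₀ := by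
    change pco lam i₀ (z ω) (F.x ω) i₀ = _
    unfold pco
    rw [if_pos rfl]
  rw [e1] at h2
  rw [e2] at h1
  obtain ⟨cc, hcc⟩ : ∃ cc, cc = cT x (F.blab w (Box.plkC lam i₀) z ω)
    (F.blab (w + x) (Box.plkC (lam + β) i₀) z' ω) := ⟨_, rfl⟩
  have e3 : cO x i₀ (F.blab w (Box.plkC lam i₀) z ω)
      (F.blab (w + x) (Box.plkC (lam + β) i₀) z' ω) =
      2 ^ x * (F.bcl w (Box.plkC lam i₀) z ω i₀ : ℝ) -
        (F.bcl (w + x) (Box.plkC (lam + β) i₀) z' ω i₀ : ℝ) +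
        cc * (F.bvl (Box.plkC (lam + β) i₀) z' ω i₀ : ℝ) := by
    rw [hcc]
    rfl
  rw [← hcc] at h3
  rw [e3, h4]
  rw [h4, h3] at h2
  have p1 : (2 : ℝ) ^ (w + x) = 2 ^ w * 2 ^ x := pow_add _ _ _
  rw [p1] at h2
  have h5 : 2 ^ x * (2 ^ w * F.x ω i₀) = 2 ^ x * ((F.box w (Box.plkC lam i₀) z).x ω i₀ +
      F.bcl w (Box.plkC lam i₀) z ω i₀ + (F.box w (Box.plkC lam i₀) z).t ω *
      F.bvl (Box.plkC lam i₀) z ω i₀) := by rw [h1]
  linarith only [h2, h5]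

/-- The positions in the boxes, the other coordinates. -/
theorem box_xj (hw : w + x ≤ J) (hj : i₁ ≠ i₀) (ω : F.Ω) :
    (F.box (w + x) (Box.plkC (lam + β) i₀) z').x ω i₁ = 2 ^ (x + β) *
      ((F.box w (Box.plkC lam i₀) z).x ω i₁ -
        cK lam (F.blab w (Box.plkC lam i₀) z ω) (F.blab (w + x) (Box.plkC (lam + β) i₀) z' ω) i₁ *
          (F.box w (Box.plkC lam i₀) z).x ω i₀ +
        cV lam β i₀ (F.blab w (Box.plkC lam i₀) z ω)
          (F.blab (w + x) (Box.plkC (lam + β) i₀) z' ω) i₁ *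
          (F.box w (Box.plkC lam i₀) z).t ω +
        cC lam x β i₀ (F.blab w (Box.plkC lam i₀) z ω)
          (F.blab (w + x) (Box.plkC (lam + β) i₀) z' ω) i₁) := by
  have h1 := Box.box_x F (w := w) (by omega) (Box.plkC lam i₀) z ω i₁
  have h0 := Box.box_x F (w := w) (by omega) (Box.plkC lam i₀) z ω i₀
  have h2 := Box.box_x F (w := w + x) hw (Box.plkC (lam + β) i₀) z' ω i₁
  have h3 := box_tt F (lam := lam) (β := β) (i₀ := i₀) z z' hw ω
  have h4 := pco_chg lam β i₀ (z ω) (z' ω) (F.x ω) hj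
  have e1 : (Box.plkC (lam + β) i₀).L (z' ω) (F.x ω) i₁ = pco (lam + β) i₀ (z' ω) (F.x ω) i₁ := rfl
  have e2 : (Box.plkC lam i₀).L (z ω) (F.x ω) i₁ = pco lam i₀ (z ω) (F.x ω) i₁ := rfl
  have e3 : (Box.plkC lam i₀).L (z ω) (F.x ω) i₀ = pco lam i₀ (z ω) (F.x ω) i₀ := rfl
  rw [e1, h4] at h2
  rw [e2] at h1
  rw [e3] at h0
  obtain ⟨cc, hcc⟩ : ∃ cc, cc = cT x (F.blab w (Box.plkC lam i₀) z ω)
    (F.blab (w + x) (Box.plkC (lam + β) i₀) z' ω) := ⟨_, rfl⟩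
  obtain ⟨κ, hκ⟩ : ∃ κ, κ = cK lam (F.blab w (Box.plkC lam i₀) z ω)
      (F.blab (w + x) (Box.plkC (lam + β) i₀) z' ω) i₁ := ⟨_, rfl⟩
  have e4 : cV lam β i₀ (F.blab w (Box.plkC lam i₀) z ω)
      (F.blab (w + x) (Box.plkC (lam + β) i₀) z' ω) i₁ =
      F.bvl (Box.plkC lam i₀) z ω i₁ - κ * F.bvl (Box.plkC lam i₀) z ω i₀ -
        F.bvl (Box.plkC (lam + β) i₀) z' ω i₁ / 2 ^ β := by
    rw [hκ]
    rfl
  have e5 : cC lam x β i₀ (F.blab w (Box.plkC lam i₀) z ω)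
      (F.blab (w + x) (Box.plkC (lam + β) i₀) z' ω) i₁ =
      F.bcl w (Box.plkC lam i₀) z ω i₁ - κ * F.bcl w (Box.plkC lam i₀) z ω i₀ -
        (F.bcl (w + x) (Box.plkC (lam + β) i₀) z' ω i₁ -
          cc * F.bvl (Box.plkC (lam + β) i₀) z' ω i₁) / 2 ^ (x + β) := by
    rw [hκ, hcc]
    rfl
  have e6 : (2 : ℝ) ^ lam * (z' ω i₁ - z ω i₁) = κ := by
    rw [hκ]
    rfl
  exact by
   rw [← hcc] at h3
   rw [← hκ, e4, e5]
   rw [e6, h3] at h2
   obtain ⟨Y, hY⟩ : ∃ Y, Y = (F.box (w + x) (Box.plkC (lam + β) i₀) z').x ω i₁ := ⟨_, rfl⟩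
   obtain ⟨y₁, hy₁⟩ : ∃ y₁, y₁ = (F.box w (Box.plkC lam i₀) z).x ω i₁ := ⟨_, rfl⟩
   obtain ⟨y₀, hy₀⟩ : ∃ y₀, y₀ = (F.box w (Box.plkC lam i₀) z).x ω i₀ := ⟨_, rfl⟩
   obtain ⟨t, ht⟩ : ∃ t, t = (F.box w (Box.plkC lam i₀) z).t ω := ⟨_, rfl⟩
   obtain ⟨C₁, hC₁⟩ : ∃ C₁ : ℝ, C₁ = F.bcl w (Box.plkC lam i₀) z ω i₁ := ⟨_, rfl⟩
   obtain ⟨C₀, hC₀⟩ : ∃ C₀ : ℝ, C₀ = F.bcl w (Box.plkC lam i₀) z ω i₀ := ⟨_, rfl⟩
   obtain ⟨V₁, hV₁⟩ : ∃ V₁ : ℝ, V₁ = F.bvl (Box.plkC lam i₀) z ω i₁ := ⟨_, rfl⟩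
   obtain ⟨V₀, hV₀⟩ : ∃ V₀ : ℝ, V₀ = F.bvl (Box.plkC lam i₀) z ω i₀ := ⟨_, rfl⟩
   obtain ⟨C', hC'⟩ : ∃ C' : ℝ, C' = F.bcl (w + x) (Box.plkC (lam + β) i₀) z' ω i₁ := ⟨_, rfl⟩
   obtain ⟨V', hV'⟩ : ∃ V' : ℝ, V' = F.bvl (Box.plkC (lam + β) i₀) z' ω i₁ := ⟨_, rfl⟩
   obtain ⟨P₁, hP₁⟩ : ∃ P₁, P₁ = pco lam i₀ (z ω) (F.x ω) i₁ := ⟨_, rfl⟩
   obtain ⟨P₀, hP₀⟩ : ∃ P₀, P₀ = pco lam i₀ (z ω) (F.x ω) i₀ := ⟨_, rfl⟩
   rw [← hY, ← hP₁, ← hP₀, ← hC', ← hV', ← ht] at h2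
   rw [← hy₁, ← hP₁, ← hC₁, ← hV₁, ← ht] at h1
   rw [← hy₀, ← hP₀, ← hC₀, ← hV₀, ← ht] at h0
   rw [← hY, ← hy₁, ← hy₀, ← ht, ← hC₁, ← hC₀, ← hV₁, ← hV₀, ← hC', ← hV']
   have p1 : (2 : ℝ) ^ (w + x) = 2 ^ w * 2 ^ x := pow_add _ _ _
   have p2 : (2 : ℝ) ^ (x + β) = 2 ^ x * 2 ^ β := pow_add _ _ _
   have p3 : (0 : ℝ) < 2 ^ x := by positivity
   have p4 : (0 : ℝ) < 2 ^ β := by positivity
   have g1 : Y = 2 ^ x * 2 ^ β * (2 ^ w * P₁ - κ * (2 ^ w * P₀)) - C' - (2 ^ x * t - cc) * V' := by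
     have : 2 ^ (w + x) * (2 ^ β * (P₁ - κ * P₀)) =
         2 ^ x * 2 ^ β * (2 ^ w * P₁ - κ * (2 ^ w * P₀)) := by
       rw [p1]
       ring
     linarith only [h2, this]
   rw [g1, h1, h0, p2]
   field_simp
   ring

/-- The positions in the boxes. -/
theorem box_xx (hw : w + x ≤ J) (hi : i₁ ≠ i₀) (ω : F.Ω) (l : Fin m) :
    bp (F.box (w + x) (Box.plkC (lam + β) i₀) z') i₁ ω l =
      mv lam x β i₀ i₁ (F.blab w (Box.plkC lam i₀) z ω)
        (F.blab (w + x) (Box.plkC (lam + β) i₀) z' ω)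
        (bp (F.box w (Box.plkC lam i₀) z) i₁ ω) l := by
  have b1 : bp (F.box w (Box.plkC lam i₀) z) i₁ ω i₁ = (F.box w (Box.plkC lam i₀) z).t ω := by
    unfold bp
    rw [Function.update_self]
  have b2 : ∀ j, j ≠ i₁ → bp (F.box w (Box.plkC lam i₀) z) i₁ ω j =
      (F.box w (Box.plkC lam i₀) z).x ω j := by
    intro j hj
    unfold bp
    rw [Function.update_of_ne hj]
  rw [mv_eq]
  split_ifs with h1 h2
  · subst h1
    rw [b1]
    unfold bp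
    rw [Function.update_self]
    exact box_tt F z z' hw ω
  · subst h2
    rw [b2 l h1]
    unfold bp
    rw [Function.update_of_ne h1]
    exact box_x0 F z z' hw ω
  · rw [b2 l h1, b1, b2 i₀ (fun h => hi h.symm)]
    unfold bp
    rw [Function.update_of_ne h1]
    exact box_xj F z z' hw h2 ω

end boxes

/-! ### Rounding -/

/-- The positions of the zoom. -/
theorem zm_x {κ : Type} (F : Fam m J) {w J' : ℕ} (h : w + J' ≤ J) (C : Crd m κ) (g : F.Ω → κ)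
    (ω : F.Ω) (i : Fin m) : |(F.zm w J' h C g).x ω i - (F.box w C g).x ω i| ≤ 3 / 2 ^ J' :=
  Pool.ZCL.rnd_x_near (F.box w C g) (by omega) ω i

/-- The times of the zoom. -/
theorem zm_t {κ : Type} (F : Fam m J) {w J' : ℕ} (h : w + J' ≤ J) (C : Crd m κ) (g : F.Ω → κ)
    (ω : F.Ω) : |(F.zm w J' h C g).t ω - (F.box w C g).t ω| ≤ 1 / 2 ^ J' := by
  have h1 := Pool.KSAT.T1_real (F.box w C g) (g := J') (by omega) ω
  have e : (F.zm w J' h C g).t ω = ((F.box w C g).T1 J' ω : ℝ) / 2 ^ J' := rfl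
  have p : (0 : ℝ) < 2 ^ J' := by positivity
  have e2 : (F.zm w J' h C g).t ω - (F.box w C g).t ω =
      - ((2 ^ J' * (F.box w C g).t ω - (F.box w C g).T1 J' ω) / 2 ^ J') := by
    rw [e]
    field_simp
    ring
  rw [e2, abs_neg, abs_div, abs_of_pos p]
  refine div_le_div_of_nonneg_right ?_ p.le
  rw [abs_le]
  constructor <;> linarith only [h1, h1.1, h1.2]

/-- The velocities of the zoom. -/
theorem zm_d {κ : Type} (F : Fam m J) {w J' : ℕ} (h : w + J' ≤ J) (C : Crd m κ) (g : F.Ω → κ)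
    (ω : F.Ω) (i : Fin m) : |(F.zm w J' h C g).d ω i - (F.box w C g).d ω i| ≤ 1 / 2 ^ J' := by
  have e : (F.zm w J' h C g).d ω i = (⌊(2 : ℝ) ^ J' * (F.box w C g).d ω i⌋ : ℝ) / 2 ^ J' := rfl
  have p : (0 : ℝ) < 2 ^ J' := by positivity
  have a1 := Int.floor_le ((2 : ℝ) ^ J' * (F.box w C g).d ω i)
  have a2 := Int.lt_floor_add_one ((2 : ℝ) ^ J' * (F.box w C g).d ω i)
  have e2 : (F.zm w J' h C g).d ω i - (F.box w C g).d ω i =
      - ((2 ^ J' * (F.box w C g).d ω i - ⌊(2 : ℝ) ^ J' * (F.box w C g).d ω i⌋) / 2 ^ J') := by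
    rw [e]
    field_simp
    ring
  rw [e2, abs_neg, abs_div, abs_of_pos p]
  refine div_le_div_of_nonneg_right ?_ p.le
  rw [abs_le]
  constructor <;> linarith

/-- The base point of the zoom. -/
theorem zm_bp {κ : Type} (F : Fam m J) {w J' : ℕ} (h : w + J' ≤ J) (C : Crd m κ) (g : F.Ω → κ)
    (i₁ : Fin m) (ω : F.Ω) (l : Fin m) :
    |bp (F.zm w J' h C g) i₁ ω l - bp (F.box w C g) i₁ ω l| ≤ 3 / 2 ^ J' := by
  unfold bp
  by_cases hl : l = i₁
  · rw [hl, Function.update_self, Function.update_self]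
    refine (zm_t F h C g ω).trans ?_
    exact div_le_div_of_nonneg_right (by norm_num) (by positivity)
  · rw [Function.update_of_ne hl, Function.update_of_ne hl]
    exact zm_x F h C g ω l

/-! ### The label -/

/-- The degree of the remainder. -/
theorem lab_pt (F : Fam m J) {w lam x β Ja J0 : ℕ} (h0 : w + J0 ≤ J) (ha : w + x + Ja ≤ J)
    (hres : Ja + x + β ≤ J0) {i₀ i₁ : Fin m} (hi : i₁ ≠ i₀) (z z' : F.Ω → Fin m → ℝ) {ω : F.Ω}
    (hz : ∀ j, |z' ω j - z ω j| ≤ 1 / 2 ^ lam) {a P wz P0 c S : ℕ}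
    (hwz : a + x + β + 3 ≤ wz) (haJ : a + 5 ≤ Ja) (hP : P ≤ Ja)
    (hc : (16 : ℝ) + 30 * m ^ 2 ≤ 2 ^ c) (hP0 : P0 + c ≤ P + x + β)
    (hS : (3 : ℝ) + 8 * m ^ 2 ≤ 2 ^ S) {G H : MvPolynomial (Fin m) ℝ}
    (h1 : |(F.zm (w + x) Ja ha (Box.plkC (lam + β) i₀) z').x ω i₁ -
      eval (bp (F.zm (w + x) Ja ha (Box.plkC (lam + β) i₀) z') i₁ ω) G| ≤ 1 / 2 ^ P)
    (h2 : ∀ b : Fin m → ℝ, (∀ j, |b j -
      bp (F.zm (w + x) Ja ha (Box.plkC (lam + β) i₀) z') i₁ ω j| ≤ 1 / 2 ^ a) →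
      (∀ j, |eval b (pderiv j G)| ≤ 2 * m) ∧ |eval b G - eval b H| ≤ 1 / 2 ^ P) :
    |(F.zm w J0 h0 (Box.plkC lam i₀) z).x ω i₁ -
      eval (bp (F.zm w J0 h0 (Box.plkC lam i₀) z) i₁ ω)
        (npl lam x β i₀ i₁ (F.blab w (Box.plkC lam i₀) z ω)
          (F.blab (w + x) (Box.plkC (lam + β) i₀) z' ω) G)| ≤ 1 / 2 ^ P0 ∧
    ∀ b : Fin m → ℝ, (∀ j, |b j -
      bp (F.zm w J0 h0 (Box.plkC lam i₀) z) i₁ ω j| ≤ 1 / 2 ^ wz) →
      (∀ j, |eval b (pderiv j (npl lam x β i₀ i₁ (F.blab w (Box.plkC lam i₀) z ω)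
          (F.blab (w + x) (Box.plkC (lam + β) i₀) z' ω) G))| ≤ 2 ^ S) ∧
      |eval b (npl lam x β i₀ i₁ (F.blab w (Box.plkC lam i₀) z ω)
          (F.blab (w + x) (Box.plkC (lam + β) i₀) z' ω) G) -
        eval b (npl lam x β i₀ i₁ (F.blab w (Box.plkC lam i₀) z ω)
          (F.blab (w + x) (Box.plkC (lam + β) i₀) z' ω) H)| ≤ 1 / 2 ^ P0 := by
  obtain ⟨p, hp⟩ : ∃ p, p = F.blab w (Box.plkC lam i₀) z ω := ⟨_, rfl⟩
  obtain ⟨q, hq⟩ : ∃ q, q = F.blab (w + x) (Box.plkC (lam + β) i₀) z' ω := ⟨_, rfl⟩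
  obtain ⟨N, hN⟩ : ∃ N : ℝ, N = 2 ^ (x + β) := ⟨_, rfl⟩
  obtain ⟨b₀, hb₀⟩ : ∃ b₀, b₀ = bp (F.zm w J0 h0 (Box.plkC lam i₀) z) i₁ ω := ⟨_, rfl⟩
  obtain ⟨B₀, hB₀⟩ : ∃ B₀, B₀ = bp (F.box w (Box.plkC lam i₀) z) i₁ ω := ⟨_, rfl⟩
  obtain ⟨ba, hba⟩ : ∃ ba, ba = bp (F.zm (w + x) Ja ha (Box.plkC (lam + β) i₀) z') i₁ ω :=
    ⟨_, rfl⟩
  have hN0 : 0 < N := by rw [hN]; positivity
  have hm1 : (1 : ℝ) ≤ m := by
    have : 0 < m := Fin.pos i₀
    exact_mod_cast this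
  -- the powers
  have q1 : N / 2 ^ J0 ≤ 1 / 2 ^ Ja := by
    rw [hN, div_le_div_iff₀ (by positivity) (by positivity), ← pow_add, one_mul]
    exact pow_le_pow_right₀ (by norm_num) (by omega)
  have q2 : 4 * N * (1 / 2 ^ wz) ≤ 1 / 2 * (1 / 2 ^ a) := by
    have : (2 : ℝ) ^ wz ≥ 2 ^ (a + x + β + 3) := pow_le_pow_right₀ (by norm_num) hwz
    have e : (2 : ℝ) ^ (a + x + β + 3) = 2 ^ a * N * 8 := by
      rw [hN]
      ring
    rw [e] at this
    have h3 : (1 : ℝ) / 2 ^ wz ≤ 1 / (2 ^ a * N * 8) := one_div_le_one_div_of_le (by positivity) this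
    calc 4 * N * (1 / 2 ^ wz) ≤ 4 * N * (1 / (2 ^ a * N * 8)) :=
          mul_le_mul_of_nonneg_left h3 (by positivity)
      _ = _ := by
          field_simp
          norm_num
  have q3 : (15 : ℝ) / 2 ^ Ja ≤ 1 / 2 * (1 / 2 ^ a) := by
    have : (2 : ℝ) ^ Ja ≥ 2 ^ (a + 5) := pow_le_pow_right₀ (by norm_num) haJ
    have e : (2 : ℝ) ^ (a + 5) = 2 ^ a * 32 := by ring
    rw [e] at this
    have h3 : (15 : ℝ) / 2 ^ Ja ≤ 15 / (2 ^ a * 32) :=
      div_le_div_of_nonneg_left (by norm_num) (by positivity) this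
    refine h3.trans ?_
    rw [← mul_div_assoc, mul_one, div_le_div_iff₀ (by positivity) (by positivity)]
    have : (0 : ℝ) < 2 ^ a := by positivity
    nlinarith only [this]
  exact by
   have q4 : (1 : ℝ) / 2 ^ Ja ≤ 1 / 2 ^ P := inv_mono hP
   have q5 : (16 + 30 * (m : ℝ) ^ 2) * (1 / N * (1 / 2 ^ P)) ≤ 1 / 2 ^ P0 := by
     have e : (1 : ℝ) / N * (1 / 2 ^ P) = 1 / 2 ^ (P + x + β) := by
       rw [hN, one_div_mul_one_div, ← pow_add]
       congr 2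
       omega
     rw [e]
     have h3 : (1 : ℝ) / 2 ^ (P + x + β) ≤ 1 / 2 ^ (P0 + c) := inv_mono hP0
     calc _ ≤ (2 : ℝ) ^ c * (1 / 2 ^ (P0 + c)) :=
           mul_le_mul hc h3 (by positivity) (by positivity)
       _ = _ := by
           rw [pow_add]
           field_simp
   -- the coefficients
   have hK : ∀ j, |cK lam p q j| ≤ 1 := by
     intro j
     rw [hp, hq]
     change |(2 : ℝ) ^ lam * (z' ω j - z ω j)| ≤ 1
     have p0 : (0 : ℝ) < 2 ^ lam := by positivity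
     have h3 := hz j
     rw [abs_mul, abs_of_pos p0]
     rw [le_div_iff₀ p0] at h3
     linarith only [h3]
   have hV : ∀ j, j ≠ i₀ → |cV lam β i₀ p q j| ≤ 2 := by
     intro j hj
     rw [hp, hq]
     exact (cV_le F z z' hj (hz j)).2
   rw [← hb₀, ← hp, ← hq]
   rw [← hba] at h1 h2
   -- the base points
   exact by
    have d1 : ∀ l, |b₀ l - B₀ l| ≤ 3 / 2 ^ J0 := by
      intro l
      rw [hb₀, hB₀]
      exact zm_bp F h0 (Box.plkC lam i₀) z i₁ ω l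
    have d2 : ∀ l, |ba l - mv lam x β i₀ i₁ p q B₀ l| ≤ 3 / 2 ^ Ja := by
      intro l
      rw [hba, hp, hq, hB₀, ← box_xx F z z' (by omega) hi ω l]
      exact zm_bp F ha (Box.plkC (lam + β) i₀) z' i₁ ω l
    have d3 : ∀ l, |mv lam x β i₀ i₁ p q b₀ l - ba l| ≤ 15 / 2 ^ Ja := by
      intro l
      have g1 := mv_lip (x := x) (i₁ := i₁) hK hV d1 l
      have g2 := d2 l
      have g3 : 4 * 2 ^ (x + β) * (3 / 2 ^ J0) ≤ (12 : ℝ) / 2 ^ Ja := by
        rw [← hN]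
        calc 4 * N * (3 / 2 ^ J0) = 12 * (N / 2 ^ J0) := by ring
          _ ≤ 12 * (1 / 2 ^ Ja) := mul_le_mul_of_nonneg_left q1 (by norm_num)
          _ = _ := by ring
      have g4 : (15 : ℝ) / 2 ^ Ja = 12 / 2 ^ Ja + 3 / 2 ^ Ja := by ring
      rw [g4]
      have g5 := g1.trans g3
      rw [abs_le] at g2 g5 ⊢
      constructor <;> linarith only [g2, g5, g2.1, g2.2, g5.1, g5.2]
    have d4 : ∀ b : Fin m → ℝ, (∀ j, |b j - b₀ j| ≤ 1 / 2 ^ wz) → ∀ l,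
        |mv lam x β i₀ i₁ p q b l - ba l| ≤ 1 / 2 ^ a := by
      intro b hb l
      have g1 := mv_lip (x := x) (i₁ := i₁) hK hV hb l
      rw [← hN] at g1
      have g2 := d3 l
      have g3 := g1.trans q2
      have g4 := g2.trans q3
      rw [abs_le] at g3 g4 ⊢
      constructor <;> linarith only [g3, g4, g3.1, g3.2, g4.1, g4.2]
    exact by
     refine ⟨?_, fun b hb => ⟨fun j => ?_, ?_⟩⟩
     · -- the graph
       have f1 : B₀ i₁ = (F.box w (Box.plkC lam i₀) z).t ω := by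
         rw [hB₀]
         unfold bp
         rw [Function.update_self]
       have f2 : B₀ i₀ = (F.box w (Box.plkC lam i₀) z).x ω i₀ := by
         rw [hB₀]
         unfold bp
         rw [Function.update_of_ne (fun h => hi h.symm)]
       have f3 := box_xj F (w := w) (x := x) (lam := lam) (β := β) z z' (by omega) hi ω
       rw [← hp, ← hq, ← hN] at f3
       have f4 := zm_x F h0 (Box.plkC lam i₀) z ω i₁
       have f5 := zm_x F ha (Box.plkC (lam + β) i₀) z' ω i₁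
       -- the mean value
       have f6 : |eval (mv lam x β i₀ i₁ p q b₀) G - eval ba G| ≤
           2 * m * ∑ j : Fin m, |mv lam x β i₀ i₁ p q b₀ j - ba j| := by
         refine Pool.OVN.mean_value G ba (mv lam x β i₀ i₁ p q b₀) (2 * m) fun t t0 t1 j => ?_
         refine (h2 _ fun l => ?_).1 j
         have g1 := (d3 l).trans (q3.trans (by
           have : (0 : ℝ) < 1 / 2 ^ a := by positivity
           linarith only [this] : (1 : ℝ) / 2 * (1 / 2 ^ a) ≤ 1 / 2 ^ a))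
         have e : ba l + t * (mv lam x β i₀ i₁ p q b₀ l - ba l) - ba l =
             t * (mv lam x β i₀ i₁ p q b₀ l - ba l) := by ring
         rw [e, abs_mul, abs_of_nonneg t0]
         calc t * |mv lam x β i₀ i₁ p q b₀ l - ba l| ≤
             1 * |mv lam x β i₀ i₁ p q b₀ l - ba l| :=
               mul_le_mul_of_nonneg_right t1 (abs_nonneg _)
           _ ≤ _ := by rw [one_mul]; exact g1
       have f7 : ∑ j : Fin m, |mv lam x β i₀ i₁ p q b₀ j - ba j| ≤ m * (15 / 2 ^ Ja) := by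
         calc _ ≤ ∑ _j : Fin m, (15 : ℝ) / 2 ^ Ja := Finset.sum_le_sum fun j _ => d3 j
           _ = _ := by
               rw [Finset.sum_const, Finset.card_univ, Fintype.card_fin, nsmul_eq_mul]
       have f8 : |eval (mv lam x β i₀ i₁ p q b₀) G - eval ba G| ≤ 30 * m ^ 2 * (1 / 2 ^ Ja) := by
         refine f6.trans ((mul_le_mul_of_nonneg_left f7 (by positivity)).trans (le_of_eq ?_))
         ring
       rw [eval_npl]
       obtain ⟨Y, hY⟩ : ∃ Y, Y = (F.box (w + x) (Box.plkC (lam + β) i₀) z').x ω i₁ := ⟨_, rfl⟩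
       obtain ⟨Ya, hYa⟩ : ∃ Ya, Ya = (F.zm (w + x) Ja ha (Box.plkC (lam + β) i₀) z').x ω i₁ :=
         ⟨_, rfl⟩
       obtain ⟨y, hy⟩ : ∃ y, y = (F.box w (Box.plkC lam i₀) z).x ω i₁ := ⟨_, rfl⟩
       obtain ⟨y', hy'⟩ : ∃ y', y' = (F.zm w J0 h0 (Box.plkC lam i₀) z).x ω i₁ := ⟨_, rfl⟩
       rw [← hYa] at h1
       rw [← hYa, ← hY] at f5
       rw [← hy, ← hy'] at f4
       rw [← hY, ← hy, ← f1, ← f2] at f3
       rw [← hy', ← hN]
       obtain ⟨κ, hκ⟩ : ∃ κ, κ = cK lam p q i₁ := ⟨_, rfl⟩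
       obtain ⟨v, hv⟩ : ∃ v, v = cV lam β i₀ p q i₁ := ⟨_, rfl⟩
       obtain ⟨cc, hcc⟩ : ∃ cc, cc = cC lam x β i₀ p q i₁ := ⟨_, rfl⟩
       obtain ⟨E, hE⟩ : ∃ E, E = eval (mv lam x β i₀ i₁ p q b₀) G := ⟨_, rfl⟩
       obtain ⟨E', hE'⟩ : ∃ E', E' = eval ba G := ⟨_, rfl⟩
       have hκ1 : |κ| ≤ 1 := by rw [hκ]; exact hK i₁
       have hv1 : |v| ≤ 2 := by rw [hv]; exact hV i₁ hi
       rw [← hκ, ← hv, ← hcc] at f3
       rw [← hκ, ← hv, ← hcc, ← hE]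
       rw [← hE, ← hE'] at f8
       rw [← hE'] at h1
       have g1 : y = κ * B₀ i₀ - v * B₀ i₁ - cc + 1 / N * Y := by
         rw [f3]
         field_simp
         ring
       have g2 : y' - (κ * b₀ i₀ - v * b₀ i₁ - cc + 1 / N * E) =
           (y' - y) - κ * (b₀ i₀ - B₀ i₀) + v * (b₀ i₁ - B₀ i₁) + 1 / N * (Y - E) := by
         rw [g1]
         ring
       have g3 : |κ * (b₀ i₀ - B₀ i₀)| ≤ 1 * (3 / 2 ^ J0) := by
         rw [abs_mul]
         exact mul_le_mul hκ1 (d1 i₀) (abs_nonneg _) (by norm_num)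
       have g4 : |v * (b₀ i₁ - B₀ i₁)| ≤ 2 * (3 / 2 ^ J0) := by
         rw [abs_mul]
         exact mul_le_mul hv1 (d1 i₁) (abs_nonneg _) (by norm_num)
       have g5 : |Y - E| ≤ 3 / 2 ^ Ja + 1 / 2 ^ P + 30 * m ^ 2 * (1 / 2 ^ Ja) := by
         rw [abs_le] at f5 h1 f8 ⊢
         constructor <;> linarith only [f5, h1, f8, f5.1, f5.2, h1.1, h1.2, f8.1, f8.2]
       have g6 : |1 / N * (Y - E)| ≤ 1 / N * (3 / 2 ^ Ja + 1 / 2 ^ P + 30 * m ^ 2 * (1 / 2 ^ Ja)) := by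
         rw [abs_mul, abs_of_pos (by positivity : 0 < 1 / N)]
         exact mul_le_mul_of_nonneg_left g5 (by positivity)
       have g7 : (1 : ℝ) / 2 ^ J0 ≤ 1 / N * (1 / 2 ^ Ja) := by
         have : 1 / N * (N / 2 ^ J0) ≤ 1 / N * (1 / 2 ^ Ja) :=
           mul_le_mul_of_nonneg_left q1 (by positivity)
         refine le_trans (le_of_eq ?_) this
         field_simp
       have g8 : (3 : ℝ) / 2 ^ J0 + 1 * (3 / 2 ^ J0) + 2 * (3 / 2 ^ J0) = 12 * (1 / 2 ^ J0) := by ring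
       have g9 : 1 / N * (3 / 2 ^ Ja + 1 / 2 ^ P + 30 * (m : ℝ) ^ 2 * (1 / 2 ^ Ja)) =
           1 / N * (1 / 2 ^ P) + (3 + 30 * (m : ℝ) ^ 2) * (1 / N * (1 / 2 ^ Ja)) := by ring
       have g10 : 1 / N * ((1 : ℝ) / 2 ^ Ja) ≤ 1 / N * (1 / 2 ^ P) :=
         mul_le_mul_of_nonneg_left q4 (by positivity)
       have g11 : (15 + 30 * (m : ℝ) ^ 2) * (1 / N * (1 / 2 ^ Ja)) ≤
           (15 + 30 * (m : ℝ) ^ 2) * (1 / N * (1 / 2 ^ P)) :=
         mul_le_mul_of_nonneg_left g10 (by positivity)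
       have g12 : |y' - (κ * b₀ i₀ - v * b₀ i₁ - cc + 1 / N * E)| ≤
           (3 : ℝ) / 2 ^ J0 + 1 * (3 / 2 ^ J0) + 2 * (3 / 2 ^ J0) +
             1 / N * (3 / 2 ^ Ja + 1 / 2 ^ P + 30 * m ^ 2 * (1 / 2 ^ Ja)) := by
         rw [g2]
         rw [abs_le] at f4 g3 g4 g6 ⊢
         constructor <;> linarith only [f4, g3, g4, g6, f4.1, f4.2, g3.1, g3.2, g4.1, g4.2, g6.1, g6.2]
       refine g12.trans (le_trans ?_ q5)
       rw [g8, g9]
       have g13 : 12 * ((1 : ℝ) / 2 ^ J0) ≤ 12 * (1 / N * (1 / 2 ^ Ja)) :=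
         mul_le_mul_of_nonneg_left g7 (by norm_num)
       have g14 : (16 + 30 * (m : ℝ) ^ 2) * (1 / N * (1 / 2 ^ P)) =
           1 / N * (1 / 2 ^ P) + (15 + 30 * (m : ℝ) ^ 2) * (1 / N * (1 / 2 ^ P)) := by ring
       have g15 : (15 + 30 * (m : ℝ) ^ 2) * (1 / N * (1 / 2 ^ Ja)) =
           12 * (1 / N * (1 / 2 ^ Ja)) + (3 + 30 * (m : ℝ) ^ 2) * (1 / N * (1 / 2 ^ Ja)) := by ring
       linarith only [g7, g11]
     · -- the gradient
       have g1 := npl_grad hi hK hV (P := G) (b := b) (s := 2 * m)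
         (fun l => (h2 _ (d4 b hb)).1 l) j
       refine g1.trans (le_trans (le_of_eq ?_) hS)
       ring
     · -- the remainder
       rw [eval_npl, eval_npl, ← hN]
       have g1 := (h2 _ (d4 b hb)).2
       have e : cK lam p q i₁ * b i₀ - cV lam β i₀ p q i₁ * b i₁ - cC lam x β i₀ p q i₁ +
           1 / N * eval (mv lam x β i₀ i₁ p q b) G -
           (cK lam p q i₁ * b i₀ - cV lam β i₀ p q i₁ * b i₁ - cC lam x β i₀ p q i₁ +
           1 / N * eval (mv lam x β i₀ i₁ p q b) H) =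
           1 / N * (eval (mv lam x β i₀ i₁ p q b) G - eval (mv lam x β i₀ i₁ p q b) H) := by ring
       rw [e, abs_mul, abs_of_pos (by positivity : 0 < 1 / N)]
       refine (mul_le_mul_of_nonneg_left g1 (by positivity)).trans (le_trans ?_ q5)
       have : (0 : ℝ) < 1 / N * (1 / 2 ^ P) := by positivity
       nlinarith only [this, sq_nonneg (m : ℝ)]

/-- **Change of box: the label.** -/
theorem chb_lab (F : Fam m J) {w lam x β Ja J0 : ℕ} (h0 : w + J0 ≤ J) (ha : w + x + Ja ≤ J)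
    (hres : Ja + x + β ≤ J0) {i₀ i₁ : Fin m} (hi : i₁ ≠ i₀) (z z' : F.Ω → Fin m → ℝ)
    {B : F.Ω → Prop} (hz : ∀ ω, B ω → ∀ j, |z' ω j - z ω j| ≤ 1 / 2 ^ lam)
    {a w' P wz P0 r r' K c S : ℕ}
    (hwz : a + x + β + 3 ≤ wz) (haJ : a + 5 ≤ Ja) (hP : P ≤ Ja)
    (hc : (16 : ℝ) + 30 * m ^ 2 ≤ 2 ^ c) (hP0 : P0 + c ≤ P + x + β)
    (hS : (3 : ℝ) + 8 * m ^ 2 ≤ 2 ^ S)
    (hφ : ∃ φ : (Fin m → ℤ) × (ℕ × (F.zm w J0 h0 (Box.plkC lam i₀) z).ζ) →
        (Fin m → ℤ) × (ℕ × (F.zm (w + x) Ja ha (Box.plkC (lam + β) i₀) z').ζ), ∀ ω, B ω →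
      ptr (F.zm (w + x) Ja ha (Box.plkC (lam + β) i₀) z') r' ω =
        φ (ptr (F.zm w J0 h0 (Box.plkC lam i₀) z) r ω))
    (hψ : ∃ ψ : ((Fin m → ℝ) × (Fin m → ℝ)) × (F.zm w J0 h0 (Box.plkC lam i₀) z).ζ × ℕ →
        ((Fin m → ℝ) × (Fin m → ℝ)) × (F.zm (w + x) Ja ha (Box.plkC (lam + β) i₀) z').ζ × ℕ,
      ∀ ω, B ω → slam (F.zm (w + x) Ja ha (Box.plkC (lam + β) i₀) z') w' ω =
        ψ (slam (F.zm w J0 h0 (Box.plkC lam i₀) z) wz ω))
    (hL : Lab (F.zm (w + x) Ja ha (Box.plkC (lam + β) i₀) z') i₁ r' K a w' P B) :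
    Pool.GLM.LabS (F.zm w J0 h0 (Box.plkC lam i₀) z) i₁ r (max K 1) wz P0 S B := by
  obtain ⟨φ, hφ⟩ := hφ
  obtain ⟨ψ, hψ⟩ := hψ
  obtain ⟨G, H, hG, hH, hGH⟩ := hL
  refine ⟨fun y => npl lam x β i₀ i₁ y.2.2 (φ y).2.2 (G (φ y)),
    fun s => npl lam x β i₀ i₁ s.2.1 (ψ s).2.1 (H (ψ s)),
    fun y => totalDegree_npl _ _ _ _ _ _ _ (hG _), fun s => totalDegree_npl _ _ _ _ _ _ _ (hH _),
    fun ω hω => ?_⟩
  obtain ⟨h1, h2⟩ := hGH ω hω
  have key := lab_pt F h0 ha hres hi z z' (hz ω hω) hwz haJ hP hc hP0 hS h1 h2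
  have e1 : (ptr (F.zm w J0 h0 (Box.plkC lam i₀) z) r ω).2.2 = F.blab w (Box.plkC lam i₀) z ω := rfl
  have e2 : (slam (F.zm w J0 h0 (Box.plkC lam i₀) z) wz ω).2.1 =
    F.blab w (Box.plkC lam i₀) z ω := rfl
  have e3 : (ptr (F.zm (w + x) Ja ha (Box.plkC (lam + β) i₀) z') r' ω).2.2 =
    F.blab (w + x) (Box.plkC (lam + β) i₀) z' ω := rfl
  have e4 : (slam (F.zm (w + x) Ja ha (Box.plkC (lam + β) i₀) z') w' ω).2.1 =
    F.blab (w + x) (Box.plkC (lam + β) i₀) z' ω := rfl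
  simp only
  rw [← hφ ω hω, ← hψ ω hω, e1, e2, e3, e4]
  exact key

/-! ### The chart -/

/-- The slopes of the chart in the new coordinates. -/
noncomputable def nsl {ζ : Type} (lam β : ℕ) (i₀ i₁ : Fin m) (p q : LB m ζ) (s : Fin m → ℝ)
    (k : Fin m) : ℝ :=
  if k = i₀ then cK lam p q i₁ + s i₀ / 2 ^ β -
    ∑ j, (if j = i₀ then 0 else s j * cK lam p q j) else s k

/-- The constant of the chart in the new coordinates. -/
noncomputable def nco {ζ : Type} (lam β : ℕ) (i₀ i₁ : Fin m) (p q : LB m ζ) (n : ℝ)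
    (s : Fin m → ℝ) : ℝ :=
  - p.1.2.2 i₁ + cK lam p q i₁ * p.1.2.2 i₀ + (q.1.2.2 i₁ + n) / 2 ^ β +
    ∑ j, (if j = i₀ then 0 else s j * cV lam β i₀ p q j)

/-- **Change of box: the chart.** -/
theorem chb_ch (F : Fam m J) {w lam x β Ja J0 : ℕ} (h0 : w + J0 ≤ J) (ha : w + x + Ja ≤ J)
    {i₀ i₁ : Fin m} (hi : i₁ ≠ i₀) (z z' : F.Ω → Fin m → ℝ)
    {B : F.Ω → Prop} (hz : ∀ ω, B ω → ∀ j, |z' ω j - z ω j| ≤ 1 / (2 * (m + 1)) / 2 ^ lam)
    {h h' c : ℕ} (hβ : 1 ≤ β) (hha : h ≤ Ja) (hh0 : h + β ≤ J0)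
    (hc : (3 : ℝ) + 2 * m ≤ 2 ^ c) (hh' : h' + c ≤ h + β)
    (hφ : ∃ φ : (Fin m → ℤ) × (ℕ × (F.zm w J0 h0 (Box.plkC lam i₀) z).ζ) →
        (Fin m → ℤ) × (ℕ × (F.zm (w + x) Ja ha (Box.plkC (lam + β) i₀) z').ζ), ∀ ω, B ω →
      Fam.pt (F.zm (w + x) Ja ha (Box.plkC (lam + β) i₀) z') ω =
        φ (Fam.pt (F.zm w J0 h0 (Box.plkC lam i₀) z) ω))
    (hCh : Ch (F.zm (w + x) Ja ha (Box.plkC (lam + β) i₀) z') i₁ h B) :
    Ch (F.zm w J0 h0 (Box.plkC lam i₀) z) i₁ h' B := by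
  classical
  obtain ⟨φ, hφ⟩ := hφ
  obtain ⟨n, s, hns⟩ := hCh
  refine ⟨fun y => nco lam β i₀ i₁ y.2.2 (φ y).2.2 (n (φ y)) (s (φ y)),
    fun y => nsl lam β i₀ i₁ y.2.2 (φ y).2.2 (s (φ y)), fun ω hω => ?_⟩
  simp only
  rw [← hφ ω hω]
  obtain ⟨h1, h2, h3⟩ := hns ω hω
  have e1 : (Fam.pt (F.zm w J0 h0 (Box.plkC lam i₀) z) ω).2.2 = F.blab w (Box.plkC lam i₀) z ω :=
    rfl
  have e3 : (Fam.pt (F.zm (w + x) Ja ha (Box.plkC (lam + β) i₀) z') ω).2.2 =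
    F.blab (w + x) (Box.plkC (lam + β) i₀) z' ω := rfl
  rw [e1, e3]
  obtain ⟨p, hp⟩ : ∃ p, p = F.blab w (Box.plkC lam i₀) z ω := ⟨_, rfl⟩
  obtain ⟨q, hq⟩ : ∃ q, q = F.blab (w + x) (Box.plkC (lam + β) i₀) z' ω := ⟨_, rfl⟩
  obtain ⟨S, hS⟩ : ∃ S, S = s (Fam.pt (F.zm (w + x) Ja ha (Box.plkC (lam + β) i₀) z') ω) :=
    ⟨_, rfl⟩
  obtain ⟨nn, hnn⟩ : ∃ nn, nn = n (Fam.pt (F.zm (w + x) Ja ha (Box.plkC (lam + β) i₀) z') ω) :=
    ⟨_, rfl⟩
  rw [← hS] at h1 h2 h3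
  rw [← hnn] at h3
  rw [← hp, ← hq, ← hS, ← hnn]
  have hm1 : (1 : ℝ) ≤ m := by
    have : 0 < m := Fin.pos i₀
    exact_mod_cast this
  have p0 : (0 : ℝ) < 2 ^ lam := by positivity
  have p1 : (0 : ℝ) < 2 ^ β := by positivity
  have p2 : (2 : ℝ) ≤ 2 ^ β := by
    calc (2 : ℝ) = 2 ^ 1 := (pow_one _).symm
      _ ≤ _ := pow_le_pow_right₀ (by norm_num) hβ
  -- the difference of the frames
  exact by
   have hK : ∀ j, |cK lam p q j| ≤ 1 / (2 * (m + 1)) := by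
     intro j
     rw [hp, hq]
     change |(2 : ℝ) ^ lam * (z' ω j - z ω j)| ≤ _
     have h4 := hz ω hω j
     rw [abs_mul, abs_of_pos p0]
     rw [le_div_iff₀ p0] at h4
     linarith only [h4]
   -- the new slopes
   have hs0 : |nsl lam β i₀ i₁ p q S i₀| ≤ 1 := by
     unfold nsl
     rw [if_pos rfl]
     have g1 := hK i₁
     have g2 : |S i₀ / 2 ^ β| ≤ 1 / 2 := by
       rw [abs_div, abs_of_pos p1]
       exact div_le_div₀ (by norm_num) (h2 i₀) (by norm_num) p2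
     have g3 : |∑ j, (if j = i₀ then 0 else S j * cK lam p q j)| ≤ m * (1 / (2 * (m + 1))) := by
       calc _ ≤ ∑ j : Fin m, |(if j = i₀ then 0 else S j * cK lam p q j)| :=
             Finset.abs_sum_le_sum_abs _ _
         _ ≤ ∑ _j : Fin m, (1 : ℝ) / (2 * (m + 1)) := by
             refine Finset.sum_le_sum fun j _ => ?_
             split_ifs
             · rw [abs_zero]
               positivity
             · rw [abs_mul]
               calc |S j| * |cK lam p q j| ≤ 1 * (1 / (2 * (m + 1))) :=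
                     mul_le_mul (h2 j) (hK j) (abs_nonneg _) (by norm_num)
                 _ = _ := one_mul _
         _ = _ := by
             rw [Finset.sum_const, Finset.card_univ, Fintype.card_fin, nsmul_eq_mul]
     have g4 : (1 : ℝ) / (2 * (m + 1)) + m * (1 / (2 * (m + 1))) = 1 / 2 := by
       field_simp
       ring
     rw [abs_le] at g1 g2 g3 ⊢
     constructor <;> linarith only [g1, g2, g3, g4, g1.1, g1.2, g2.1, g2.2, g3.1, g3.2]
   exact by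
    have hsj : ∀ j, |nsl lam β i₀ i₁ p q S j| ≤ 1 := by
      intro j
      by_cases hj : j = i₀
      · rw [hj]
        exact hs0
      · unfold nsl
        rw [if_neg hj]
        exact h2 j
    refine ⟨?_, hsj, ?_⟩
    · unfold nsl
      rw [if_neg hi]
      exact h1
    -- exact velocities
    obtain ⟨d, hd⟩ : ∃ d, d = (F.box w (Box.plkC lam i₀) z).d ω := ⟨_, rfl⟩
    obtain ⟨D, hD⟩ : ∃ D, D = (F.box (w + x) (Box.plkC (lam + β) i₀) z').d ω := ⟨_, rfl⟩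
    obtain ⟨d', hd'⟩ : ∃ d', d' = (F.zm w J0 h0 (Box.plkC lam i₀) z).d ω := ⟨_, rfl⟩
    obtain ⟨D', hD'⟩ : ∃ D', D' = (F.zm (w + x) Ja ha (Box.plkC (lam + β) i₀) z').d ω := ⟨_, rfl⟩
    have r1 : ∀ j, |d' j - d j| ≤ 1 / 2 ^ J0 := by
      intro j
      rw [hd, hd']
      exact zm_d F h0 (Box.plkC lam i₀) z ω j
    have r2 : ∀ j, |D' j - D j| ≤ 1 / 2 ^ Ja := by
      intro j
      rw [hD, hD']
      exact zm_d F ha (Box.plkC (lam + β) i₀) z' ω j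
    have r3 : ∀ j, j ≠ i₀ → D j + q.1.2.2 j =
        2 ^ β * (d j + p.1.2.2 j - cK lam p q j * (d i₀ + p.1.2.2 i₀)) := by
      intro j hj
      rw [hd, hD, hp, hq]
      exact box_dd F (w := w) (x := x) (lam := lam) (β := β) z z' hj ω
    exact by
     have r4 : D i₀ = d i₀ := by
       rw [hd, hD]
       exact box_d0 F z z' ω
     rw [← hD'] at h3
     rw [← hd']
     -- the error of the old chart at the exact velocities
     have s1 : ∀ (v u : Fin m → ℝ) (e : ℝ), 0 ≤ e → (∀ j, |v j - u j| ≤ e) → ∀ σ : Fin m → ℝ,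
         (∀ j, |σ j| ≤ 1) → |∑ j, σ j * v j - ∑ j, σ j * u j| ≤ m * e := by
       intro v u e he hvu σ hσ
       rw [← Finset.sum_sub_distrib]
       calc _ ≤ ∑ j : Fin m, |σ j * v j - σ j * u j| := Finset.abs_sum_le_sum_abs _ _
         _ ≤ ∑ _j : Fin m, e := by
             refine Finset.sum_le_sum fun j _ => ?_
             rw [← mul_sub, abs_mul]
             calc |σ j| * |v j - u j| ≤ 1 * e :=
                   mul_le_mul (hσ j) (hvu j) (abs_nonneg _) (by norm_num)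
               _ = e := one_mul _
         _ = _ := by rw [Finset.sum_const, Finset.card_univ, Fintype.card_fin, nsmul_eq_mul]
     have s2 : |D i₁ - nn - ∑ j, S j * D j| ≤ 1 / 2 ^ h + (1 + m) * (1 / 2 ^ Ja) := by
       have g1 := s1 D' D (1 / 2 ^ Ja) (by positivity) r2 S h2
       have g2 := r2 i₁
       rw [abs_le] at g1 g2 h3 ⊢
       constructor <;> linarith only [h3, g1, g2, g1.1, g1.2, g2.1, g2.2, h3.1, h3.2]
     -- the identity
     have s3 : d i₁ - nco lam β i₀ i₁ p q nn S - ∑ j, nsl lam β i₀ i₁ p q S j * d j =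
         (D i₁ - nn - ∑ j, S j * D j) / 2 ^ β := by
       have g1 := r3 i₁ hi
       have g2 : ∑ j, S j * D j = S i₀ * d i₀ + ∑ j, (if j = i₀ then 0 else
           S j * (2 ^ β * (d j + p.1.2.2 j - cK lam p q j * (d i₀ + p.1.2.2 i₀)) - q.1.2.2 j)) := by
         have : ∀ j, S j * D j = (if j = i₀ then S i₀ * d i₀ else 0) + (if j = i₀ then 0 else
             S j * (2 ^ β * (d j + p.1.2.2 j - cK lam p q j * (d i₀ + p.1.2.2 i₀)) -
               q.1.2.2 j)) := by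
           intro j
           by_cases hj : j = i₀
           · rw [if_pos hj, if_pos hj, hj, r4, add_zero]
           · rw [if_neg hj, if_neg hj, zero_add, ← r3 j hj]
             ring
         rw [Finset.sum_congr rfl fun j _ => this j, Finset.sum_add_distrib]
         simp
       have g3 : ∑ j, nsl lam β i₀ i₁ p q S j * d j =
           (cK lam p q i₁ + S i₀ / 2 ^ β - ∑ j, (if j = i₀ then 0 else S j * cK lam p q j)) * d i₀ +
           ∑ j, (if j = i₀ then 0 else S j * d j) := by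
         have : ∀ j, nsl lam β i₀ i₁ p q S j * d j = (if j = i₀ then
             (cK lam p q i₁ + S i₀ / 2 ^ β - ∑ j, (if j = i₀ then 0 else S j * cK lam p q j)) * d i₀
             else 0) + (if j = i₀ then 0 else S j * d j) := by
           intro j
           unfold nsl
           by_cases hj : j = i₀
           · rw [if_pos hj, if_pos hj, if_pos hj, hj, add_zero]
           · rw [if_neg hj, if_neg hj, if_neg hj, zero_add]
         rw [Finset.sum_congr rfl fun j _ => this j, Finset.sum_add_distrib]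
         simp
       have g4 : ∑ j, (if j = i₀ then 0 else
           S j * (2 ^ β * (d j + p.1.2.2 j - cK lam p q j * (d i₀ + p.1.2.2 i₀)) - q.1.2.2 j)) =
           2 ^ β * (∑ j, (if j = i₀ then 0 else S j * d j) -
             (∑ j, (if j = i₀ then 0 else S j * cK lam p q j)) * d i₀ +
             ∑ j, (if j = i₀ then 0 else S j * cV lam β i₀ p q j)) := by
         rw [Finset.sum_mul, ← Finset.sum_sub_distrib, ← Finset.sum_add_distrib, Finset.mul_sum]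
         refine Finset.sum_congr rfl fun j _ => ?_
         by_cases hj : j = i₀
         · simp only [if_pos hj]
           ring
         · simp only [if_neg hj]
           unfold cV
           field_simp
           ring
       rw [g3, g2, g4]
       unfold nco
       have g5 : D i₁ = 2 ^ β * (d i₁ + p.1.2.2 i₁ - cK lam p q i₁ * (d i₀ + p.1.2.2 i₀)) -
         q.1.2.2 i₁ := by linarith only [g1]
       rw [g5]
       field_simp
       ring
     exact by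
      have s4 : |d i₁ - nco lam β i₀ i₁ p q nn S - ∑ j, nsl lam β i₀ i₁ p q S j * d j| ≤
          (1 / 2 ^ h + (1 + m) * (1 / 2 ^ Ja)) / 2 ^ β := by
        rw [s3, abs_div, abs_of_pos p1]
        exact div_le_div_of_nonneg_right s2 p1.le
      have s5 := s1 d' d (1 / 2 ^ J0) (by positivity) r1 (nsl lam β i₀ i₁ p q S) hsj
      have s6 := r1 i₁
      have t1 : (1 : ℝ) / 2 ^ Ja ≤ 1 / 2 ^ h := inv_mono hha
      have t2 : (1 : ℝ) / 2 ^ J0 ≤ 1 / 2 ^ (h + β) := inv_mono hh0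
      have t3 : (1 / 2 ^ h + (1 + (m : ℝ)) * (1 / 2 ^ Ja)) / 2 ^ β ≤
          (2 + m) * (1 / 2 ^ (h + β)) := by
        have : 1 / 2 ^ h + (1 + (m : ℝ)) * (1 / 2 ^ Ja) ≤ (2 + m) * (1 / 2 ^ h) := by
          have := mul_le_mul_of_nonneg_left t1 (by positivity : (0 : ℝ) ≤ 1 + m)
          linarith only [this]
        refine (div_le_div_of_nonneg_right this p1.le).trans (le_of_eq ?_)
        rw [pow_add]
        field_simp
      have t4 : (3 + 2 * (m : ℝ)) * (1 / 2 ^ (h + β)) ≤ 1 / 2 ^ h' := by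
        have h5 : (1 : ℝ) / 2 ^ (h + β) ≤ 1 / 2 ^ (h' + c) := inv_mono hh'
        calc _ ≤ (2 : ℝ) ^ c * (1 / 2 ^ (h' + c)) := mul_le_mul hc h5 (by positivity) (by positivity)
          _ = _ := by
              rw [pow_add]
              field_simp
      have t5 : (m : ℝ) * (1 / 2 ^ J0) ≤ m * (1 / 2 ^ (h + β)) :=
        mul_le_mul_of_nonneg_left t2 (by positivity)
      have t6 : |d' i₁ - nco lam β i₀ i₁ p q nn S - ∑ j, nsl lam β i₀ i₁ p q S j * d' j| ≤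
          (2 + m) * (1 / 2 ^ (h + β)) + 1 / 2 ^ (h + β) + m * (1 / 2 ^ (h + β)) := by
        rw [abs_le] at s4 s5 s6 ⊢
        constructor <;> linarith only [s4, s5, s6, t2, t3, t5, s4.1, s4.2, s5.1, s5.2, s6.1, s6.2]
      refine t6.trans (le_trans (le_of_eq ?_) t4)
      ring

end Pool.CHB
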