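import Pool.Agent.H35.ZCL.Acls

/-!
# Two frames are close

Two visible frames of the same fans, of precisions `l ≤ l'`, differ by at most `2 ^ (y J - l)` on
one half of each stable event.
-/

set_option autoImplicit false

namespace Pool.CHB

open Finset Real
open Pool.Agent.H49.Ent Pool.Agent.H32.Dense Pool.STK Pool.KA Pool.KSAT Pool.K2S Pool.PB Pool.ZCL
open Pool.S6C
open Pool.S6K (exact_label steep_ball ball_claim)

/-- **Two frames are close.** -/
theorem az_close {m : ℕ} {a R h₁ y : ℝ} {i₀ : Fin m} (ha : 1 ≤ a) (hR : 0 < R) (hU : UBa m a R)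
    (hh₁ : 0 < h₁) (hy : 0 < y) (hy1 : y ≤ 1) :
    ∃ τ > 0, ∃ J₁ : ℕ, ∀ J ≥ J₁, ∀ (F : Fam m J) (A : F.Ω → Prop), Fam.Stt F a R τ A →
      Lb F i₀ ⌊h₁ * J⌋₊ A → ∀ (r l l' w w' : ℕ) (z z' : F.Ω → Fin m → ℝ), r ≤ J → l ≤ l' →
      AzF F i₀ r l w A z → AzF F i₀ r l' w' A z' →
      ∃ B : F.Ω → Prop, Sub B A ∧ Pe F.p A ≤ 2 * Pe F.p B ∧
        ∀ ω, B ω → ∀ j, |z' ω j - z ω j| ≤ 2 ^ ⌊y * J⌋₊ / 2 ^ l := by
  classical
  obtain ⟨x, hx⟩ : ∃ x, x = min (y / 2) (h₁ / 2) := ⟨_, rfl⟩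
  have hx0 : 0 < x := by rw [hx]; exact lt_min (by positivity) (by positivity)
  have hx1 : x ≤ y / 2 := by rw [hx]; exact min_le_left _ _
  have hx2 : x ≤ h₁ / 2 := by rw [hx]; exact min_le_right _ _
  obtain ⟨τb, hτb, Jb, hball⟩ := ball_claim (m := m) ha hR hU hx0
  obtain ⟨Je, hJe⟩ := Pool.S6K.exp_small (by positivity : 0 < τb / 2) (C := 2) (by norm_num)
  obtain ⟨Jx, hJx⟩ := exists_nat_gt (8 / x)
  refine ⟨τb / 2, by positivity, max Je (max Jb Jx), ?_⟩
  intro J hJ F A hS hL r l l' w w' z z' hr hll hz hz'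
  have hJe' : Je ≤ J := (le_max_left _ _).trans hJ
  have hJb : Jb ≤ J := (le_max_left _ _).trans ((le_max_right _ _).trans hJ)
  have hJx' : 8 / x < J :=
    hJx.trans_le (by exact_mod_cast (le_max_right _ _).trans ((le_max_right _ _).trans hJ))
  have hq : 0 < 8 / x := by positivity
  have hJr : (0 : ℝ) < J := by linarith
  have hxJ : 8 ≤ x * J := by
    rw [div_lt_iff₀ hx0] at hJx'
    linarith
  have hp := F.isLaw
  rcases half_or hp (A := A) (S := fun ω => A ω ∧ ∃ j, 2 ^ ⌊y * J⌋₊ / 2 ^ l < |z' ω j - z ω j|)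
    (T := fun ω => A ω ∧ ∀ j, |z' ω j - z ω j| ≤ 2 ^ ⌊y * J⌋₊ / 2 ^ l) (fun ω hω => by
      by_cases hj : ∃ j, 2 ^ ⌊y * J⌋₊ / 2 ^ l < |z' ω j - z ω j|
      · exact Or.inl ⟨hω, hj⟩
      · push Not at hj
        exact Or.inr ⟨hω, hj⟩) with hS' | hT
  · exfalso
    obtain ⟨E, hE⟩ : ∃ E : F.Ω → Prop, E = fun ω =>
      A ω ∧ ∃ j, 2 ^ ⌊y * J⌋₊ / 2 ^ l < |z' ω j - z ω j| := ⟨_, rfl⟩
    rw [← hE] at hS'
    have hEA : Sub E A := fun ω hω => by
      rw [hE] at hω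
      exact hω.1
    have hStE : Fam.Stt F a R τb E := by
      have h4 := Fam.Stt.mono (by linarith : τb / 2 ≤ τb) hS
      refine ⟨h4.1, h4.2.1, h4.2.2.1, ?_⟩
      have h2 := hJe J hJe'
      rw [le_div_iff₀ (by norm_num)] at h2
      have h3 : Real.exp (-(τb / 2 * J)) * Pe F.p A ≤ Pe F.p E := by
        calc Real.exp (-(τb / 2 * J)) * Pe F.p A ≤ Real.exp (-(τb / 2 * J)) * (2 * Pe F.p E) :=
              mul_le_mul_of_nonneg_left hS' (Real.exp_pos _).le
          _ = (Real.exp (-(τb / 2 * J)) * 2) * Pe F.p E := by ring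
          _ ≤ 1 * Pe F.p E := mul_le_mul_of_nonneg_right h2 (Pe_nonneg hp E)
          _ = _ := one_mul _
      refine le_trans ?_ h3
      refine le_trans ?_ (mul_le_mul_of_nonneg_left hS.2.2.2 (Real.exp_pos _).le)
      rw [← Real.exp_add]
      refine Real.exp_le_exp.2 ?_
      linarith
    obtain ⟨γ, hγ⟩ := hz.vis
    obtain ⟨γ', hγ'⟩ := hz'.vis
    obtain ⟨n, hn⟩ := hz.str
    obtain ⟨n', hn'⟩ := hz'.str
    obtain ⟨q, hqdef⟩ : ∃ q : ℕ, q = ⌊y * J⌋₊ := ⟨_, rfl⟩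
    have hb := thin_ball (F := F) (i₀ := i₀) (h := q) (h₁ := ⌊h₁ * (J : ℝ)⌋₊) hr (B := E)
      (LineAt.hered _ _ _ _ _ _ hEA hL) (fun ω ω' hω hω' hpt => by
        have hωA := hEA ω hω
        have hωA' := hEA ω' hω'
        rw [hE] at hω
        obtain ⟨-, j, hj⟩ := hω
        rw [← hqdef] at hj
        have hji : j ≠ i₀ := by
          intro h
          rw [h, hz.zer, hz'.zer, sub_zero, abs_zero] at hj
          have : (0 : ℝ) < 2 ^ q / 2 ^ l := by positivity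
          linarith
        have e1 : z ω' = z ω := by rw [hγ ω' hωA', hγ ω hωA, hpt]
        have e2 : z' ω' = z' ω := by rw [hγ' ω' hωA', hγ' ω hωA, hpt]
        have a1 := hn ω hωA j hji
        have a2 := hn ω' hωA' j hji
        have a3 := hn' ω hωA j hji
        have a4 := hn' ω' hωA' j hji
        rw [e1, ← hpt] at a2
        rw [e2, ← hpt] at a4
        have p0 : (0 : ℝ) < 2 ^ l := by positivity
        have p1 : (0 : ℝ) < 2 ^ q := by positivity
        have b1 : (3 : ℝ) / 2 ^ l' ≤ 3 / 2 ^ l :=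
          div_le_div_of_nonneg_left (by norm_num) (by positivity)
            (pow_le_pow_right₀ (by norm_num) hll)
        have b2 : |(z' ω j - z ω j) * (F.d ω i₀ - F.d ω' i₀)| ≤ 12 / 2 ^ l := by
          have e3 : (z' ω j - z ω j) * (F.d ω i₀ - F.d ω' i₀) =
              (F.d ω j - z ω j * F.d ω i₀ - n (ptr F r ω) j) -
              (F.d ω' j - z ω j * F.d ω' i₀ - n (ptr F r ω) j) -
              (F.d ω j - z' ω j * F.d ω i₀ - n' (ptr F r ω) j) +
              (F.d ω' j - z' ω j * F.d ω' i₀ - n' (ptr F r ω) j) := by ring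
          have e4 : (12 : ℝ) / 2 ^ l = 3 / 2 ^ l + 3 / 2 ^ l + 3 / 2 ^ l + 3 / 2 ^ l := by ring
          rw [e3, e4]
          rw [abs_le] at a1 a2 a3 a4 ⊢
          constructor <;> linarith [a1.1, a1.2, a2.1, a2.2, a3.1, a3.2, a4.1, a4.2]
        rw [abs_mul] at b2
        have b3 : 2 ^ q / 2 ^ l * |F.d ω i₀ - F.d ω' i₀| ≤ 12 / 2 ^ l :=
          (mul_le_mul_of_nonneg_right hj.le (abs_nonneg _)).trans b2
        have b4 : 2 ^ q * |F.d ω i₀ - F.d ω' i₀| ≤ 12 := by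
          have := mul_le_mul_of_nonneg_left b3 p0.le
          calc 2 ^ q * |F.d ω i₀ - F.d ω' i₀| =
                2 ^ l * (2 ^ q / 2 ^ l * |F.d ω i₀ - F.d ω' i₀|) := by field_simp
            _ ≤ 2 ^ l * (12 / 2 ^ l) := this
            _ = 12 := by field_simp
        rw [le_div_iff₀ p1]
        linarith)
    obtain ⟨t, ht⟩ : ∃ t : ℕ, t = ⌈x * J⌉₊ := ⟨_, rfl⟩
    have ht1 : x * J ≤ t := by rw [ht]; exact Nat.le_ceil _
    have ht2 : (t : ℝ) < x * J + 1 := by rw [ht]; exact Nat.ceil_lt_add_one (by positivity)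
    have e1 : 2 * (x * J) ≤ y * J := by
      have := mul_le_mul_of_nonneg_right hx1 hJr.le
      linarith
    have e2 : 2 * (x * J) ≤ h₁ * J := by
      have := mul_le_mul_of_nonneg_right hx2 hJr.le
      linarith
    have ht3 : t + 5 ≤ q := by
      rw [hqdef]
      refine Nat.le_floor ?_
      push_cast
      linarith
    have ht4 : t + 2 ≤ ⌊h₁ * (J : ℝ)⌋₊ := by
      refine Nat.le_floor ?_
      push_cast
      linarith
    have ht5 : t ≤ J := by
      have h6 : (t : ℝ) ≤ J := by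
        have : y * J ≤ 1 * J := mul_le_mul_of_nonneg_right hy1 hJr.le
        linarith
      exact_mod_cast h6
    refine hball J hJb F E hStE t ht5 ht1 ?_
    obtain ⟨ζ, hζ⟩ := hb
    refine ⟨ζ, fun ω hω j => (hζ ω hω j).trans ?_⟩
    have f1 : (14 : ℝ) / 2 ^ q ≤ 14 / 2 ^ (t + 5) :=
      div_le_div_of_nonneg_left (by norm_num) (by positivity)
        (pow_le_pow_right₀ (by norm_num) ht3)
    have f2 : (2 : ℝ) / 2 ^ ⌊h₁ * (J : ℝ)⌋₊ ≤ 2 / 2 ^ (t + 2) :=
      div_le_div_of_nonneg_left (by norm_num) (by positivity)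
        (pow_le_pow_right₀ (by norm_num) ht4)
    have f3 : (14 : ℝ) / 2 ^ (t + 5) = 14 / 32 * (1 / 2 ^ t) := by
      rw [pow_add]
      norm_num
      ring
    have f4 : (2 : ℝ) / 2 ^ (t + 2) = 2 / 4 * (1 / 2 ^ t) := by
      rw [pow_add]
      norm_num
      ring
    have f5 : (0 : ℝ) < 1 / 2 ^ t := by positivity
    linarith
  · exact ⟨_, fun ω hω => hω.1, hT, fun ω hω => hω.2⟩

end Pool.CHB
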