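import Pool.Agent.H18.PB.Skel2
import Pool.Agent.H60.PB.CHT
import Pool.Agent.H45.K2.PLF

/-!
# The fans are flat if the tail is not full

For every class `S` of families: `TLS S → CHS S`. The proof is `lin_thm` of helper13 and `cht_gen`
of helper60; maximality is used there for the tail bound only.
-/

set_option autoImplicit false

namespace Pool.PB

open Finset Real
open Pool.Agent.H49.Ent Pool.Agent.H32.Dense Pool.STK Pool.KA Pool.KSAT Pool.K2S

open Classical in
/-- The fans at exact points are flat, for a family with a tail which is not full. -/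
theorem lin_fam (k : ℕ) {g : ℝ} (hg0 : 0 < g) :
    ∃ c₁ > 0, ∃ η > 0, ∀ κ > 0, ∃ τ > 0, ∃ J₁ : ℕ, ∀ J ≥ J₁, ∀ F : Fam (k + 1) J,
      F.Tr → F.Tm (τ * J) → F.Rb (τ * J) → ∀ A : F.Ω → Prop, Real.exp (-(τ * J)) ≤ Pe F.p A →
      (∀ P : ℕ, P ≤ J → J ≤ 2 * P →
        CH (Pool.Agent.H49.Ent.cond F.p A True) (F.X J) (fun ω => (F.X P ω, F.W ω)) ≤
          ((k + 1) * Real.log 2 - g) * ((J : ℝ) - P) + η * J) →
      ∀ h : ℕ, (h : ℝ) ≤ c₁ * J →
      Stb F.p (κ * J) A (Hyp (1 / 2 ^ h) (Fam.pt F) F.d) → Hyp (1 / 2 ^ h) (Fam.pt F) F.d A := by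
  obtain ⟨C₁, hC₁, hrows⟩ := rows_thm k
  have hl2 : 0 < Real.log 2 := Real.log_pos (by norm_num)
  have hk : (0 : ℝ) ≤ k := by positivity
  obtain ⟨N, hN⟩ := exists_nat_gt (16 * ((k + 2) * (k + 1) * Real.log 2) / g)
  have hN0 : (0 : ℝ) < N := lt_of_le_of_lt (by positivity) hN
  have hN2 : (k + 2) * (k + 1) * Real.log 2 ≤ g / 16 * N := by
    rw [div_lt_iff₀ hg0] at hN
    linarith only [hN]
  obtain ⟨η, hη⟩ : ∃ η, η = min 1 (g / 128) := ⟨_, rfl⟩
  have hη0 : 0 < η := by rw [hη]; exact lt_min one_pos (by positivity)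
  have hηg : η ≤ g / 128 := by rw [hη]; exact min_le_right _ _
  have hη1 : η ≤ 1 := by rw [hη]; exact min_le_left _ _
  obtain ⟨c₁, hc⟩ : ∃ c₁, c₁ = g / (64 * ((k + 1) * (k + 2) * Real.log 2 * N)) := ⟨_, rfl⟩
  have hc0 : 0 < c₁ := by rw [hc]; positivity
  obtain ⟨c₂, hc2⟩ : ∃ c₂, c₂ = min c₁ (1 / (8 * N * (k + 2))) := ⟨_, rfl⟩
  have hc20 : 0 < c₂ := by rw [hc2]; positivity
  refine ⟨c₂, hc20, η, hη0, fun κ hκ => ?_⟩
  -- the constant `τ`
  obtain ⟨τ', hτ'⟩ : ∃ τ', τ' = g / (64 * (N * (k + 3) + 1)) := ⟨_, rfl⟩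
  have hτ'0 : 0 < τ' := by rw [hτ']; positivity
  obtain ⟨τ, hτ⟩ : ∃ τ, τ = τ' / 7 := ⟨_, rfl⟩
  have hτ0 : 0 < τ := by rw [hτ]; positivity
  obtain ⟨δ, hδ⟩ : ∃ δ, δ = (N + 1 : ℝ) * cc (k + 1) + 1 := ⟨_, rfl⟩
  have hcc : 0 ≤ cc (k + 1) := by
    unfold cc
    exact mul_nonneg (by positivity) (Real.log_nonneg (by norm_num))
  have hδ0 : 0 < δ := by rw [hδ]; positivity
  -- how large `J` has to be
  obtain ⟨Cst, hCst⟩ : ∃ Cst, Cst = N * C₁ + (k + 2) * C₁ + 0 +
    5 * ((k + 1) * (k + 2) * Real.log 2 * N) := ⟨_, rfl⟩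
  exact by
   obtain ⟨Lρ, hLρ⟩ : ∃ L, L = Real.log ((k + 2) ^ 2 * Real.log 2 * 64 / g + 1) := ⟨_, rfl⟩
   have hLρ0 : 0 ≤ Lρ := by
     rw [hLρ]
     exact Real.log_nonneg (by linarith only [hg0, show 0 ≤ (k + 2) ^ 2 * Real.log 2 * 64 / g by positivity])
   obtain ⟨Lη, hLη⟩ : ∃ L, L = Real.log (2 * ((k + 1) * Real.log 2 + 1) / η + 2) := ⟨_, rfl⟩
   have hLη0 : 0 ≤ Lη := by
     rw [hLη]
     exact Real.log_nonneg (by
       linarith only [hη0, show 0 ≤ 2 * ((k + 1) * Real.log 2 + 1) / η by positivity])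
   obtain ⟨J₁, hJ₁⟩ := exists_nat_gt (64 * Cst / g + Real.log 2 / τ +
     (4 * δ + 4 * Real.log 2 + 4 * Lρ + 4 * Lη) / κ + 8 * N + 80 * N * (k + 2) + 1)
   refine ⟨τ, hτ0, J₁, ?_⟩
   intro J hJ F hTr hTm0 hRb A hPA htail h hh hstab
   by_contra hnot
   have hJr : (J₁ : ℝ) ≤ J := by exact_mod_cast hJ
   have t1 : 0 ≤ 64 * Cst / g := by rw [hCst]; positivity
   have t2 : 0 ≤ Real.log 2 / τ := by positivity
   have t3 : 0 ≤ (4 * δ + 4 * Real.log 2 + 4 * Lρ + 4 * Lη) / κ := by positivity
   have t5 : 0 ≤ 80 * N * ((k : ℝ) + 2) := by positivity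
   have t6 : 0 ≤ 8 * (N : ℝ) := by positivity
   have hJ0 : (0 : ℝ) < J := by linarith only [hN0, hJ₁, hJr, t1, t2, t3, t5]
   have j1 : 64 * Cst / g < J := by linarith only [hN0, hJ₁, hJr, t2, t3, t5]
   have j2 : Real.log 2 / τ < J := by linarith only [hN0, hJ₁, hJr, t1, t3, t5]
   have j3 : (4 * δ + 4 * Real.log 2 + 4 * Lρ + 4 * Lη) / κ < J := by linarith only [hN0, hJ₁, hJr, t1, t2, t5]
   have j4 : 8 * (N : ℝ) < J := by linarith only [hJ₁, hJr, t1, t2, t3, t5]
   have j6 : 80 * N * ((k : ℝ) + 2) < J := by linarith only [hN0, hJ₁, hJr, t1, t2, t3]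
   rw [div_lt_iff₀ hg0] at j1
   rw [div_lt_iff₀ hτ0] at j2
   rw [div_lt_iff₀ hκ] at j3
   have hp := F.isLaw
   exact by
    have hA0 : 0 < Pe F.p A := lt_of_lt_of_le (Real.exp_pos _) hPA
    -- the windows
    obtain ⟨K, hK⟩ : ∃ K, K = J / (2 * N) := ⟨_, rfl⟩
    have hN0' : 0 < N := by exact_mod_cast hN0
    have hK1 : N * K ≤ J / 2 := by
      rw [hK, ← Nat.div_div_eq_div_mul]
      exact Nat.mul_div_le _ _
    have hK2 : (J : ℝ) < 2 * N * (K + 1) := by
      have := Nat.lt_mul_div_succ J (show 0 < 2 * N by omega)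
      rw [← hK] at this
      exact_mod_cast this
    have hK3 : J / 4 ≤ (N : ℝ) * K := by linarith only [hN0, hJ₁, hJr, t1, t2, t3, t5, hK2]
    have hK4 : N * K ≤ J := hK1.trans (Nat.div_le_self _ _)
    have hK4r : (N : ℝ) * K ≤ J := by exact_mod_cast hK4
    obtain ⟨w₀, hw₀⟩ : ∃ w, w = J - N * K := ⟨_, rfl⟩
    have hw1 : w₀ + N * K = J := by omega
    have hw2 : J ≤ 2 * w₀ := by omega
    have hw2r : (J : ℝ) ≤ 2 * w₀ := by exact_mod_cast hw2
    have hw3 : w₀ ≤ J := by omega
    -- labels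
    obtain ⟨l, hl⟩ : ∃ l : F.Ω → Fin (N + 1) → (ℕ × (Fin (k + 1) → ℤ)) × F.ζ,
      l = fun ω (i : Fin (N + 1)) => F.c (w₀ + (i : ℕ) * K) ω := ⟨_, rfl⟩
    have hlw : ∀ i : Fin (N + 1), w₀ + (i : ℕ) * K ≤ J := by
      intro i
      have : (i : ℕ) * K ≤ N * K := Nat.mul_le_mul_right K (by omega)
      omega
    have hres : ∀ B : F.Ω → Prop, 0 < Pe F.p B →
        CH (Pool.Agent.H49.Ent.cond F.p B True) l (Fam.pt F) ≤ δ := by
      intro B hB
      have hlaw := isLaw_cond hp hB
      have h1 := CH_pi_le hlaw.nonneg (c := cc (k + 1)) (Fam.pt F) (N + 1)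
        (fun (i : Fin (N + 1)) ω => F.c (w₀ + (i : ℕ) * K) ω)
        (fun i => Rows.CH_c_pt (F.res B True hlaw) (hlw i))
      push_cast at h1
      rw [hl, hδ]
      linarith only [h1]
    exact by
     have hκJ : 0 ≤ κ * J := by positivity
     obtain ⟨s1, s2⟩ := Stb.refine hp hstab hnot hA0 hδ0 (fun B _ hB => hres B hB)
       (by linarith only [hl2, hδ0, hLρ0, hLη0, j3])
     -- cleaning
     obtain ⟨κ', hκ'⟩ : ∃ κ', κ' = κ * J - (2 * δ + Real.log 2) := ⟨_, rfl⟩
     rw [← hκ'] at s1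
     have hκ'1 : κ * J / 2 ≤ κ' := by rw [hκ']; linarith only [hl2, hLρ0, hLη0, j3]
     have hκ'2 : 2 * Real.log 2 ≤ κ' := by linarith only [hl2, hδ0, hLρ0, hLη0, j3, hκ']
     obtain ⟨c1, c2⟩ := Stb.clean hp hκ'2 hA0 s1 s2 rfl
     have c3 := Stb.point hp hA0 s1 s2
     obtain ⟨Nb, hNb⟩ : ∃ Nb : F.Ω → Prop, Nb = Pop (Pool.Agent.H49.Ent.cond F.p A True) F.d
       (fun ω => (Fam.pt F ω, l ω)) (fun D (s : (Fin (k + 1) → ℝ) × (Fin k → Fin (k + 1) → ℝ)) =>
         ∃ c : Fin k → ℝ, ∀ j, |D j - s.1 j - ∑ i, c i * s.2 i j| ≤ 1 / 2 ^ h)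
       (Real.exp (-(κ' / 2))) := ⟨_, rfl⟩
     rw [← hNb] at c1 c2
     obtain ⟨A', hA'⟩ : ∃ A' : F.Ω → Prop, A' = fun ω => A ω ∧ ¬ Nb ω := ⟨_, rfl⟩
     have c2' := c2
     rw [← hA'] at c2'
     have hPA' : Real.exp (-((2 * τ) * J)) ≤ Pe F.p A' := by
       have d1 := Pe_diff c1
       rw [hA']
       refine le_trans ?_ d1
       have d2 : Real.exp (-(2 * τ * J)) ≤ Real.exp (-Real.log 2) * Real.exp (-(τ * J)) := by
         rw [← Real.exp_add]
         exact Real.exp_le_exp.2 (by linarith only [j2])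
       exact d2.trans (mul_le_mul_of_nonneg_left hPA (Real.exp_pos _).le)
     obtain ⟨hlaw, -, -, hTm1, -⟩ := Pool.KA.res_thm (k + 1) J F 0 (τ * J) (2 * τ * J) (τ * J) le_rfl
       (by positivity) (by positivity) hTr hRb hTm0 A' (by
         have : law F.p A' True = Pe F.p A' := rfl
         rw [this]
         exact hPA')
     exact by
      have e7 : τ * J + 4 * (τ * J) + 2 * τ * J = τ' * J := by
        rw [hτ]
        ring
      have hTm : (F.res A' True hlaw).Tm (τ' * J) := by
        rw [← e7]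
        exact hTm1
      have hτN : τ' ≤ g / (64 * (N * (k + 3) + 1)) := by
        rw [hτ']
      -- rows
      obtain ⟨ρ, hρ⟩ : ∃ ρ, ρ = Real.exp (-(κ' / 2)) := ⟨_, rfl⟩
      have hρ0 : 0 < ρ := by rw [hρ]; positivity
      have hKr : (J : ℝ) / (2 * N) - 1 < K := by
        have : (J : ℝ) / (2 * N) < K + 1 := by
          rw [div_lt_iff₀ (by positivity)]
          linarith only [hK2]
        linarith only [this]
      have hhc : (h : ℝ) ≤ 1 / (8 * N * (k + 2)) * J := by
        refine hh.trans (mul_le_mul_of_nonneg_right ?_ hJ0.le)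
        rw [hc2]
        exact min_le_right _ _
      have hhc1 : (h : ℝ) ≤ c₁ * J := by
        refine hh.trans (mul_le_mul_of_nonneg_right ?_ hJ0.le)
        rw [hc2]
        exact min_le_left _ _
      obtain ⟨a', ha'⟩ : ∃ a', a' = K - ((h + 2 + 3) * (k + 1) + (h + 2)) := ⟨_, rfl⟩
      have hroom : (h + 2 + 3) * (k + 1) + (h + 2) ≤ K := by
        have : (((h + 2 + 3) * (k + 1) + (h + 2) : ℕ) : ℝ) ≤ K := by
          push_cast
          exact lin_room hk hN0 hhc j6 hKr
        exact_mod_cast this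
      exact by
       have haK : a' + (h + 2 + 3) * (k + 1) + (h + 2) ≤ K := by omega
       have e4 : (4 : ℝ) / 2 ^ (h + 2) = 1 / 2 ^ h := by
         rw [pow_add]
         field_simp
         norm_num
       have hrow := hrows J (F.res A' True hlaw) K a' (h + 2) N w₀ (τ' * J) ρ (by omega) hTm
         (by omega) haK (by
         intro i hi ω hω v B
         have hdet : Det (Pool.Agent.H49.Ent.cond F.p A' True) (fun ω => (Fam.pt F ω, l ω))
             (fun ω => (F.c (w₀ + i * K) ω, (F.c (w₀ + (i + 1) * K) ω,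
               (F.X (w₀ + (i + 1) * K) ω, F.T1 (w₀ + (i + 1) * K) ω)))) := by
           intro ω ω' _ _ e
           have b := Prod.ext_iff.mp e
           have b1 : F.X J ω = F.X J ω' ∧ F.W ω = F.W ω' := Prod.ext_iff.mp b.1
           have b2 : F.T ω = F.T ω' ∧ F.Z ω = F.Z ω' := Prod.ext_iff.mp b1.2
           have b3 : l ω = l ω' := b.2
           have b4 : F.c (w₀ + i * K) ω = F.c (w₀ + i * K) ω' := by
             have := congrFun b3 ⟨i, by omega⟩
             rw [hl] at this
             exact this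
           have b5 : F.c (w₀ + (i + 1) * K) ω = F.c (w₀ + (i + 1) * K) ω' := by
             have := congrFun b3 ⟨i + 1, by omega⟩
             rw [hl] at this
             exact this
           have b6 : F.X (w₀ + (i + 1) * K) ω = F.X (w₀ + (i + 1) * K) ω' :=
             Pool.STK.B58.fl_fine (hlw ⟨i + 1, by omega⟩) b1.1
           have b7 : F.T1 (w₀ + (i + 1) * K) ω = F.T1 (w₀ + (i + 1) * K) ω' := by
             unfold Fam.T1
             rw [b2.1]
           exact Prod.ext b4 (Prod.ext b5 (Prod.ext b6 b7))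
         have nc := (c2'.coarse hlaw hdet).cond_le hlaw hω (v, B)
         rw [e4, hρ]
         exact nc)
       exact by
        have hJw : ((J : ℝ) - w₀) = N * K := by
          have : ((w₀ + N * K : ℕ) : ℝ) = J := by rw [hw1]
          push_cast at this
          linarith only [this]
        rw [hw1] at hrow
        -- the upper bound
        have h3 := htail w₀ hw3 hw2
        rw [hJw] at h3
        have hSub : Sub A' A := by
          intro ω hω
          rw [hA'] at hω
          exact hω.1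
        have hε : ρ ≤ 1 / 2 ∧ ρ * (2 * ((k + 1) * Real.log 2 + 1)) ≤ η := by
          have f1 : Lη ≤ κ' / 2 := by linarith only [hl2, hδ0, hLρ0, hLη0, j3, hκ']
          have f2 : ρ ≤ Real.exp (-Lη) := by
            rw [hρ]
            exact Real.exp_le_exp.2 (by linarith only [hl2, hδ0, hLρ0, hLη0, j3, hκ'])
          have f3 : Real.exp (-Lη) = 1 / (2 * ((k + 1) * Real.log 2 + 1) / η + 2) := by
            rw [hLη, Real.exp_neg, Real.exp_log (by positivity), one_div]
          rw [f3] at f2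
          have f4 : 0 ≤ 2 * ((k + 1) * Real.log 2 + 1) / η := by positivity
          rw [le_div_iff₀ (by positivity)] at f2
          have f5 : ρ * (2 * ((k + 1) * Real.log 2 + 1) / η) ≤ 1 := by nlinarith only [hρ0, f2]
          refine ⟨by nlinarith only [f2, hρ0, f4], ?_⟩
          have f6 : ρ * (2 * ((k + 1) * Real.log 2 + 1) / η) =
            ρ * (2 * ((k + 1) * Real.log 2 + 1)) / η := by ring
          rw [f6, div_le_one hη0] at f5
          exact f5
        have hratio : 1 - ρ ≤ Pe F.p A' / Pe F.p A := by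
          rw [le_div_iff₀ hA0]
          have f1 : Pe F.p A = Pe F.p (fun ω => A ω ∧ Nb ω) + Pe F.p A' := by
            rw [hA', Pe_eq, Pe_eq, Pe_eq, ← Finset.sum_add_distrib]
            refine Finset.sum_congr rfl fun ω _ => ?_
            by_cases hA : A ω
            · by_cases hb : Nb ω
              · simp [hA, hb]
              · simp [hA, hb]
            · simp [hA]
          have f2 : Pe F.p (fun ω => A ω ∧ Nb ω) ≤ ρ * Pe F.p A := by
            rw [Pe_cond, div_le_iff₀ hA0] at c3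
            rw [hρ, hNb]
            exact c3
          linarith only [f1, f2]
        exact by
         have h4 : CH (F.res A' True hlaw).p ((F.res A' True hlaw).X J)
             (fun ω => ((F.res A' True hlaw).X w₀ ω, (F.res A' True hlaw).W ω)) ≤
             ((k + 1) * Real.log 2 - g) * (N * K) + 2 * η * J + τ' * J + 0 := by
           have f0 := CH_event hp hSub hA0 (F.X J) (fun ω => (F.X w₀ ω, F.W ω))
           obtain ⟨S, hS⟩ : ∃ S, S = CH (Pool.Agent.H49.Ent.cond F.p A' True) (F.X J)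
             (fun ω => (F.X w₀ ω, F.W ω)) := ⟨_, rfl⟩
           have hS0 : 0 ≤ S := by rw [hS]; exact CH_nonneg hlaw.nonneg _ _
           rw [← hS] at f0
           show CH (Pool.Agent.H49.Ent.cond F.p A' True) (F.X J) (fun ω => (F.X w₀ ω, F.W ω)) ≤ _
           rw [← hS]
           obtain ⟨Bd, hBd⟩ : ∃ Bd, Bd = ((k + 1) * Real.log 2 - g) * (N * K) + η * J := ⟨_, rfl⟩
           rw [← hBd] at h3
           have f1 : (1 - ρ) * S ≤ Bd :=
             (mul_le_mul_of_nonneg_right hratio hS0).trans (f0.trans h3)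
           have f2 : S ≤ 2 * Bd := by nlinarith only [f1, hε, hS0, hε.1]
           have f3 : Bd ≤ ((k + 1) * Real.log 2 + 1) * J := by
             rw [hBd]
             have g1 : ((k + 1) * Real.log 2 - g) * (N * K) ≤ ((k + 1) * Real.log 2) * J := by
               have : ((k + 1) * Real.log 2 - g) * (N * K) ≤ ((k + 1) * Real.log 2) * (N * K) :=
                 mul_le_mul_of_nonneg_right (by linarith only [hη0, hηg]) (by positivity)
               refine this.trans (mul_le_mul_of_nonneg_left hK4r (by positivity))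
             have g2 : η * J ≤ 1 * J := mul_le_mul_of_nonneg_right hη1 hJ0.le
             linarith only [g1, g2]
           have f4 : ρ * S ≤ η * J := by
             calc ρ * S ≤ ρ * (2 * (((k + 1) * Real.log 2 + 1) * J)) :=
                   mul_le_mul_of_nonneg_left (f2.trans (by linarith only [f3])) hρ0.le
               _ = (ρ * (2 * ((k + 1) * Real.log 2 + 1))) * J := by ring
               _ ≤ _ := mul_le_mul_of_nonneg_right hε.2 hJ0.le
           have f5 : 0 ≤ τ' * J := by positivity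
           rw [hBd] at f1
           linarith only [hl2, j2, e7, f1, f4]
         exact by
          refine lin_arith (k := k) (g := g) (N := N) (K := K) (a' := a') (J := J) (h' := (h : ℝ) + 2)
            (e := τ' * J) (ρ := ρ) (η := η) (L2 := Real.log 2) (C₁ := C₁) (C₃ := 0) (c := c₁)
            hk hg0 hN0.le (by positivity) hl2.le ?_ ?_ ?_ hK3 hK4r hJ0.le hrow h4 hN2 ?_ ?_ ?_ ?_ ?_ ?_ hJ0
          · exact lin_cast (by omega)
          · have : a' ≤ K := by omega
            exact_mod_cast this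
          · exact hρ0.le
          · linarith only [hhc1]
          · rw [hc]
            refine le_of_eq ?_
            field_simp
          · -- `ρ` is small
            have f1 : Lρ ≤ κ' / 2 := by linarith only [hl2, hδ0, hLρ0, hLη0, j3, hκ']
            have f2 : ρ ≤ Real.exp (-Lρ) := by
              rw [hρ]
              exact Real.exp_le_exp.2 (by linarith only [hl2, hδ0, hLρ0, hLη0, j3, hκ'])
            have f3 : Real.exp (-Lρ) = 1 / ((k + 2) ^ 2 * Real.log 2 * 64 / g + 1) := by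
              rw [hLρ, Real.exp_neg, Real.exp_log (by positivity), one_div]
            rw [f3] at f2
            calc ((k : ℝ) + 2) ^ 2 * Real.log 2 * ρ ≤ (k + 2) ^ 2 * Real.log 2 *
                  (1 / ((k + 2) ^ 2 * Real.log 2 * 64 / g + 1)) :=
                  mul_le_mul_of_nonneg_left f2 (by positivity)
              _ ≤ g / 64 := by
                  rw [mul_one_div, div_le_iff₀ (by positivity)]
                  have : g / 64 * ((k + 2) ^ 2 * Real.log 2 * 64 / g + 1) =
                    (k + 2) ^ 2 * Real.log 2 + g / 64 := by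
                    field_simp
                  rw [this]
                  linarith only [hη0, hηg]
          · have f1 : N * ((k + 3) * (τ' * J)) + τ' * J = (τ' * (N * (k + 3) + 1)) * J := by ring
            rw [f1]
            refine mul_le_mul_of_nonneg_right ?_ hJ0.le
            rw [le_div_iff₀ (by positivity)] at hτN
            linarith only [hτN]
          · linarith only [hηg]
          · rw [← hCst]
            linarith only [j1]

end Pool.PB
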