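import Pool.Agent.H65.OVN.MV
import Pool.Agent.H50.PW.Cover

/-!
# Affine changes of coordinates of polynomial graphs
-/

set_option autoImplicit false

namespace Pool.CHB

open Finset Real MvPolynomial

variable {m : ℕ}

/-- An affine map. -/
def aff (A : Fin m → Fin m → ℝ) (c b : Fin m → ℝ) (l : Fin m) : ℝ := (∑ k, A l k * b k) + c l

/-- The pullback of a graph. -/
noncomputable def pull (A : Fin m → Fin m → ℝ) (c la : Fin m → ℝ) (c' g : ℝ)
    (P : MvPolynomial (Fin m) ℝ) : MvPolynomial (Fin m) ℝ :=
  (∑ k, C (la k) * X k) + C c' + C g * bind₁ (fun l => (∑ k, C (A l k) * X k) + C (c l)) P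

theorem eval_pull (A : Fin m → Fin m → ℝ) (c la : Fin m → ℝ) (c' g : ℝ)
    (P : MvPolynomial (Fin m) ℝ) (b : Fin m → ℝ) :
    eval b (pull A c la c' g P) = (∑ k, la k * b k) + c' + g * eval (aff A c b) P := by
  unfold pull
  have e1 : eval b (bind₁ (fun l => (∑ k, C (A l k) * X k) + C (c l)) P) =
      eval (aff A c b) P := by
    rw [← coe_aeval_eq_eval, ← coe_aeval_eq_eval]
    simp only [RingHom.coe_coe]
    rw [aeval_bind₁]
    congr 2
    funext l
    unfold aff
    simp
  rw [map_add, map_add, map_mul, map_sum, eval_C, eval_C, e1]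
  congr 2
  refine Finset.sum_congr rfl fun k _ => ?_
  rw [map_mul, eval_C, eval_X]

theorem totalDegree_lin (a : Fin m → ℝ) (c : ℝ) :
    ((∑ k, C (a k) * X k) + C c : MvPolynomial (Fin m) ℝ).totalDegree ≤ 1 := by
  refine (totalDegree_add _ _).trans (max_le ?_ ?_)
  · refine (totalDegree_finsetSum _ _).trans (Finset.sup_le fun k _ => ?_)
    refine (totalDegree_mul _ _).trans ?_
    rw [totalDegree_C, totalDegree_X]
  · rw [totalDegree_C]
    exact Nat.zero_le _

theorem totalDegree_pull (A : Fin m → Fin m → ℝ) (c la : Fin m → ℝ) (c' g : ℝ)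
    {P : MvPolynomial (Fin m) ℝ} {K : ℕ} (hP : P.totalDegree ≤ K) :
    (pull A c la c' g P).totalDegree ≤ max K 1 := by
  unfold pull
  refine (totalDegree_add _ _).trans (max_le ((totalDegree_lin la c').trans (le_max_right _ _)) ?_)
  refine (totalDegree_mul _ _).trans ?_
  rw [totalDegree_C, zero_add]
  exact ((Pool.Agent.H50.PW.totalDegree_bind₁_le _ (fun l => totalDegree_lin _ _) P).trans hP).trans
    (le_max_left _ _)

theorem eval_pderiv_pull (A : Fin m → Fin m → ℝ) (c la : Fin m → ℝ) (c' g : ℝ)
    (P : MvPolynomial (Fin m) ℝ) (b : Fin m → ℝ) (k : Fin m) :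
    eval b (pderiv k (pull A c la c' g P)) =
      la k + g * ∑ l, A l k * eval (aff A c b) (pderiv l P) := by
  classical
  obtain ⟨e, he⟩ : ∃ e : Fin m → ℝ, e = fun j => if j = k then 1 else 0 := ⟨_, rfl⟩
  have h1 := Pool.OVN.hasDerivAt_line (pull A c la c' g P) b e 0
  have e1 : (fun j => b j + 0 * e j) = b := by
    funext j
    ring
  rw [e1] at h1
  have e2 : ∑ j, e j * eval b (pderiv j (pull A c la c' g P)) =
      eval b (pderiv k (pull A c la c' g P)) := by
    rw [he]
    simp
  rw [e2] at h1
  have h2 := Pool.OVN.hasDerivAt_line P (aff A c b) (fun l => A l k) 0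
  have e3 : (fun j => aff A c b j + 0 * A j k) = aff A c b := by
    funext j
    ring
  rw [e3] at h2
  have h3 : HasDerivAt (fun t : ℝ => (∑ j, la j * b j) + t * la k + c' +
      g * eval (fun l => aff A c b l + t * A l k) P)
      (la k + g * ∑ l, A l k * eval (aff A c b) (pderiv l P)) 0 := by
    have h4 : HasDerivAt (fun t : ℝ => (∑ j, la j * b j) + t * la k + c') (la k) 0 := by
      have h5 : HasDerivAt (fun t : ℝ => t * la k) (la k) 0 := by
        simpa using hasDerivAt_mul_const (la k) (x := (0 : ℝ))
      exact (h5.const_add _).add_const _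
    exact h4.add (h2.const_mul g)
  have e4 : (fun t : ℝ => eval (fun j => b j + t * e j) (pull A c la c' g P)) =
      fun t : ℝ => (∑ j, la j * b j) + t * la k + c' +
      g * eval (fun l => aff A c b l + t * A l k) P := by
    funext t
    rw [eval_pull]
    have f1 : ∑ j, la j * (b j + t * e j) = (∑ j, la j * b j) + t * la k := by
      have : ∀ j, la j * (b j + t * e j) = la j * b j + t * (la j * e j) := fun j => by ring
      rw [Finset.sum_congr rfl fun j _ => this j, Finset.sum_add_distrib, ← Finset.mul_sum, he]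
      simp
    have f2 : aff A c (fun j => b j + t * e j) = fun l => aff A c b l + t * A l k := by
      funext l
      unfold aff
      have : ∀ j, A l j * (b j + t * e j) = A l j * b j + t * (A l j * e j) := fun j => by ring
      rw [Finset.sum_congr rfl fun j _ => this j, Finset.sum_add_distrib, ← Finset.mul_sum, he]
      simp
      ring
    rw [f1, f2]
  rw [e4] at h1
  exact h1.unique h3

end Pool.CHB
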